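import Pool.Agent.Lib.Z23.Defs
import Pool.Agent.Lib.Z579.Local

/-!
# Z23, module Cls (about 260 lines): classes of poles modulo `p`

PROOFS.
* `Lf_cls`: `Lf_apply`; regroup the sum over `u < N` by `u % p` (`Finset.sum_fiberwise_of_maps_to`).
* `cl_eq`: the `u < N` with `u % p = c` are `c, c + p, ...`; see `Nat.count_modEq_card` or do it by
  induction on `N`.  `sum_cl`: fibres of `u ↦ u % p`.  `sum_cl_sq`: by `cl_eq` there are `N % p`
  classes with `N/p + 1` poles and `p - N % p` classes with `N/p` poles; with `r = N % p`,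
  `q = N / p`, `N / p` (real) `= q + r / p`; the sum is `r (1 - r/p)^2 + (p - r) (r/p)^2`.
* `wtA_VG`: `wtA = [i = 3] z - Hs i n` with `n = N + s - 1 - u < p^2`, so `Nat.log p n ≤ 1`; use
  `Z579.m4c p i n` (`VG p (-(i * Nat.log p n)) (Hs i n)`); template: `DIM3.wt_VG` in DIM3/PTwo.
* `wtA_VG0`: all denominators `k + 1 ≤ n < p`; template: `DIM3.Hs_int` in DIM3/PBig.
* `clsVG` (template: `class_shift` in DIM3/PMid, `FcL_VG` in DIM3/PTwo, and the `WA` calculus of
  Z579/M4: `WA p t κ f` bounds the coefficient of `x^m` by `t - m κ`): for a pole `u` of the class,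
  `base N u = ((∏_{w ≠ u} lin (u - w))⁻¹)^3` has `WA` weight `-3 (cl - 1)` with slope 1: a factor
  with `p ∣ u - w` has valuation exactly 1 (`|u - w| < N ≤ p^2`, `u ≠ w`), so `(lin (u-w))⁻¹` has
  coefficients of valuation `≥ -1 - m`, the other factors have integral coefficients.
  `aeval (lin u) ((X - C c)^n * G) = (lin (u - c))^n * aeval (lin u) G` with `p ∣ u - c`: weight `n`.
  So the coefficient of `x^(3-i)` has valuation `≥ n - 3 (cl - 1) - (3 - i) = n - 3 cl + i`, and
  the weight `ω u i` has valuation `≥ -(i + κ)`.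
* `clsOne`: `N ≤ c + p` means that `c` is the only pole of the class (or there is none if
  `N ≤ c`); all coefficients are integral.
-/

open Polynomial Finset Z579 DIM3

namespace Z23

private lemma LfC_apply' (p N c : ℕ) (ω : ℕ → ℕ → ℚ) (G : ℚ[X]) :
    LfC p N c ω G = ∑ u ∈ (Finset.range N).filter (fun u => u % p = c),
      ∑ i ∈ Finset.Icc 1 3, ω u i * Ac N u i G := by
  simp [LfC, LinearMap.sum_apply]

theorem Lf_cls (p N : ℕ) (hp : 0 < p) (ω : ℕ → ℕ → ℚ) (G : ℚ[X]) :
    Lf N ω G = ∑ c ∈ Finset.range p, LfC p N c ω G := by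
  rw [Lf_apply]
  simp only [LfC_apply']
  rw [Finset.sum_fiberwise_of_maps_to]
  intro u _
  exact Finset.mem_range.2 (Nat.mod_lt _ hp)

theorem cl_eq (p N c : ℕ) (hc : c < p) : cl p N c = N / p + if c < N % p then 1 else 0 := by
  have hp : 0 < p := by omega
  have h := Nat.count_modEq_card N hp c
  rw [Nat.mod_eq_of_lt hc] at h
  rw [← h, cl, Nat.count_eq_card_filter_range]
  congr 1
  refine Finset.filter_congr fun u _ => ?_
  rw [Nat.ModEq, Nat.mod_eq_of_lt hc]

theorem sum_cl (p N : ℕ) (hp : 0 < p) : ∑ c ∈ Finset.range p, cl p N c = N := by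
  unfold cl
  rw [← Finset.card_eq_sum_card_fiberwise, Finset.card_range]
  intro u _
  exact Finset.mem_coe.2 (Finset.mem_range.2 (Nat.mod_lt _ hp))

theorem sum_cl_sq (p N : ℕ) (hp : 0 < p) :
    ∑ c ∈ Finset.range p, ((cl p N c : ℝ) - N / p) ^ 2 =
      ((N % p : ℕ) : ℝ) * (p - (N % p : ℕ)) / p := by
  have hp0 : (0 : ℝ) < p := by exact_mod_cast hp
  have hr : N % p < p := Nat.mod_lt _ hp
  have hN : (N : ℝ) = p * ((N / p : ℕ) : ℝ) + ((N % p : ℕ) : ℝ) := by
    exact_mod_cast (Nat.div_add_mod N p).symm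
  set q : ℝ := ((N / p : ℕ) : ℝ) with hq
  set r : ℝ := ((N % p : ℕ) : ℝ) with hrr
  have hterm : ∀ c ∈ Finset.range p, ((cl p N c : ℝ) - N / p) ^ 2 =
      (if c < N % p then ((1 - r / p) ^ 2 - (r / p) ^ 2) else 0) + (r / p) ^ 2 := by
    intro c hc
    rw [cl_eq p N c (Finset.mem_range.1 hc), hN]
    split_ifs
    · push_cast
      rw [← hq]
      field_simp
      ring
    · push_cast
      rw [← hq]
      field_simp
      ring
  rw [Finset.sum_congr rfl hterm, Finset.sum_add_distrib, ← Finset.sum_filter, Finset.sum_const,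
    Finset.sum_const, Finset.card_range]
  have hcard : ((Finset.range p).filter fun c => c < N % p).card = N % p := by
    have : (Finset.range p).filter (fun c => c < N % p) = Finset.range (N % p) := by
      ext c
      simp only [Finset.mem_filter, Finset.mem_range]
      omega
    rw [this, Finset.card_range]
  rw [hcard, nsmul_eq_mul, nsmul_eq_mul, ← hrr]
  field_simp
  ring

theorem wtA_VG {p N s u i : ℕ} {z : ℚ} (hp : p.Prime) (hz : VG p 0 z) (h : N + s ≤ p ^ 2)
    (hu : u < N) : VG p (-(i : ℝ)) (wtA N s z u i) := by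
  have := Fact.mk hp
  have hi : (0 : ℝ) ≤ i := Nat.cast_nonneg i
  rw [wtA]
  refine VG.sub ?_ ?_
  · split_ifs
    · exact hz.mono (by linarith)
    · exact VG.zero' _ _
  · refine (m4c p i _ hp).mono ?_
    have h1 : Nat.log p (N + s - 1 - u) ≤ 1 := by
      have h2 : N + s - 1 - u < p ^ (1 + 1) := by
        have : p ^ (1 + 1) = p ^ 2 := by norm_num
        rw [this]
        omega
      rcases Nat.eq_zero_or_pos (N + s - 1 - u) with h0 | h0
      · rw [h0]; simp
      · exact Nat.lt_succ_iff.1 (Nat.log_lt_of_lt_pow h0.ne' h2)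
    have h2 : (Nat.log p (N + s - 1 - u) : ℝ) ≤ 1 := by exact_mod_cast h1
    have h4 := mul_le_mul_of_nonneg_left h2 hi
    linarith

theorem wtA_VG0 {p N s u i : ℕ} {z : ℚ} (hp : p.Prime) (hz : VG p 0 z) (h : N + s ≤ u + p)
    (hu : u < N) : VG p 0 (wtA N s z u i) := by
  have := Fact.mk hp
  rw [wtA]
  refine VG.sub ?_ ?_
  · split_ifs
    · exact hz
    · exact VG.zero' _ _
  · have h1 := m4c p i (N + s - 1 - u) hp
    rwa [Nat.log_of_lt (by omega), Nat.cast_zero, mul_zero, neg_zero] at h1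

theorem wtB_VG {p i : ℕ} {b : ℚ} (hp : p.Prime) (hb : VG p 0 b) (u : ℕ) :
    VG p 0 (wtB b u i) := by
  have := Fact.mk hp
  rw [wtB]
  split_ifs
  · exact VG.one
  · exact hb
  · exact VG.zero' _ _

section

variable {p : ℕ} [hp : Fact p.Prime]

private lemma WA_aev {K : ℝ} (hK : 0 ≤ K) (u : ℤ) {G : ℚ[X]} (hG : IPoly p G) :
    WA p K 0 (Polynomial.aeval (lin u) G) := by
  rw [Polynomial.aeval_eq_sum_range]
  intro j
  rw [map_sum]
  refine VG.sum fun i _ => ?_
  rw [PowerSeries.coeff_smul, smul_eq_mul]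
  have h1 := (WA.lin0 (p := p) hK u).pow i
  have h2 := (hG i).mul (h1 j)
  refine h2.mono (le_of_eq ?_)
  push_cast
  ring

private lemma base_one {N u c : ℕ} (hN : N ≤ p ^ 2) (hu : u < N) (huc : u % p = c) :
    WA p 1 (-(3 * ((cl p N c : ℝ) - 1))) (base N u) := by
  have hdvd : ∀ w : ℕ, (w % p = c ↔ (p : ℤ) ∣ (u : ℤ) - w) := by
    intro w
    rw [← huc]
    constructor
    · intro h
      have h1 : (w : ℤ) ≡ u [ZMOD p] := by
        have : w ≡ u [MOD p] := h
        exact (Int.natCast_modEq_iff).2 this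
      exact h1.dvd
    · intro h
      have h1 : (w : ℤ) ≡ u [ZMOD p] := (Int.modEq_iff_dvd).2 h
      exact (Int.natCast_modEq_iff).1 h1
  have h2 : WA p 1 (-((cl p N c : ℝ) - 1))
      (∏ w ∈ (Finset.range N).erase u, lin ((u : ℤ) - w))⁻¹ := by
    have h0 : (-((cl p N c : ℝ) - 1)) =
        ∑ w ∈ (Finset.range N).erase u, (-(if w % p = c then (1 : ℝ) else 0)) := by
      rw [Finset.sum_neg_distrib, Finset.sum_boole, Finset.filter_erase]
      have h3 : u ∈ (Finset.range N).filter fun w => w % p = c := by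
        rw [Finset.mem_filter]; exact ⟨Finset.mem_range.2 hu, huc⟩
      rw [Finset.card_erase_of_mem h3, Nat.cast_sub (Finset.card_pos.2 ⟨u, h3⟩)]
      simp [cl]
    rw [h0, PS_prod_inv]
    refine WA.prod fun w hw => ?_
    rw [Finset.mem_erase, Finset.mem_range] at hw
    have hne : (u : ℤ) - w ≠ 0 := sub_ne_zero.2 (by exact_mod_cast (Ne.symm hw.1))
    have hN' : (N : ℤ) ≤ (p : ℤ) ^ 2 := by exact_mod_cast hN
    have hlt : |(u : ℤ) - w| < (p : ℤ) ^ 2 := by
      rw [abs_lt]; omega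
    have hv := val_small (p := p) hne hlt
    have h5 := WA.lin_inv (p := p) (K := 1) hne (by
      rw [hv]; split_ifs <;> norm_num)
    rw [hv] at h5
    refine h5.mono (le_of_eq ?_)
    by_cases h6 : w % p = c
    · rw [if_pos h6, if_pos ((hdvd w).1 h6)]; norm_num
    · rw [if_neg h6, if_neg (fun h7 => h6 ((hdvd w).2 h7))]; norm_num
  have h3 := h2.pow 3
  rw [base]
  refine h3.mono (le_of_eq ?_)
  push_cast
  ring

private lemma base_zero {N u : ℕ} (h : ∀ w < N, (p : ℤ) ∣ (u : ℤ) - w → w = u) :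
    WA p 0 0 (base N u) := by
  have h2 : WA p 0 (∑ w ∈ (Finset.range N).erase u, (0 : ℝ))
      (∏ w ∈ (Finset.range N).erase u, lin ((u : ℤ) - w))⁻¹ := by
    rw [PS_prod_inv]
    refine WA.prod fun w hw => ?_
    rw [Finset.mem_erase, Finset.mem_range] at hw
    have hne : (u : ℤ) - w ≠ 0 := sub_ne_zero.2 (by exact_mod_cast (Ne.symm hw.1))
    have hnd : ¬ (p : ℤ) ∣ (u : ℤ) - w := fun hd => hw.1 (h w hw.2 hd)
    have hv : padicValRat p (((u : ℤ) - w : ℤ) : ℚ) = 0 := by
      rw [padicValRat.of_int, padicValInt.eq_zero_of_not_dvd hnd]; rfl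
    have h5 := WA.lin_inv (p := p) (K := 0) hne (by rw [hv]; simp)
    rw [hv] at h5
    simpa using h5
  have h3 := h2.pow 3
  rw [base]
  refine h3.mono (le_of_eq ?_)
  simp

end

theorem clsVG : ClsVG := by
  intro p N c ω κ hp hc hN hω n G hG
  have := Fact.mk hp
  rw [LfC_apply']
  refine VG.sum fun u hu => VG.sum fun i hi => ?_
  rw [Finset.mem_Icc] at hi
  rw [Finset.mem_filter, Finset.mem_range] at hu
  have h1 := base_one (p := p) hN hu.1 hu.2
  have hd : (p : ℤ) ∣ (u : ℤ) - c := by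
    rw [← hu.2]
    have h3 : ((u % p : ℕ) : ℤ) ≡ u [ZMOD p] :=
      (Int.natCast_modEq_iff).2 (Nat.mod_modEq u p)
    exact h3.dvd
  have h2 : WA p 1 (n : ℝ) (Polynomial.aeval (lin (u : ℤ))
      ((X - Polynomial.C (c : ℚ)) ^ n * G)) := by
    have h4 : WA p 1 1 (Polynomial.aeval (lin (u : ℤ)) (X - Polynomial.C (c : ℚ))) := by
      have h5 : Polynomial.aeval (lin (u : ℤ)) (X - Polynomial.C (c : ℚ)) =
          lin ((u : ℤ) - c) := by
        rw [map_sub, Polynomial.aeval_X, Polynomial.aeval_C, lin, lin]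
        have : (algebraMap ℚ (PowerSeries ℚ)) (c : ℚ) = PowerSeries.C (c : ℚ) := rfl
        rw [this]
        push_cast
        simp only [map_sub]
        ring
      rw [h5]
      exact WA.lin (VG.of_dvd hd) le_rfl
    rw [map_mul, map_pow]
    have h5 := (h4.pow n).mul (WA_aev (p := p) zero_le_one (u : ℤ) hG)
    simpa using h5
  have h3 := (h1.mul h2) (3 - i)
  have h4 := (hω u hu.1 hu.2 i hi.1 hi.2).mul h3
  rw [Ac_apply]
  refine VG.mono h4 ?_
  rw [Nat.cast_sub hi.2]
  push_cast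
  linarith

theorem clsOne : ClsOne := by
  intro p N c ω hp hc hN hω G hG
  have := Fact.mk hp
  rw [LfC_apply']
  refine VG.sum fun u hu => VG.sum fun i hi => ?_
  rw [Finset.mem_Icc] at hi
  rw [Finset.mem_filter, Finset.mem_range] at hu
  have hpos := hp.pos
  have huc : u = c := by
    have h1 := Nat.div_add_mod u p
    rw [hu.2] at h1
    have h2 : u / p = 0 := by
      by_contra h3
      have h4 : 1 ≤ u / p := Nat.one_le_iff_ne_zero.2 h3
      have h5 : p * 1 ≤ p * (u / p) := Nat.mul_le_mul_left p h4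
      omega
    rw [h2] at h1
    omega
  have hone : ∀ w < N, (p : ℤ) ∣ (u : ℤ) - w → w = u := by
    intro w hw hd
    have h1 := Int.eq_zero_of_abs_lt_dvd hd (by rw [abs_lt]; omega)
    omega
  have h1 := base_zero (p := p) hone
  have h2 := WA_aev (p := p) (le_refl (0 : ℝ)) (u : ℤ) hG
  have h3 := (h1.mul h2) (3 - i)
  have h4 := (hω u hu.1 hu.2 i hi.1 hi.2).mul h3
  rw [Ac_apply]
  refine VG.mono h4 ?_
  simp

end Z23
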