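import Pool.Agent.Lib.Z23.Defs
import Pool.Agent.Lib.DIM3.Weight
import Pool.Agent.Lib.Z579.DimDL
import Pool.Agent.Lib.DIM3.D5Core

/-!
# Z23, module CoreZ (about 450 lines): determinant bound from local functionals

PROOF: this is `DIM3.core` (file Pool/Agent/Lib/DIM3/D5Core.lean: copy the file; keep your copies of
its auxiliary lemmas `IPoly.eval`, `IPoly.div`, `IPoly.expand`, `IPoly.gpol` private, or import
D5Core and use them) with two changes:
(1) the shift 3 of the functionals `H c`, `c ∈ J3`, is replaced by 2;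
(2) there is one more family of elementary functionals: for `c ∈ J1` the functional
`G ↦ κ c * G.eval (g c)` with `VG p (-3) (κ c)`.  In the application of `DL'` the index type of the
elementary functionals becomes `(J × Fin E) ⊕ ((J3 × Fin E) ⊕ (J1 ⊕ Fin (K + K)))`; for `ψ ∈ J1`
the entry is `Φ i ψ = κ ψ * (P i).eval (g ψ)` (valuation `≥ -3 ≥ -(r i + 3)` because `0 ≤ r i` and
`(P i).eval (g ψ)` is integral by `IPoly.eval`), the coefficient is
`C ψ j = if j < K then (g ψ)^j else 0` (since `(P i * X^j).eval (g ψ) = (P i).eval (g ψ) * (g ψ)^j`),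
the weight is `s ψ = 3`, `w ψ j = 0`, and the allowance is `g ψ = 3 - l` (so that
`s ψ - w ψ j = 3 ≤ l + (3 - l)` for `j < K`; for `j ≥ K` the coefficient is zero).
The sum of the allowances over `J1` is `(3 - l) * J1.card`.
-/

open Polynomial Finset Z579 DIM3

namespace Z23

theorem core : Core := by
  intro p hp J1 J2 J3 x g e ρ E l hl hE hρ hρ3 LA LB F H S κ hS hκ hA hB hF hH K
  have : Fact p.Prime := ⟨hp⟩
  classical
  set J := J2 ∪ J3 with hJ
  obtain ⟨N, k, r, hdeg, hr0, hrN, hrsum⟩ := rowsNat J ρ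
  set P : ℕ → ℚ[X] := fun i => Z579.gpol J (fun c => (x c : ℚ)) (N i) * X ^ (k i) with hP
  have hPm : ∀ i, (P i).Monic := fun i => (gpol_monic J _ _).mul (monic_X_pow _)
  have hPd : ∀ i, (P i).natDegree = i := by
    intro i
    rw [hP]
    simp only
    rw [(gpol_monic J _ _).natDegree_mul (monic_X_pow _), gpol_natDegree, natDegree_X_pow]
    exact hdeg i
  have hPI : ∀ i, IPoly p (P i) := fun i => (DIM3.IPoly.gpol J x (N i)).mul (IPoly.var.pow _)
  have hPc : ∀ c ∈ J, ∀ i, ∃ R : ℚ[X], IPoly p R ∧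
      P i = (X - Polynomial.C (x c : ℚ)) ^ (N i c) * R := by
    intro c hc i
    refine ⟨(∏ c' ∈ J.erase c, (X - Polynomial.C (x c' : ℚ)) ^ (N i c')) * X ^ (k i),
      (IPoly.prod fun c' _ => (IPoly.X_sub_C (x c')).pow _).mul (IPoly.var.pow _), ?_⟩
    rw [hP]
    simp only
    rw [Z579.gpol, ← Finset.mul_prod_erase J _ hc]
    ring
  -- values of the local functionals
  have hFv : ∀ c ∈ J, ∀ i (j : ℕ) (G : ℚ[X]), IPoly p G →
      VG p (ρ c - r i + j - e c) (F c (P i * ((X - Polynomial.C (x c : ℚ)) ^ j * G))) := by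
    intro c hc i j G hG
    obtain ⟨R, hR, hPi⟩ := hPc c hc i
    have h1 : P i * ((X - Polynomial.C (x c : ℚ)) ^ j * G) =
        (X - Polynomial.C (x c : ℚ)) ^ (N i c + j) * (R * G) := by
      rw [hPi, pow_add]; ring
    rw [h1]
    refine (hF c hc _ _ (hR.mul hG)).mono ?_
    have := hrN i c hc
    push_cast
    linarith
  have hHv : ∀ c ∈ J3, ∀ i (j : ℕ) (G : ℚ[X]), IPoly p G →
      VG p (ρ c - r i + j - e c + 2) (H c (P i * ((X - Polynomial.C (x c : ℚ)) ^ j * G))) := by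
    intro c hc i j G hG
    have hcJ : c ∈ J := Finset.mem_union_right _ hc
    obtain ⟨R, hR, hPi⟩ := hPc c hcJ i
    have h1 : P i * ((X - Polynomial.C (x c : ℚ)) ^ j * G) =
        (X - Polynomial.C (x c : ℚ)) ^ (N i c + j) * (R * G) := by
      rw [hPi, pow_add]; ring
    rw [h1]
    refine (hH c hc _ _ (hR.mul hG)).mono ?_
    have := hrN i c hcJ
    push_cast
    linarith
  -- expansions
  have hexp : ∀ Q : ℚ[X], IPoly p Q → ∀ y : ℤ, ∃ (q : ℕ → ℚ) (R : ℚ[X]), (∀ j, VG p 0 (q j)) ∧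
      IPoly p R ∧ Q = ∑ j ∈ Finset.range E, Polynomial.C (q j) * (X - Polynomial.C (y : ℚ)) ^ j +
        (X - Polynomial.C (y : ℚ)) ^ E * R := fun Q hQ y => hQ.expand y E
  choose! q Rm hq hRm hQe using hexp
  have hXI : ∀ n : ℕ, IPoly p (X ^ n : ℚ[X]) := fun n => IPoly.var.pow n
  -- rewriting a local functional of a product
  have hFx : ∀ (L : ℚ[X] →ₗ[ℚ] ℚ) (Q : ℚ[X]), IPoly p Q → ∀ (y : ℤ) (i : ℕ),
      L (P i * Q) = ∑ j : Fin E, L (P i * (X - Polynomial.C (y : ℚ)) ^ (j : ℕ)) * q Q y j +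
        L (P i * ((X - Polynomial.C (y : ℚ)) ^ E * Rm Q y)) := by
    intro L Q hQ y i
    conv_lhs => rw [hQe Q hQ y]
    rw [mul_add, map_add, Finset.mul_sum, map_sum, Finset.sum_range]
    congr 1
    refine Finset.sum_congr rfl fun j _ => ?_
    have h1 : P i * (Polynomial.C (q Q y j) * (X - Polynomial.C (y : ℚ)) ^ (j : ℕ)) =
        q Q y j • (P i * (X - Polynomial.C (y : ℚ)) ^ (j : ℕ)) := by
      rw [smul_eq_C_mul]; ring
    rw [h1, map_smul, smul_eq_mul, mul_comm]
  -- the matrix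
  rw [hank2_eq, tbdet_basis LA LB K K P (fun n => X ^ n) (fun n => X ^ n) hPm hPd
    (fun n => monic_X_pow n) (fun n => natDegree_X_pow n) (fun n => monic_X_pow n)
    (fun n => natDegree_X_pow n)]
  set M : Fin (K + K) → Fin (K + K) → ℚ := fun i j =>
    if (j : ℕ) < K then LA (P i * X ^ (j : ℕ)) else LB (P i * X ^ ((j : ℕ) - K)) with hM
  -- elementary functionals
  set Φ1 : Fin (K + K) → (J × Fin E) → ℚ := fun i ψ =>
    F ψ.1 (P i * (X - Polynomial.C (x ψ.1 : ℚ)) ^ (ψ.2 : ℕ)) with hΦ1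
  set Φ2 : Fin (K + K) → (J3 × Fin E) → ℚ := fun i ψ =>
    H ψ.1 (P i * (X - Polynomial.C (x ψ.1 : ℚ)) ^ (ψ.2 : ℕ)) with hΦ2
  set Φ4 : Fin (K + K) → J1 → ℚ := fun i ψ => κ ψ * (P i).eval (g ψ : ℚ) with hΦ4
  set C4 : J1 → Fin (K + K) → ℚ := fun ψ j =>
    if (j : ℕ) < K then (g ψ : ℚ) ^ (j : ℕ) else 0 with hC4
  set C1 : (J × Fin E) → Fin (K + K) → ℚ := fun ψ j =>
    if (j : ℕ) < K then q (X ^ (j : ℕ)) (x ψ.1) ψ.2
    else if (ψ.1 : ℤ) ∈ J2 then p * q (S ψ.1 * X ^ ((j : ℕ) - K)) (x ψ.1) ψ.2 else 0 with hC1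
  set C2 : (J3 × Fin E) → Fin (K + K) → ℚ := fun ψ j =>
    if (j : ℕ) < K then 0 else q (X ^ ((j : ℕ) - K)) (x ψ.1) ψ.2 with hC2
  set Φ3 : Fin (K + K) → Fin (K + K) → ℚ := fun i j =>
    M i j - ∑ ψ, Φ1 i ψ * C1 ψ j - ∑ ψ, Φ2 i ψ * C2 ψ j - ∑ ψ, Φ4 i ψ * C4 ψ j with hΦ3
  -- integrality of the remainders
  have hint : ∀ i j, VG p 0 (Φ3 i j) := by
    intro i j
    have hrem : ∀ c ∈ J, ∀ R, IPoly p R → VG p (-(r i)) (F c (P i *
        ((X - Polynomial.C (x c : ℚ)) ^ E * R))) := by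
      intro c hc R hR
      refine (hFv c hc i E R hR).mono ?_
      have h1 : (e c : ℝ) ≤ E := by exact_mod_cast hE c hc
      have h2 : (0 : ℝ) ≤ ρ c := Nat.cast_nonneg _
      linarith
    have hrem0 : ∀ c ∈ J, ∀ R, IPoly p R → VG p 0 (F c (P i *
        ((X - Polynomial.C (x c : ℚ)) ^ E * R))) := by
      intro c hc R hR
      obtain ⟨R', hR', hPi⟩ := hPc c hc i
      have h1 : P i * ((X - Polynomial.C (x c : ℚ)) ^ E * R) =
          (X - Polynomial.C (x c : ℚ)) ^ (N i c + E) * (R' * R) := by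
        rw [hPi, pow_add]; ring
      rw [h1]
      refine (hF c hc _ _ (hR'.mul hR)).mono ?_
      have h1 : (e c : ℝ) ≤ E := by exact_mod_cast hE c hc
      have h2 : (0 : ℝ) ≤ N i c := Nat.cast_nonneg _
      push_cast
      linarith
    have hremH : ∀ c ∈ J3, ∀ R, IPoly p R → VG p 0 (H c (P i *
        ((X - Polynomial.C (x c : ℚ)) ^ E * R))) := by
      intro c hc R hR
      have hcJ : c ∈ J := Finset.mem_union_right _ hc
      obtain ⟨R', hR', hPi⟩ := hPc c hcJ i
      have h1 : P i * ((X - Polynomial.C (x c : ℚ)) ^ E * R) =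
          (X - Polynomial.C (x c : ℚ)) ^ (N i c + E) * (R' * R) := by
        rw [hPi, pow_add]; ring
      rw [h1]
      refine (hH c hc _ _ (hR'.mul hR)).mono ?_
      have h1 : (e c : ℝ) ≤ E := by exact_mod_cast hE c hcJ
      have h2 : (0 : ℝ) ≤ N i c := Nat.cast_nonneg _
      push_cast
      linarith
    by_cases hj : (j : ℕ) < K
    · have e1 : M i j = LA (P i * X ^ (j : ℕ)) := by simp only [hM, if_pos hj]
      have e2 : ∑ ψ, Φ2 i ψ * C2 ψ j = 0 := by
        refine Finset.sum_eq_zero fun ψ _ => ?_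
        simp only [hC2, if_pos hj, mul_zero]
      have e3 : ∑ ψ, Φ1 i ψ * C1 ψ j = ∑ c ∈ J, ∑ m : Fin E,
          F c (P i * (X - Polynomial.C (x c : ℚ)) ^ (m : ℕ)) * q (X ^ (j : ℕ)) (x c) m := by
        rw [Fintype.sum_prod_type, ← Finset.sum_coe_sort J]
        refine Finset.sum_congr rfl fun c _ => Finset.sum_congr rfl fun m _ => ?_
        simp only [hΦ1, hC1, if_pos hj]
      have e4 : ∑ c ∈ J, ∑ m : Fin E,
          F c (P i * (X - Polynomial.C (x c : ℚ)) ^ (m : ℕ)) * q (X ^ (j : ℕ)) (x c) m =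
          ∑ c ∈ J, F c (P i * X ^ (j : ℕ)) - ∑ c ∈ J, F c (P i *
            ((X - Polynomial.C (x c : ℚ)) ^ E * Rm (X ^ (j : ℕ)) (x c))) := by
        rw [← Finset.sum_sub_distrib]
        refine Finset.sum_congr rfl fun c _ => ?_
        rw [hFx (F c) (X ^ (j : ℕ)) (hXI _) (x c) i]
        ring
      have e2b : ∑ ψ, Φ4 i ψ * C4 ψ j =
          ∑ c ∈ J1, κ c * (P i * X ^ (j : ℕ)).eval (g c : ℚ) := by
        rw [← Finset.sum_coe_sort J1]
        refine Finset.sum_congr rfl fun c _ => ?_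
        simp only [hΦ4, hC4, if_pos hj, Polynomial.eval_mul, Polynomial.eval_pow,
          Polynomial.eval_X]
        ring
      simp only [hΦ3]
      rw [e1, e2, e2b, e3, e4, sub_zero]
      have e5 := hA (P i * X ^ (j : ℕ)) ((hPI i).mul (hXI _))
      have e6 : VG p 0 (∑ c ∈ J, F c (P i *
            ((X - Polynomial.C (x c : ℚ)) ^ E * Rm (X ^ (j : ℕ)) (x c)))) :=
        VG.sum fun c hc => hrem0 c hc _ (hRm _ (hXI _) _)
      have e7 := e5.add e6
      have e8 : ∀ a b c d : ℚ, a - (b - c) - d = a - (b + d) + c := fun a b c d => by ring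
      rw [e8]
      exact e7
    · set n := (j : ℕ) - K with hn
      have e1 : M i j = LB (P i * X ^ n) := by simp only [hM, if_neg hj, hn]
      have e2 : ∑ ψ, Φ2 i ψ * C2 ψ j = ∑ c ∈ J3, H c (P i * X ^ n) - ∑ c ∈ J3, H c (P i *
            ((X - Polynomial.C (x c : ℚ)) ^ E * Rm (X ^ n) (x c))) := by
        rw [Fintype.sum_prod_type, ← Finset.sum_sub_distrib, ← Finset.sum_coe_sort J3]
        refine Finset.sum_congr rfl fun c _ => ?_
        rw [hFx (H c) (X ^ n) (hXI _) (x c) i, add_sub_cancel_right]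
        refine Finset.sum_congr rfl fun m _ => ?_
        simp only [hΦ2, hC2, if_neg hj, hn]
      have e3 : ∑ ψ, Φ1 i ψ * C1 ψ j = ∑ c ∈ J, if c ∈ J2 then p * ∑ m : Fin E,
          F c (P i * (X - Polynomial.C (x c : ℚ)) ^ (m : ℕ)) * q (S c * X ^ n) (x c) m else 0 := by
        rw [Fintype.sum_prod_type, ← Finset.sum_coe_sort J]
        refine Finset.sum_congr rfl fun c _ => ?_
        split_ifs with hc
        · rw [Finset.mul_sum]
          refine Finset.sum_congr rfl fun m _ => ?_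
          simp only [hΦ1, hC1, if_neg hj, if_pos hc, hn]
          ring
        · refine Finset.sum_eq_zero fun m _ => ?_
          simp only [hC1, if_neg hj, if_neg hc, mul_zero]
      have e4 : (∑ c ∈ J, if c ∈ J2 then p * ∑ m : Fin E,
          F c (P i * (X - Polynomial.C (x c : ℚ)) ^ (m : ℕ)) * q (S c * X ^ n) (x c) m else 0) =
          ∑ c ∈ J2, p * F c (S c * (P i * X ^ n)) - ∑ c ∈ J2, p * F c (P i *
            ((X - Polynomial.C (x c : ℚ)) ^ E * Rm (S c * X ^ n) (x c))) := by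
        have hfil : J.filter (fun c => c ∈ J2) = J2 := by
          ext c
          rw [Finset.mem_filter, hJ, Finset.mem_union]
          tauto
        rw [← Finset.sum_filter, hfil, ← Finset.sum_sub_distrib]
        refine Finset.sum_congr rfl fun c hc => ?_
        have h1 := hFx (F c) (S c * X ^ n) ((hS c hc).mul (hXI _)) (x c) i
        have h2 : S c * (P i * X ^ n) = P i * (S c * X ^ n) := by ring
        rw [h2, h1]
        ring
      have e2b : ∑ ψ, Φ4 i ψ * C4 ψ j = 0 := by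
        refine Finset.sum_eq_zero fun ψ _ => ?_
        simp only [hC4, if_neg hj, mul_zero]
      simp only [hΦ3]
      rw [e1, e2, e2b, e3, e4, sub_zero]
      have e5 := hB (P i * X ^ n) ((hPI i).mul (hXI _))
      have e6 : VG p 0 (∑ c ∈ J2, (p : ℚ) * F c (P i *
            ((X - Polynomial.C (x c : ℚ)) ^ E * Rm (S c * X ^ n) (x c)))) := by
        refine VG.sum fun c hc => ?_
        have h1 := hrem0 c (Finset.mem_union_left _ hc) _
          (hRm _ ((hS c hc).mul (hXI n)) (x c))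
        have h2 := (VG.nat (p := p) p).mul h1
        simpa using h2
      have e7 : VG p 0 (∑ c ∈ J3, H c (P i *
            ((X - Polynomial.C (x c : ℚ)) ^ E * Rm (X ^ n) (x c)))) :=
        VG.sum fun c hc => hremH c hc _ (hRm _ (hXI _) _)
      have e8 := (e5.add e6).add e7
      have e9 : ∀ a b c d f : ℚ, a - (b - c) - (d - f) = a - (b + d) + c + f :=
        fun a b c d f => by ring
      rw [e9]
      exact e8
  -- apply the determinant lemma
  have hmat : (Matrix.of fun i j : Fin (K + K) => M i j) =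
      Matrix.of fun i j : Fin (K + K) =>
        ∑ ψ : (J × Fin E) ⊕ ((J3 × Fin E) ⊕ (J1 ⊕ Fin (K + K))),
          (Sum.elim (Φ1 i) (Sum.elim (Φ2 i) (Sum.elim (Φ4 i) (Φ3 i))) ψ) *
          (Sum.elim C1 (Sum.elim C2 (Sum.elim C4
            (fun k j => if k = j then (1 : ℚ) else 0))) ψ j) := by
    ext i j
    simp only [Matrix.of_apply]
    rw [Fintype.sum_sum_type, Fintype.sum_sum_type, Fintype.sum_sum_type]
    simp only [Sum.elim_inl, Sum.elim_inr]
    have h1 : ∑ k : Fin (K + K), Φ3 i k * (if k = j then (1 : ℚ) else 0) = Φ3 i j := by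
      simp only [mul_ite, mul_one, mul_zero, Finset.sum_ite_eq', Finset.mem_univ, if_true]
    rw [h1]
    simp only [hΦ3]
    ring
  have hfin : (Matrix.of fun i j : Fin (K + K) =>
      if (j : ℕ) < K then LA (P i * X ^ (j : ℕ)) else LB (P i * X ^ ((j : ℕ) - K))) =
      Matrix.of fun i j : Fin (K + K) => M i j := rfl
  rw [hfin, hmat]
  have hDL := DL' (p := p)
    (fun (i : Fin (K + K)) (ψ : (J × Fin E) ⊕ ((J3 × Fin E) ⊕ (J1 ⊕ Fin (K + K)))) =>
      Sum.elim (Φ1 i) (Sum.elim (Φ2 i) (Sum.elim (Φ4 i) (Φ3 i))) ψ)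
    (fun ψ j => Sum.elim C1 (Sum.elim C2 (Sum.elim C4
      (fun k j => if k = j then (1 : ℚ) else 0))) ψ j)
    (fun i => r i)
    (Sum.elim (fun ψ => (e ψ.1 : ℝ) - ρ ψ.1 - (ψ.2 : ℕ))
      (Sum.elim (fun ψ => (e ψ.1 : ℝ) - ρ ψ.1 - 2 - (ψ.2 : ℕ))
        (Sum.elim (fun _ => 3) (fun _ => 0))))
    (fun ψ j => Sum.elim (fun _ => if (j : ℕ) < K then (0 : ℝ) else 1) (fun _ => 0) ψ)
    (fun j => if (j : ℕ) < K then (l : ℝ) else 0)
    (Sum.elim (fun ψ => max (((e ψ.1 - ρ ψ.1 - l : ℕ) : ℝ) - (ψ.2 : ℕ)) 0)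
      (Sum.elim (fun ψ => max (((e ψ.1 - ρ ψ.1 - 2 : ℕ) : ℝ) - (ψ.2 : ℕ)) 0)
        (Sum.elim (fun _ => 3 - (l : ℝ)) (fun _ => 0))))
    (by
      rintro (ψ | ψ | ψ | ψ)
      · exact le_max_right _ _
      · exact le_max_right _ _
      · have hlR : (l : ℝ) ≤ 1 := by exact_mod_cast hl
        simp only [Sum.elim_inl, Sum.elim_inr]
        linarith
      · exact le_rfl)
    (by
      rintro i (ψ | ψ | ψ | ψ)
      · simp only [Sum.elim_inl, hΦ1]
        have h1 := hFv ψ.1 ψ.1.2 i ψ.2 1 IPoly.one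
        rw [mul_one] at h1
        refine h1.mono (le_of_eq ?_)
        ring
      · simp only [Sum.elim_inl, Sum.elim_inr, hΦ2]
        have h1 := hHv ψ.1 ψ.1.2 i ψ.2 1 IPoly.one
        rw [mul_one] at h1
        refine h1.mono (le_of_eq ?_)
        ring
      · simp only [Sum.elim_inl, Sum.elim_inr, hΦ4]
        have h1 := (hκ ψ.1 ψ.2).mul (DIM3.IPoly.eval (hPI i) (g ψ.1))
        refine h1.mono ?_
        have := hr0 i
        linarith
      · simp only [Sum.elim_inr]
        refine (hint i ψ).mono ?_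
        have := hr0 i
        linarith)
    (by
      rintro (ψ | ψ | ψ | ψ) j
      · simp only [Sum.elim_inl, hC1]
        split_ifs with h1 h2
        · exact hq _ (hXI _) _ _
        · have h3 := (VG.of_dvd (p := p) (dvd_refl (p : ℤ))).mul
            (hq _ ((hS ψ.1 h2).mul (hXI ((j : ℕ) - K))) (x ψ.1) ψ.2)
          rw [add_zero] at h3
          exact_mod_cast h3
        · exact VG.zero' _ _
      · simp only [Sum.elim_inl, Sum.elim_inr, hC2]
        split_ifs with h1
        · exact VG.zero' _ _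
        · exact hq _ (hXI _) _ _
      · simp only [Sum.elim_inl, Sum.elim_inr, hC4]
        split_ifs
        · have h1 := (VG.int (p := p) (g ψ.1)).pow (j : ℕ)
          rw [mul_zero] at h1
          exact h1
        · exact VG.zero' _ _
      · simp only [Sum.elim_inr]
        split_ifs
        · exact VG.one
        · exact VG.zero' _ _)
    (by
      rintro (ψ | ψ | ψ | ψ) j hne
      · have hc : (ψ.1 : ℤ) ∈ J := ψ.1.2
        simp only [Sum.elim_inl, hC1] at hne ⊢
        have h2 : (((e ψ.1 - ρ ψ.1 - l : ℕ)) : ℝ) = (e ψ.1 : ℝ) - ρ ψ.1 - l := by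
          have h3 := hρ _ hc
          rw [Nat.cast_sub (by omega), Nat.cast_sub (by omega)]
        have hlR : (l : ℝ) ≤ 1 := by exact_mod_cast hl
        have hl0 : (0 : ℝ) ≤ l := Nat.cast_nonneg _
        have h4 := le_max_left ((((e ψ.1 - ρ ψ.1 - l : ℕ)) : ℝ) - (ψ.2 : ℕ)) 0
        rw [h2] at h4 ⊢
        split_ifs
        · linarith
        · linarith
      · have hc : (ψ.1 : ℤ) ∈ J3 := ψ.1.2
        simp only [Sum.elim_inl, Sum.elim_inr] at hne ⊢
        have h2 : (((e ψ.1 - ρ ψ.1 - 2 : ℕ)) : ℝ) = (e ψ.1 : ℝ) - ρ ψ.1 - 2 := by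
          have h3 := hρ3 _ hc
          rw [Nat.cast_sub (by omega), Nat.cast_sub (by omega)]
          push_cast
          ring
        have hl0 : (0 : ℝ) ≤ l := Nat.cast_nonneg _
        have h4 := le_max_left ((((e ψ.1 - ρ ψ.1 - 2 : ℕ)) : ℝ) - (ψ.2 : ℕ)) 0
        rw [h2] at h4 ⊢
        have h5 : (0 : ℝ) ≤ if (j : ℕ) < K then (l : ℝ) else 0 := by
          split_ifs
          · exact hl0
          · exact le_rfl
        linarith
      · simp only [Sum.elim_inl, Sum.elim_inr, hC4] at hne ⊢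
        by_cases hj : (j : ℕ) < K
        · rw [if_pos hj]
          linarith
        · exact absurd (if_neg hj) hne
      · simp only [Sum.elim_inr, sub_self, add_zero]
        split_ifs
        · exact Nat.cast_nonneg _
        · exact le_rfl)
  refine hDL.mono (neg_le_neg ?_)
  have s1 : ∑ i : Fin (K + K), r i ≤ ∑ c ∈ J, (ρ c : ℝ) * (ρ c + 1) / 2 := by
    have h1 := hrsum (K + K)
    rw [Finset.sum_range] at h1
    exact h1
  have s2 : ∑ j : Fin (K + K), (if (j : ℕ) < K then (l : ℝ) else 0) = l * K := by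
    rw [Fin.sum_univ_eq_sum_range (fun j => if j < K then (l : ℝ) else 0) (K + K),
      Finset.sum_range_add]
    have h1 : ∑ j ∈ Finset.range K, (if j < K then (l : ℝ) else 0) = l * K := by
      rw [Finset.sum_congr rfl fun j hj => if_pos (Finset.mem_range.1 hj), Finset.sum_const,
        Finset.card_range, nsmul_eq_mul, mul_comm]
    have h2 : ∑ j ∈ Finset.range K, (if K + j < K then (l : ℝ) else 0) = 0 :=
      Finset.sum_eq_zero fun j _ => if_neg (by omega)
    rw [h1, h2, add_zero]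
  rw [Fintype.sum_sum_type, Fintype.sum_sum_type, Fintype.sum_sum_type]
  simp only [Sum.elim_inl, Sum.elim_inr]
  have s3 : ∑ ψ : J × Fin E, max (((e ψ.1 - ρ ψ.1 - l : ℕ) : ℝ) - (ψ.2 : ℕ)) 0 ≤
      ∑ c ∈ J, ((e c - ρ c - l : ℕ) : ℝ) * ((e c - ρ c - l : ℕ) + 1) / 2 := by
    rw [Fintype.sum_prod_type, ← Finset.sum_coe_sort J]
    refine Finset.sum_le_sum fun c _ => ?_
    have h1 := sum_pos_part_nat (e c - ρ c - l) E
    rw [Finset.sum_range] at h1
    exact h1
  have s4 : ∑ ψ : J3 × Fin E, max (((e ψ.1 - ρ ψ.1 - 2 : ℕ) : ℝ) - (ψ.2 : ℕ)) 0 ≤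
      ∑ c ∈ J3, ((e c - ρ c - 2 : ℕ) : ℝ) * ((e c - ρ c - 2 : ℕ) + 1) / 2 := by
    rw [Fintype.sum_prod_type, ← Finset.sum_coe_sort J3]
    refine Finset.sum_le_sum fun c _ => ?_
    have h1 := sum_pos_part_nat (e c - ρ c - 2) E
    rw [Finset.sum_range] at h1
    exact h1
  have s5 : ∑ _ψ : J1, (3 - (l : ℝ)) = (3 - l) * (J1.card : ℝ) := by
    rw [Finset.sum_const, Finset.card_univ, Fintype.card_coe, nsmul_eq_mul, mul_comm]
  rw [s2, s5, Finset.sum_const_zero, add_zero]
  linarith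

end Z23
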