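import Pool.Agent.Lib.DIM3.Disc2

/-!
# `1, ζ(2), ζ(3)` are linearly independent over `ℚ`: definitions and module statements

Setting: `R(v) = ∏_{w < N} (v - w)^(-3)`, poles at `0, ..., N-1`;
`F(G) = ∑_{v ≥ N + s} R(v) G(v) = A(G) + λ_2(G) ζ(2) + λ_3(G) ζ(3)`.
If `ζ(3) = z + b ζ(2)` then `F = FA + ζ(2) FB`, `FA = A + z λ_3`, `FB = λ_2 + b λ_3`, and the
two-block determinant `hank2 FA FB K` is rational.  Parameters: `N = 7 p`, `s = p`, `K = 6 p`.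
-/

open Polynomial Finset Z579 DIM3

namespace Z23

/-! ## the functionals -/

/-- expansion of `(v-u)^3 R(v)` at `v = u + x` -/
noncomputable def base (N u : ℕ) : PowerSeries ℚ :=
  ((∏ w ∈ (Finset.range N).erase u, lin ((u : ℤ) - w))⁻¹) ^ 3

/-- coefficient of `(v-u)^(-i)` in the partial fraction expansion of `R(v) G(v)` -/
noncomputable def Ac (N u i : ℕ) : ℚ[X] →ₗ[ℚ] ℚ :=
  (PowerSeries.coeff (R := ℚ) (3 - i)) ∘ₗ (LinearMap.mulLeft ℚ (base N u)) ∘ₗ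
    (Polynomial.aeval (lin (u : ℤ))).toLinearMap

lemma Ac_apply (N u i : ℕ) (G : ℚ[X]) :
    Ac N u i G = PowerSeries.coeff (3 - i) (base N u * Polynomial.aeval (lin (u : ℤ)) G) := rfl

/-- the linear functional with weights `ω u i` -/
noncomputable def Lf (N : ℕ) (ω : ℕ → ℕ → ℚ) : ℚ[X] →ₗ[ℚ] ℚ :=
  ∑ u ∈ Finset.range N, ∑ i ∈ Finset.Icc 1 3, ω u i • Ac N u i

lemma Lf_apply (N : ℕ) (ω : ℕ → ℕ → ℚ) (G : ℚ[X]) :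
    Lf N ω G = ∑ u ∈ Finset.range N, ∑ i ∈ Finset.Icc 1 3, ω u i * Ac N u i G := by
  simp [Lf, LinearMap.sum_apply]

/-- weights of `A + z λ_3` -/
def wtA (N s : ℕ) (z : ℚ) (u i : ℕ) : ℚ := (if i = 3 then z else 0) - Hs i (N + s - 1 - u)

/-- weights of `λ_2 + b λ_3` -/
def wtB (b : ℚ) (_ i : ℕ) : ℚ := if i = 2 then 1 else if i = 3 then b else 0

/-- `A + z λ_3` -/
noncomputable def FA (N s : ℕ) (z : ℚ) : ℚ[X] →ₗ[ℚ] ℚ := Lf N (wtA N s z)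

/-- `λ_2 + b λ_3` -/
noncomputable def FB (N : ℕ) (b : ℚ) : ℚ[X] →ₗ[ℚ] ℚ := Lf N (wtB b)

/-- the rational function on the real line -/
noncomputable def Rr (N : ℕ) (v : ℝ) : ℝ := 1 / (∏ w ∈ Finset.range N, (v - (w : ℝ))) ^ 3

/-! ## the real identity -/

/-- the determinant is the real determinant of `F(v^n) = ∑_{v ≥ N+s} R(v) v^n` and of the
`FB(v^n)` -/
def RealId : Prop := ∀ (N s K : ℕ) (z b : ℚ), zr 3 = z + b * zr 2 → 1 ≤ N → K ≤ N →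
  ((hank2 (FA N s z) (FB N b) K : ℚ) : ℝ) =
    det2 (fun n => ∑' t : ℕ, Rr N ((N : ℝ) + s + t) * ((N : ℝ) + s + t) ^ n)
      (fun n => ((FB N b (X ^ n) : ℚ) : ℝ)) K

/-! ## the archimedean bound -/

/-- parameters: `p = h k + 1`, `N = 7 p`, `s = p`, `K = 6 p`, `E = 6 N K - 3 K^2 ~ 144 h^2 k^2` -/
def ArchTot (h : ℕ) (A0 : ℝ) : Prop := ∀ b : ℚ, ∀ δ : ℝ, 0 < δ → ∃ k0 : ℕ, ∀ k : ℕ, k0 ≤ k →
  |det2 (fun n => ∑' t : ℕ, Rr (7 * (h * k + 1)) (((7 * (h * k + 1) : ℕ) : ℝ) +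
        ((h * k + 1 : ℕ) : ℝ) + t) *
        (((7 * (h * k + 1) : ℕ) : ℝ) + ((h * k + 1 : ℕ) : ℝ) + t) ^ n)
      (fun n => ((FB (7 * (h * k + 1)) b (X ^ n) : ℚ) : ℝ)) (6 * (h * k + 1))| ≤
    Real.exp (k ^ 2 * (-(144 * h ^ 2) * Real.log k + A0 + δ))

/-! ## `p`-adic bounds -/

/-- number of poles in the class of `c` -/
def cl (p N c : ℕ) : ℕ := ((Finset.range N).filter fun u => u % p = c).card

/-- restriction of a functional to the poles of the class `c` -/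
noncomputable def LfC (p N c : ℕ) (ω : ℕ → ℕ → ℚ) : ℚ[X] →ₗ[ℚ] ℚ :=
  ∑ u ∈ (Finset.range N).filter (fun u => u % p = c), ∑ i ∈ Finset.Icc 1 3, ω u i • Ac N u i

/-- class lemma: weights of order `-(i + κ)` -/
def ClsVG : Prop := ∀ (p N c : ℕ) (ω : ℕ → ℕ → ℚ) (κ : ℝ), p.Prime → c < p → N ≤ p ^ 2 →
  (∀ u < N, u % p = c → ∀ i : ℕ, 1 ≤ i → i ≤ 3 → VG p (-((i : ℝ) + κ)) (ω u i)) →
  ∀ (n : ℕ) (G : ℚ[X]), IPoly p G →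
  VG p ((n : ℝ) - 3 * cl p N c - κ) (LfC p N c ω ((X - Polynomial.C (c : ℚ)) ^ n * G))

/-- one pole with integral weights -/
def ClsOne : Prop := ∀ (p N c : ℕ) (ω : ℕ → ℕ → ℚ), p.Prime → c < p → N ≤ c + p →
  (∀ u < N, u % p = c → ∀ i : ℕ, 1 ≤ i → i ≤ 3 → VG p 0 (ω u i)) →
  ∀ G : ℚ[X], IPoly p G → VG p 0 (LfC p N c ω G)

/-- small primes -/
def PSmall : Prop := ∃ C : ℝ, 0 ≤ C ∧ ∀ (p N K : ℕ) (ωA ωB : ℕ → ℕ → ℚ),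
  p.Prime → 1 ≤ N → 1 ≤ K →
  (∀ u < N, ∀ i : ℕ, 1 ≤ i → i ≤ 3 →
    VG p (-((i : ℝ) * (Nat.log p (4 * (N + K))))) (ωA u i)) →
  (∀ u < N, ∀ i : ℕ, 1 ≤ i → i ≤ 3 →
    VG p (-((i : ℝ) * (Nat.log p (4 * (N + K))))) (ωB u i)) →
  VG p (-((6 * N * K - 3 * (K : ℝ) ^ 2) / (p - 1) + C * (1 + Nat.log p (4 * (N + K))) * K))
    (hank2 (Lf N ωA) (Lf N ωB) K)

/-- all classes (used for `2 p ≤ N`) -/
def PMid : Prop := ∀ (p N K : ℕ) (ωA ωB : ℕ → ℕ → ℚ),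
  p.Prime → p ≤ N → N ≤ p ^ 2 →
  (∀ u < N, ∀ i : ℕ, 1 ≤ i → i ≤ 3 → VG p (-(i : ℝ)) (ωA u i)) →
  (∀ u < N, ∀ i : ℕ, 1 ≤ i → i ≤ 3 → VG p 0 (ωB u i)) → (∀ u < N, ωB u 1 = 0) →
  VG p (-((6 * N * K - 3 * (K : ℝ) ^ 2) / p +
    3 * (((N % p : ℕ) : ℝ) * (p - (N % p : ℕ)) / p))) (hank2 (Lf N ωA) (Lf N ωB) K)

/-- two poles, no gap point: `FB = FA ∘ (p S)` up to a `p`-integral functional -/
def TwoRel : Prop := ∀ (p N s c : ℕ) (z b : ℚ), p.Prime → p ≠ 2 → c < p → c + p < N →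
  N ≤ c + 2 * p → N + s ≤ c + 2 * p → VG p 0 z → VG p 0 b →
  ∃ S : ℚ[X], IPoly p S ∧ ∀ G : ℚ[X], IPoly p G →
    VG p 0 (LfC p N c (wtB b) G - p * LfC p N c (wtA N s z) (S * G))

/-- one pole and one gap point `c + p`: `FA` is the evaluation at the gap point -/
def GapRel : Prop := ∀ (p N s c : ℕ) (z : ℚ), p.Prime → c < p → c < N → N ≤ c + p →
  c + p < N + s → N + s ≤ c + 2 * p → VG p 0 z →
  ∃ κ : ℚ, VG p (-3) κ ∧ ∀ G : ℚ[X], IPoly p G →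
    VG p 0 (LfC p N c (wtA N s z) G - κ * G.eval (((c + p : ℕ) : ℤ) : ℚ))

/-- the determinant bound from local functionals: classes `J2` (two poles, relation with `S c`),
`J3` (two independent functionals), `J1` (rank one) -/
def Core : Prop := ∀ (p : ℕ), p.Prime → ∀ (J1 J2 J3 : Finset ℤ) (x g : ℤ → ℤ) (e ρ : ℤ → ℕ)
  (E l : ℕ), l ≤ 1 → (∀ c ∈ J2 ∪ J3, e c ≤ E) → (∀ c ∈ J2 ∪ J3, ρ c + l ≤ e c) →
  (∀ c ∈ J3, ρ c + 2 ≤ e c) → ∀ (LA LB : ℚ[X] →ₗ[ℚ] ℚ) (F H : ℤ → ℚ[X] →ₗ[ℚ] ℚ)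
  (S : ℤ → ℚ[X]) (κ : ℤ → ℚ), (∀ c ∈ J2, IPoly p (S c)) → (∀ c ∈ J1, VG p (-3) (κ c)) →
  (∀ G, IPoly p G → VG p 0 (LA G - (∑ c ∈ J2 ∪ J3, F c G +
    ∑ c ∈ J1, κ c * G.eval (g c : ℚ)))) →
  (∀ G, IPoly p G → VG p 0 (LB G - (∑ c ∈ J2, p * F c (S c * G) + ∑ c ∈ J3, H c G))) →
  (∀ c ∈ J2 ∪ J3, ∀ (n : ℕ) (G : ℚ[X]), IPoly p G →
    VG p ((n : ℝ) - e c) (F c ((X - Polynomial.C (x c : ℚ)) ^ n * G))) →
  (∀ c ∈ J3, ∀ (n : ℕ) (G : ℚ[X]), IPoly p G →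
    VG p ((n : ℝ) - e c + 2) (H c ((X - Polynomial.C (x c : ℚ)) ^ n * G))) → ∀ K : ℕ,
  VG p (-(l * K + ∑ c ∈ J2 ∪ J3, (ρ c : ℝ) * (ρ c + 1) / 2 +
    ∑ c ∈ J2 ∪ J3, ((e c - ρ c - l : ℕ) : ℝ) * ((e c - ρ c - l : ℕ) + 1) / 2 +
    ∑ c ∈ J3, ((e c - ρ c - 2 : ℕ) : ℝ) * ((e c - ρ c - 2 : ℕ) + 1) / 2 +
    (3 - l) * (J1.card : ℝ))) (hank2 LA LB K)

/-- `N/2 < p ≤ N`, first bound (one level of the first block costs 1) -/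
def PTwo1 : Prop := ∀ (p N s K : ℕ) (z b : ℚ),
  p.Prime → p ≠ 2 → N < 2 * p → p ≤ N → s < p → VG p 0 z → VG p 0 b →
  VG p (-(K + 9 * ((N : ℝ) - p) + 2 * s)) (hank2 (FA N s z) (FB N b) K)

/-- `N/2 < p ≤ N`, second bound -/
def PTwo2 : Prop := ∀ (p N s K : ℕ) (z b : ℚ),
  p.Prime → p ≠ 2 → N < 2 * p → p ≤ N → s < p → VG p 0 z → VG p 0 b →
  VG p (-(12 * ((N : ℝ) - p) + 3 * s)) (hank2 (FA N s z) (FB N b) K)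

/-- `N ≤ p` -/
def PBig : Prop := ∀ (p N s K : ℕ) (z b : ℚ),
  p.Prime → p ≠ 2 → N ≤ p → N + s ≤ 2 * p → VG p 0 z → VG p 0 b →
  VG p (-(3 * ((N + s - p : ℕ) : ℝ))) (hank2 (FA N s z) (FB N b) K)

/-! ## nonvanishing at the prime `p` with `N = 7 p`, `s = p`, `K = 6 p` -/

/-- local coordinate `x` at the pole `ξ = j` (`ξ = j + x`): `∏_{i < 7, i ≠ j} (ξ - i)^(-3)` -/
noncomputable def locR (j : ℕ) : PowerSeries ℚ :=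
  ((∏ i ∈ (Finset.range 7).erase j, lin ((j : ℤ) - i))⁻¹) ^ 3

/-- the germ of `F` at `ξ = j`: `∑_{j < i ≤ 7} 1/(ξ - i)` -/
noncomputable def locF (j : ℕ) : PowerSeries ℚ :=
  ∑ i ∈ Finset.Ioc j 7, (lin ((j : ℤ) - i))⁻¹

/-- local moments of `F` -/
noncomputable def fN (n : ℕ) : ℚ := ∑ j ∈ Finset.range 7,
  PowerSeries.coeff 2 (locR j * locF j * lin (j : ℤ) ^ n)

/-- local moments of `λ_2` -/
noncomputable def gN (n : ℕ) : ℚ := ∑ j ∈ Finset.range 7,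
  PowerSeries.coeff 2 (locR j * PowerSeries.X * lin (j : ℤ) ^ n)

/-- the local determinant does not vanish -/
def LocalDet : Prop := det2 fN gN 6 ≠ 0

/-- nonvanishing -/
def NonVan : Prop := LocalDet → ∀ z b : ℚ, ∃ p₀ : ℕ, ∀ p : ℕ, p.Prime → p₀ ≤ p →
  hank2 (FA (7 * p) p z) (FB (7 * p) b) (6 * p) ≠ 0

/-! ## the sum over the primes -/

/-- the `p`-adic total -/
def PSum (h : ℕ) (P0 : ℝ) : Prop := ∀ C δ : ℝ, 0 ≤ C → 0 < δ → ∃ k0 : ℕ, ∀ k : ℕ, k0 ≤ k →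
  ∀ (N s K : ℕ), N = 7 * (h * k + 1) → s = h * k + 1 → K = 6 * (h * k + 1) → ∀ β : ℕ → ℝ,
  (∀ p : ℕ, p.Prime → p ^ 2 < N + s →
    β p ≤ (6 * N * K - 3 * (K : ℝ) ^ 2) / (p - 1) + C * (1 + Nat.log p (4 * (N + K))) * K) →
  (∀ p : ℕ, p.Prime → N + s ≤ p ^ 2 → 2 * p ≤ N →
    β p ≤ (6 * N * K - 3 * (K : ℝ) ^ 2) / p +
      3 * (((N % p : ℕ) : ℝ) * (p - (N % p : ℕ)) / p)) →
  (∀ p : ℕ, p.Prime → N < 2 * p → p ≤ N → β p ≤ K + 9 * ((N : ℝ) - p) + 2 * s) →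
  (∀ p : ℕ, p.Prime → N < 2 * p → p ≤ N → β p ≤ 12 * ((N : ℝ) - p) + 3 * s) →
  (∀ p : ℕ, p.Prime → N < p → p < N + s → β p ≤ 3 * ((N : ℝ) + s - p)) →
  ∑ p ∈ (Finset.Icc 1 (N + s)).filter Nat.Prime, β p * Real.log p ≤
    k ^ 2 * (144 * h ^ 2 * Real.log k + P0 + δ)

/-! ## the theorem -/

/-- `ζ(3)` is not in `ℚ + ℚ ζ(2)` -/
def Main : Prop := ¬ ∃ z b : ℚ, zr 3 = z + b * zr 2

end Z23
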