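import Pool.Agent.Lib.Z23.Cls

/-!
# Z23, module GapRel (about 150 lines): one pole and one gap point

PROOF.  The class of `c` has the single pole `u = c` (`N ≤ c + p`), `n = N + s - 1 - c` satisfies
`p ≤ n < 2 p`.  So `Hs i n = p^(-i) + (integral)` (the only term of the sum with denominator
divisible by `p` is `1/p^i`), and `wtA N s z c i = -p^(-i) + (integral)`.
`base N c` and `f := base N c * aeval (lin c) G` have integral coefficients (all `w ≠ c`, `w < N`
are not congruent to `c`; `WA` with slope 0, or `Disc2.WA_inv_unit`).  Hence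
`LfC .. G = -∑_{i=1}^{3} p^(-i) f_(3-i) + (integral) = -p^(-3) (f_0 + f_1 p + f_2 p^2) + ...`.
Let `D = ∏_{w ≠ c} (X + C (c - w))^3 ∈ ℤ[X]` (polynomial in `x`) and `G_c(x) = G(c + x)`
(`Polynomial.comp`, integral coefficients).  As power series `D * f = G_c`.  Let `T = f_0 + f_1 X +
f_2 X^2` (polynomial).  Then `D * T - G_c` is an integral polynomial all of whose coefficients of
degree `≤ 2` vanish, so it is `X^3 * Q`, `Q` an `IPoly`; evaluating at `p`:
`D(p) T(p) = G(c + p) + p^3 Q(p)`.  `D(p) = ∏_{w ≠ c} (c + p - w)^3` is a unit at `p`.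
So with `κ := -p^(-3) / D(p)`: `LfC .. G - κ G(c+p) = -p^(-3)(T(p) - G(c+p)/D(p)) + (integral)`
`= -Q(p)/D(p) + (integral)`.  `VG p (-3) κ` is clear.
-/

open Polynomial Finset Z579 DIM3

namespace Z23

section aux

variable {p : ℕ} [hp : Fact p.Prime]

private lemma gr_eval {Q : ℚ[X]} (hQ : IPoly p Q) (x : ℤ) : VG p 0 (Q.eval (x : ℚ)) := by
  rw [Polynomial.eval_eq_sum_range]
  refine VG.sum fun i _ => ?_
  have h := (hQ i).mul ((VG.int (p := p) x).pow i)
  simpa using h

private lemma gr_WA_aeval (u : ℤ) {G : ℚ[X]} (hG : IPoly p G) :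
    WA p 0 0 (Polynomial.aeval (lin u) G) := by
  rw [Polynomial.aeval_eq_sum_range]
  intro j
  rw [map_sum]
  refine VG.sum fun i _ => ?_
  rw [PowerSeries.coeff_smul, smul_eq_mul]
  have h1 := (WA.lin0 (p := p) (le_refl (0 : ℝ)) u).pow i
  have h2 := (hG i).mul (h1 j)
  refine h2.mono (le_of_eq ?_)
  ring

/-- the harmonic sums beyond `p` -/
private lemma gr_Hs {i n : ℕ} (h1 : p ≤ n) (h2 : n < 2 * p) :
    VG p 0 (Hs i n - ((p : ℚ) ^ i)⁻¹) := by
  have hp0 : 0 < p := hp.out.pos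
  have hmem : p - 1 ∈ Finset.range n := Finset.mem_range.2 (by omega)
  have hcast : (((p - 1 : ℕ) : ℚ) + 1) = p := by
    have : p - 1 + 1 = p := by omega
    exact_mod_cast this
  rw [Hs, ← Finset.add_sum_erase _ _ hmem, hcast]
  have : (1 / (p : ℚ) ^ i + ∑ x ∈ (Finset.range n).erase (p - 1), 1 / ((x : ℚ) + 1) ^ i) -
      ((p : ℚ) ^ i)⁻¹ = ∑ x ∈ (Finset.range n).erase (p - 1), 1 / ((x : ℚ) + 1) ^ i := by
    rw [one_div]; ring
  rw [this]
  refine VG.sum fun x hx => ?_
  rw [Finset.mem_erase, Finset.mem_range] at hx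
  have hnd : ¬ (p : ℤ) ∣ ((x + 1 : ℕ) : ℤ) := by
    intro hd
    have hd' : p ∣ x + 1 := by exact_mod_cast hd
    obtain ⟨k, hk⟩ := hd'
    have hk2 : k < 2 := by
      by_contra hge
      have : 2 ≤ k := by omega
      have := Nat.mul_le_mul_left p this
      omega
    interval_cases k
    · omega
    · omega
  have h := (VG_inv_unit hnd).pow i
  rw [mul_zero] at h
  have he : 1 / ((x : ℚ) + 1) ^ i = ((((x + 1 : ℕ) : ℤ) : ℚ)⁻¹) ^ i := by
    push_cast
    rw [one_div, inv_pow]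
  rw [he]
  exact h

private lemma gr_ndvd {N c w : ℕ} (hc : c < p) (hN : N ≤ c + p) (hw : w < N) (hne : w ≠ c) :
    ¬ (p : ℤ) ∣ (c : ℤ) - w := by
  intro hd
  have h1 : ((c : ℤ) - w).natAbs < p := by omega
  have h2 : (p : ℤ) ∣ (((c : ℤ) - w).natAbs : ℤ) := (Int.dvd_natAbs).2 hd
  have h3 : p ∣ ((c : ℤ) - w).natAbs := by exact_mod_cast h2
  have h4 := Nat.eq_zero_of_dvd_of_lt h3 h1
  omega

/-- the product of the factors -/
private noncomputable def grP (N c : ℕ) : PowerSeries ℚ :=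
  ∏ w ∈ (Finset.range N).erase c, lin ((c : ℤ) - w)

private lemma grP_cc {N c : ℕ} : PowerSeries.constantCoeff (grP N c) ≠ 0 := by
  rw [grP, map_prod]
  refine Finset.prod_ne_zero_iff.2 fun w hw => ?_
  rw [constantCoeff_lin']
  rw [Finset.mem_erase] at hw
  have : (c : ℤ) - w ≠ 0 := by
    intro h
    apply hw.1
    omega
  exact_mod_cast this

private lemma gr_base_WA {N c : ℕ} (hc : c < p) (hN : N ≤ c + p) : WA p 0 0 (base N c) := by
  have h2 : WA p 0 (∑ w ∈ (Finset.range N).erase c, (0 : ℝ))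
      (∏ w ∈ (Finset.range N).erase c, lin ((c : ℤ) - w))⁻¹ := by
    rw [PS_prod_inv]
    refine WA.prod fun w hw => ?_
    rw [Finset.mem_erase, Finset.mem_range] at hw
    have hnd := gr_ndvd hc hN hw.2 hw.1
    have hv : padicValRat p (((c : ℤ) - w : ℤ) : ℚ) = 0 := by
      rw [padicValRat.of_int, padicValInt.eq_zero_of_not_dvd hnd]; rfl
    have := WA.lin_inv (p := p) (K := 0) (not_dvd_ne hnd) (by rw [hv]; simp)
    rw [hv] at this
    simpa using this
  rw [base]
  refine (h2.pow 3).mono (le_of_eq ?_)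
  simp

/-- the polynomial `D` -/
private noncomputable def grD (N c : ℕ) : ℚ[X] :=
  (∏ w ∈ (Finset.range N).erase c, (X + Polynomial.C (((c : ℤ) - w : ℤ) : ℚ))) ^ 3

private lemma grD_coe (N c : ℕ) : ((grD N c : ℚ[X]) : PowerSeries ℚ) = grP N c ^ 3 := by
  rw [grD, grP, Polynomial.coe_pow]
  congr 1
  have h := map_prod (Polynomial.coeToPowerSeries.ringHom (R := ℚ))
    (fun w : ℕ => (X + Polynomial.C (((c : ℤ) - w : ℤ) : ℚ))) ((Finset.range N).erase c)
  simp only [Polynomial.coeToPowerSeries.ringHom_apply] at h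
  rw [h]
  refine Finset.prod_congr rfl fun w _ => ?_
  rw [Polynomial.coe_add, Polynomial.coe_X, Polynomial.coe_C, lin]

private lemma grD_IPoly (N c : ℕ) : IPoly p (grD N c) := by
  rw [grD]
  exact (IPoly.prod fun w _ => IPoly.var.add (IPoly.C (VG.int _))).pow 3

/-- the integer `D(p)` -/
private def grd (p N c : ℕ) : ℤ := (∏ w ∈ (Finset.range N).erase c, ((p : ℤ) + ((c : ℤ) - w))) ^ 3

private lemma grd_ndvd {N c : ℕ} (hc : c < p) (hN : N ≤ c + p) : ¬ (p : ℤ) ∣ grd p N c := by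
  intro hd
  have hpp : Prime (p : ℤ) := Nat.prime_iff_prime_int.1 hp.out
  have h1 := hpp.dvd_of_dvd_pow hd
  obtain ⟨w, hw, hw2⟩ := (hpp.dvd_finsetProd_iff _).1 h1
  rw [Finset.mem_erase, Finset.mem_range] at hw
  exact gr_ndvd hc hN hw.2 hw.1 ((dvd_add_right (dvd_refl _)).1 hw2)

private lemma grD_eval (N c : ℕ) : (grD N c).eval ((p : ℤ) : ℚ) = (grd p N c : ℚ) := by
  rw [grD, grd, Polynomial.eval_pow, Polynomial.eval_prod]
  push_cast
  congr 1
  refine Finset.prod_congr rfl fun w _ => ?_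
  simp

private lemma gr_aeval (c : ℕ) (G : ℚ[X]) :
    ((G.comp (X + Polynomial.C (c : ℚ)) : ℚ[X]) : PowerSeries ℚ) =
      Polynomial.aeval (lin (c : ℤ)) G := by
  induction G using Polynomial.induction_on' with
  | add f g hf hg => rw [Polynomial.add_comp, Polynomial.coe_add, hf, hg, map_add]
  | monomial n x =>
    rw [← Polynomial.C_mul_X_pow_eq_monomial, Polynomial.mul_comp, Polynomial.C_comp,
      Polynomial.pow_comp, Polynomial.X_comp, Polynomial.coe_mul, Polynomial.coe_pow,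
      Polynomial.coe_add, Polynomial.coe_X, Polynomial.coe_C, Polynomial.coe_C, map_mul, map_pow,
      Polynomial.aeval_X, Polynomial.aeval_C, lin]
    rfl

private lemma gr_comp_IPoly (c : ℕ) {G : ℚ[X]} (hG : IPoly p G) :
    IPoly p (G.comp (X + Polynomial.C (c : ℚ))) := by
  rw [Polynomial.comp, Polynomial.eval₂_eq_sum_range]
  intro n
  rw [Polynomial.finsetSum_coeff]
  refine VG.sum fun i _ => ?_
  have h2 : IPoly p (X + Polynomial.C (c : ℚ)) := IPoly.var.add (IPoly.C (VG.nat _))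
  exact ((IPoly.C (hG i)).mul (h2.pow i)) n

/-- the truncated expansion -/
private noncomputable def grT (f : PowerSeries ℚ) : ℚ[X] :=
  Polynomial.C (PowerSeries.coeff 0 f) + Polynomial.C (PowerSeries.coeff 1 f) * X +
    Polynomial.C (PowerSeries.coeff 2 f) * X ^ 2

private lemma grT_dvd (f : PowerSeries ℚ) : PowerSeries.X ^ 3 ∣ ((grT f : ℚ[X]) : PowerSeries ℚ) - f := by
  rw [PowerSeries.X_pow_dvd_iff]
  intro m hm
  rw [map_sub, Polynomial.coeff_coe, grT]
  interval_cases m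
  · simp
  · simp [Polynomial.coeff_X, Polynomial.coeff_C]
  · simp [Polynomial.coeff_X, Polynomial.coeff_C]

private lemma grT_IPoly {f : PowerSeries ℚ} (hf : WA p 0 0 f) : IPoly p (grT f) := by
  have h : ∀ j, VG p 0 (PowerSeries.coeff j f) := fun j => by simpa using hf j
  rw [grT]
  exact ((IPoly.C (h 0)).add ((IPoly.C (h 1)).mul IPoly.var)).add
    ((IPoly.C (h 2)).mul (IPoly.var.pow 2))

/-- the key identity -/
private lemma gr_key {N c : ℕ} (hc : c < p) (hN : N ≤ c + p) {G : ℚ[X]} (hG : IPoly p G) :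
    ∃ Q : ℚ[X], IPoly p Q ∧
      grD N c * grT (base N c * Polynomial.aeval (lin (c : ℤ)) G) -
        G.comp (X + Polynomial.C (c : ℚ)) = X ^ 3 * Q := by
  set f := base N c * Polynomial.aeval (lin (c : ℤ)) G with hf
  have hWf : WA p 0 0 f := by
    have := (gr_base_WA hc hN).mul (gr_WA_aeval (c : ℤ) hG)
    rwa [add_zero] at this
  have h1 : grP N c ^ 3 * f = Polynomial.aeval (lin (c : ℤ)) G := by
    have h2 : grP N c * (grP N c)⁻¹ = 1 := PowerSeries.mul_inv_cancel _ grP_cc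
    rw [hf, base]
    change grP N c ^ 3 * (((grP N c)⁻¹) ^ 3 * _) = _
    rw [← mul_assoc, ← mul_pow, h2, one_pow, one_mul]
  have h3 : (PowerSeries.X : PowerSeries ℚ) ^ 3 ∣
      ((grD N c * grT f - G.comp (X + Polynomial.C (c : ℚ)) : ℚ[X]) : PowerSeries ℚ) := by
    rw [Polynomial.coe_sub, Polynomial.coe_mul, grD_coe, gr_aeval, ← h1, ← mul_sub]
    exact (grT_dvd f).mul_left _
  have h4 : X ^ 3 ∣ grD N c * grT f - G.comp (X + Polynomial.C (c : ℚ)) := by
    rw [Polynomial.X_pow_dvd_iff]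
    intro m hm
    have := PowerSeries.X_pow_dvd_iff.1 h3 m hm
    rwa [Polynomial.coeff_coe] at this
  obtain ⟨Q, hQ⟩ := h4
  refine ⟨Q, fun n => ?_, hQ⟩
  have h5 : IPoly p (grD N c * grT f - G.comp (X + Polynomial.C (c : ℚ))) :=
    ((grD_IPoly N c).mul (grT_IPoly hWf)).sub (gr_comp_IPoly c hG)
  have h6 := h5 (n + 3)
  rw [hQ, Polynomial.coeff_X_pow_mul] at h6
  exact h6

private lemma gr_filter {N c : ℕ} (hc : c < p) (hcN : c < N) (hN : N ≤ c + p) :
    (Finset.range N).filter (fun u => u % p = c) = {c} := by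
  ext u
  rw [Finset.mem_filter, Finset.mem_range, Finset.mem_singleton]
  constructor
  · rintro ⟨h1, h2⟩
    have h3 := Nat.div_add_mod u p
    rw [h2] at h3
    have h4 : u / p < 1 := by
      by_contra hge
      have h5 : 1 ≤ u / p := by omega
      have := Nat.mul_le_mul_left p h5
      omega
    have h5 : u / p = 0 := Nat.lt_one_iff.1 h4
    rw [h5] at h3
    omega
  · rintro rfl
    exact ⟨hcN, Nat.mod_eq_of_lt hc⟩

end aux

theorem gapRel : GapRel := by
  intro p N s c z hp hc hcN hN h1 h2 hz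
  have : Fact p.Prime := ⟨hp⟩
  have hp0 : (p : ℚ) ≠ 0 := by exact_mod_cast hp.ne_zero
  have hd := grd_ndvd (p := p) hc hN
  have hd0 : (grd p N c : ℚ) ≠ 0 := by exact_mod_cast not_dvd_ne hd
  refine ⟨-((p : ℚ) ^ 3)⁻¹ * (grd p N c : ℚ)⁻¹, ?_, ?_⟩
  · have h3 : VG p (-3) (((p : ℚ) ^ 3)⁻¹) := by
      right
      rw [padicValRat.inv, padicValRat.pow, padicValRat.self hp.one_lt]
      push_cast
      norm_num
    have h4 := h3.neg.mul (VG_inv_unit hd)
    rwa [add_zero] at h4
  · intro G hG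
    obtain ⟨Q, hQ, hQe⟩ := gr_key hc hN hG
    set f := base N c * Polynomial.aeval (lin (c : ℤ)) G with hf
    have hWf : WA p 0 0 f := by
      have := (gr_base_WA hc hN).mul (gr_WA_aeval (c : ℤ) hG)
      rwa [add_zero] at this
    have hfj : ∀ j, VG p 0 (PowerSeries.coeff j f) := fun j => by simpa using hWf j
    have he := congrArg (fun P : ℚ[X] => P.eval ((p : ℤ) : ℚ)) hQe
    simp only [Polynomial.eval_sub, Polynomial.eval_mul, Polynomial.eval_comp, Polynomial.eval_add,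
      Polynomial.eval_X, Polynomial.eval_C, Polynomial.eval_pow, grD_eval, grT] at he
    have hn1 : p ≤ N + s - 1 - c := by omega
    have hn2 : N + s - 1 - c < 2 * p := by omega
    have hr : ∀ i, VG p 0 (wtA N s z c i + ((p : ℚ) ^ i)⁻¹) := fun i => by
      have h3 := gr_Hs (p := p) (i := i) hn1 hn2
      have h4 : VG p 0 (if i = 3 then z else 0) := by
        split_ifs
        · exact hz
        · exact VG.zero' _ _
      have h5 := h4.sub h3
      have h6 : wtA N s z c i + ((p : ℚ) ^ i)⁻¹ =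
          (if i = 3 then z else 0) - (Hs i (N + s - 1 - c) - ((p : ℚ) ^ i)⁻¹) := by
        rw [wtA]; ring
      rw [h6]
      exact h5
    have hA : ∀ i, Ac N c i G = PowerSeries.coeff (3 - i) f := fun i => rfl
    have hL : LfC p N c (wtA N s z) G = wtA N s z c 1 * PowerSeries.coeff 2 f +
        wtA N s z c 2 * PowerSeries.coeff 1 f + wtA N s z c 3 * PowerSeries.coeff 0 f := by
      rw [LfC, gr_filter hc hcN hN, Finset.sum_singleton, LinearMap.sum_apply]
      rw [show Finset.Icc 1 3 = {1, 2, 3} from rfl]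
      rw [Finset.sum_insert (by decide), Finset.sum_insert (by decide), Finset.sum_singleton]
      simp only [LinearMap.smul_apply, hA, smul_eq_mul]
      norm_num
      ring
    have hres : LfC p N c (wtA N s z) G - -((p : ℚ) ^ 3)⁻¹ * (grd p N c : ℚ)⁻¹ *
        G.eval (((c + p : ℕ) : ℤ) : ℚ) =
        ((wtA N s z c 1 + ((p : ℚ) ^ 1)⁻¹) * PowerSeries.coeff 2 f +
          (wtA N s z c 2 + ((p : ℚ) ^ 2)⁻¹) * PowerSeries.coeff 1 f +
          (wtA N s z c 3 + ((p : ℚ) ^ 3)⁻¹) * PowerSeries.coeff 0 f) -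
          (grd p N c : ℚ)⁻¹ * Q.eval ((p : ℤ) : ℚ) := by
      have hG2 : G.eval (((c + p : ℕ) : ℤ) : ℚ) = G.eval (((p : ℤ) : ℚ) + (c : ℚ)) := by
        congr 1
        push_cast
        ring
      have hG3 : G.eval (((p : ℤ) : ℚ) + (c : ℚ)) = (grd p N c : ℚ) *
          (PowerSeries.coeff 0 f + PowerSeries.coeff 1 f * ((p : ℤ) : ℚ) +
            PowerSeries.coeff 2 f * ((p : ℤ) : ℚ) ^ 2) -
          ((p : ℤ) : ℚ) ^ 3 * Q.eval ((p : ℤ) : ℚ) := by
        linear_combination -he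
      rw [hL, hG2, hG3]
      rw [Int.cast_natCast]
      field_simp
      ring
    rw [hres]
    have e1 := (hr 1).mul (hfj 2)
    have e2 := (hr 2).mul (hfj 1)
    have e3 := (hr 3).mul (hfj 0)
    have e4 := (VG_inv_unit hd).mul (gr_eval hQ (p : ℤ))
    rw [add_zero] at e1 e2 e3 e4
    exact ((e1.add e2).add e3).sub e4

end Z23
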