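import Pool.Agent.Lib.Z23.Defs

/-!
# Z23, module LocalDet (about 350 lines): the local `12 × 12` determinant does not vanish

PROOF (template: DIM3/LocalDet.lean, which works modulo 5 with ten coefficients and determinants of
size 28 and 14).  Here everything is integral at the prime `11` and the determinant is not zero
modulo `11` (checked by computer; its valuations at 11, 13, 17, 19, 23, 29, 31 are all zero, so you
may take any of these primes).  Only the coefficients of `x^0, x^1, x^2` matter.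
`locR j`, `locF j` for `j = 0, ..., 6` as lists of three residues modulo 11, moments
`fN n`, `gN n` for `n ≤ 17` modulo 11 by a kernel computation, then the determinant `12 × 12`
modulo 11 through an explicit left inverse or triangularisation as in `det2_ne_zero` of the template.
Values: `fN 0 = 935108917/172832486400000`, `fN 1 = 161254103/2633637888000`,
`gN 0 = 0`, `gN 1 = -17017/622080000`, `gN 2 = -17017/103680000`.
-/

open Polynomial Finset Z579 DIM3

namespace Z23

namespace LD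

instance fact11 : Fact (Nat.Prime 11) := ⟨by norm_num⟩

/-- `x` is `11`-integral with residue `y` -/
def Red (x : ℚ) (y : ZMod 11) : Prop :=
  ∃ a b : ℤ, (b : ZMod 11) ≠ 0 ∧ x * b = a ∧ y * b = a

lemma Red.int (n : ℤ) : Red n n := ⟨n, 1, by simp, by simp, by simp⟩

lemma Red.zero : Red 0 0 := by simpa using Red.int 0

lemma Red.one : Red 1 1 := by simpa using Red.int 1

lemma Red.add {x x' : ℚ} {y y' : ZMod 11} (h : Red x y) (h' : Red x' y') :
    Red (x + x') (y + y') := by
  obtain ⟨a, b, hb, h1, h2⟩ := h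
  obtain ⟨a', b', hb', h1', h2'⟩ := h'
  refine ⟨a * b' + a' * b, b * b', by push_cast; exact mul_ne_zero hb hb', ?_, ?_⟩
  · push_cast
    linear_combination (b' : ℚ) * h1 + (b : ℚ) * h1'
  · push_cast
    linear_combination (b' : ZMod 11) * h2 + (b : ZMod 11) * h2'

lemma Red.mul {x x' : ℚ} {y y' : ZMod 11} (h : Red x y) (h' : Red x' y') :
    Red (x * x') (y * y') := by
  obtain ⟨a, b, hb, h1, h2⟩ := h
  obtain ⟨a', b', hb', h1', h2'⟩ := h'
  refine ⟨a * a', b * b', by push_cast; exact mul_ne_zero hb hb', ?_, ?_⟩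
  · push_cast
    rw [← h1, ← h1']; ring
  · push_cast
    rw [← h2, ← h2']; ring

lemma Red.sum {ι : Type*} (s : Finset ι) {x : ι → ℚ} {y : ι → ZMod 11}
    (h : ∀ i ∈ s, Red (x i) (y i)) : Red (∑ i ∈ s, x i) (∑ i ∈ s, y i) := by
  classical
  induction s using Finset.induction_on with
  | empty => simpa using Red.zero
  | insert i s hi ih =>
    rw [Finset.sum_insert hi, Finset.sum_insert hi]
    exact (h i (Finset.mem_insert_self i s)).add (ih fun j hj => h j (Finset.mem_insert_of_mem hj))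

lemma Red.prod {ι : Type*} (s : Finset ι) {x : ι → ℚ} {y : ι → ZMod 11}
    (h : ∀ i ∈ s, Red (x i) (y i)) : Red (∏ i ∈ s, x i) (∏ i ∈ s, y i) := by
  classical
  induction s using Finset.induction_on with
  | empty => simpa using Red.one
  | insert i s hi ih =>
    rw [Finset.prod_insert hi, Finset.prod_insert hi]
    exact (h i (Finset.mem_insert_self i s)).mul (ih fun j hj => h j (Finset.mem_insert_of_mem hj))

lemma Red.det {ι : Type*} [Fintype ι] [DecidableEq ι] {M : Matrix ι ι ℚ}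
    {N : Matrix ι ι (ZMod 11)} (h : ∀ i j, Red (M i j) (N i j)) : Red M.det N.det := by
  rw [Matrix.det_apply', Matrix.det_apply']
  refine Red.sum _ fun σ _ => ?_
  refine Red.mul ?_ (Red.prod _ fun i _ => h _ _)
  have := Red.int ((Equiv.Perm.sign σ : ℤˣ) : ℤ)
  simpa using this

lemma Red.ne_zero {x : ℚ} {y : ZMod 11} (h : Red x y) (hy : y ≠ 0) : x ≠ 0 := by
  obtain ⟨a, b, hb, h1, h2⟩ := h
  rintro rfl
  rw [zero_mul] at h1
  have h3 : a = 0 := by exact_mod_cast h1.symm
  rw [h3, Int.cast_zero] at h2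
  exact (mul_ne_zero hy hb) h2

/-! ## truncated power series -/

/-- the first three coefficients of `f` have the residues `l` -/
def Rep (l : List ℕ) (f : PowerSeries ℚ) : Prop :=
  ∀ k < 3, Red (PowerSeries.coeff k f) ((l.getD k 0 : ℕ) : ZMod 11)

/-- truncated product -/
def mulT (a b : List ℕ) : List ℕ :=
  (List.range 3).map fun k => (∑ i ∈ Finset.range (k + 1), a.getD i 0 * b.getD (k - i) 0) % 11

/-- truncated sum -/
def addT (a b : List ℕ) : List ℕ :=
  (List.range 3).map fun k => (a.getD k 0 + b.getD k 0) % 11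

lemma getD_range_map (g : ℕ → ℕ) {k : ℕ} (hk : k < 3) :
    ((List.range 3).map g).getD k 0 = g k := by
  rw [List.getD_eq_getElem _ _ (by simpa using hk)]
  simp

lemma cast_mod (n : ℕ) : ((n % 11 : ℕ) : ZMod 11) = n := ZMod.natCast_mod n 11

lemma Rep.mul {a b : List ℕ} {f g : PowerSeries ℚ} (hf : Rep a f) (hg : Rep b g) :
    Rep (mulT a b) (f * g) := by
  intro k hk
  rw [mulT, getD_range_map _ hk, cast_mod, PowerSeries.coeff_mul,
    Finset.Nat.sum_antidiagonal_eq_sum_range_succ_mk]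
  push_cast
  refine Red.sum _ fun i hi => ?_
  rw [Finset.mem_range] at hi
  exact (hf i (by omega)).mul (hg (k - i) (by omega))

lemma Rep.add {a b : List ℕ} {f g : PowerSeries ℚ} (hf : Rep a f) (hg : Rep b g) :
    Rep (addT a b) (f + g) := by
  intro k hk
  rw [addT, getD_range_map _ hk, cast_mod, map_add]
  push_cast
  exact (hf k hk).add (hg k hk)

lemma rep_lin (c : ℤ) (n : ℕ) (hn : (n : ZMod 11) = (c : ZMod 11)) : Rep [n, 1] (lin c) := by
  intro k hk
  rw [lin, map_add, PowerSeries.coeff_X, PowerSeries.coeff_C]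
  match k with
  | 0 => simpa [hn] using Red.int c
  | 1 => simpa using Red.one
  | (k + 2) => simpa using Red.zero

lemma rep_one : Rep [1] (1 : PowerSeries ℚ) := by
  intro k hk
  rw [PowerSeries.coeff_one]
  match k with
  | 0 => simpa using Red.one
  | (k + 1) => simpa using Red.zero

lemma rep_zero : Rep [] (0 : PowerSeries ℚ) := by
  intro k hk
  simpa using Red.zero

lemma rep_X : Rep [0, 1] (PowerSeries.X : PowerSeries ℚ) := by
  intro k hk
  rw [PowerSeries.coeff_X]
  match k with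
  | 0 => simpa using Red.zero
  | 1 => simpa using Red.one
  | (k + 2) => simpa using Red.zero

lemma lin_inv (c : ℤ) (hc : c ≠ 0) :
    (lin c)⁻¹ = PowerSeries.mk fun k => (-1 : ℚ) ^ k / (c : ℚ) ^ (k + 1) := by
  have hc' : (c : ℚ) ≠ 0 := by exact_mod_cast hc
  symm
  apply (PowerSeries.eq_inv_iff_mul_eq_one (by simp [lin, hc'])).2
  ext k
  rw [lin, mul_add, map_add, PowerSeries.coeff_mul_C, PowerSeries.coeff_one]
  match k with
  | 0 => simp [hc']
  | (k + 1) =>
    rw [PowerSeries.coeff_succ_mul_X, PowerSeries.coeff_mk, PowerSeries.coeff_mk]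
    simp only [Nat.add_eq_zero_iff, one_ne_zero, and_false, if_false]
    field_simp
    ring

/-- the inverse modulo `11` -/
def dv (c : ℤ) : ℕ := ((c % 11) ^ 9 % 11).toNat

/-- residues of the coefficients of `(lin c)⁻¹` -/
def invL (c : ℤ) : List ℕ := (List.range 3).map fun k => (10 ^ k * dv c ^ (k + 1)) % 11

lemma rep_inv (c : ℤ) (hd : (c : ZMod 11) * dv c = 1) : Rep (invL c) ((lin c)⁻¹) := by
  have hc5 : (c : ZMod 11) ≠ 0 := left_ne_zero_of_mul_eq_one hd
  have hc : c ≠ 0 := by
    rintro rfl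
    exact hc5 (by simp)
  have hc' : (c : ℚ) ≠ 0 := by exact_mod_cast hc
  have h4 : ((10 : ℕ) : ZMod 11) = -1 := by decide
  intro k hk
  rw [invL, getD_range_map _ hk, cast_mod, lin_inv c hc, PowerSeries.coeff_mk]
  refine ⟨(-1) ^ k, c ^ (k + 1), ?_, ?_, ?_⟩
  · push_cast
    exact pow_ne_zero _ hc5
  · push_cast
    field_simp
  · rw [Nat.cast_mul, Nat.cast_pow, h4]
    push_cast
    have : (c : ZMod 11) ^ (k + 1) * (dv c : ZMod 11) ^ (k + 1) = 1 := by
      rw [← mul_pow, hd, one_pow]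
    linear_combination (-1 : ZMod 11) ^ k * this

/-- powers -/
def powL (l : List ℕ) : ℕ → List ℕ
  | 0 => [1]
  | n + 1 => mulT (powL l n) l

lemma rep_pow {l : List ℕ} {f : PowerSeries ℚ} (h : Rep l f) (n : ℕ) :
    Rep (powL l n) (f ^ n) := by
  induction n with
  | zero => simpa [powL] using rep_one
  | succ n ih => rw [powL, pow_succ]; exact ih.mul h

/-- residues of the inverse of a product of factors -/
def pI (l : List ℤ) : List ℕ := l.foldr (fun c m => mulT m (invL c)) [1]

lemma rep_pI (l : List ℤ) (hl : ∀ c ∈ l, (c : ZMod 11) * dv c = 1) :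
    Rep (pI l) (((l.map lin).prod)⁻¹) := by
  induction l with
  | nil =>
    have : ((1 : PowerSeries ℚ))⁻¹ = 1 := by
      symm
      apply (PowerSeries.eq_inv_iff_mul_eq_one (by simp)).2
      rw [one_mul]
    simp only [pI, List.foldr_nil, List.map_nil, List.prod_nil, this]
    exact rep_one
  | cons c l ih =>
    have h1 := rep_inv c (hl c (by simp))
    have h2 := ih fun y hy => hl y (by simp [hy])
    rw [List.map_cons, List.prod_cons, PowerSeries.mul_inv_rev]
    exact h2.mul h1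

/-- residues of the sum of inverses -/
def sI (l : List ℤ) : List ℕ := l.foldr (fun c m => addT (invL c) m) []

lemma rep_sI (l : List ℤ) (hl : ∀ c ∈ l, (c : ZMod 11) * dv c = 1) :
    Rep (sI l) ((l.map fun c => (lin c)⁻¹).sum) := by
  induction l with
  | nil => simpa [sI] using rep_zero
  | cons c l ih =>
    have h1 := rep_inv c (hl c (by simp))
    have h2 := ih fun y hy => hl y (by simp [hy])
    rw [List.map_cons, List.sum_cons]
    exact h1.add h2

/-- the other poles -/
def lR (j : ℕ) : List ℤ := ((List.range 7).filter fun i => i ≠ j).map fun i : ℕ => (j : ℤ) - (i : ℤ)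

/-- the points above -/
def lF (j : ℕ) : List ℤ := ((List.range 8).filter fun i => j < i).map fun i : ℕ => (j : ℤ) - (i : ℤ)

lemma locR_eq (j : ℕ) : locR j = (((lR j).map lin).prod)⁻¹ ^ 3 := by
  have e : (Finset.range 7).erase j = ((List.range 7).filter fun i => i ≠ j).toFinset := by
    ext i
    simp only [Finset.mem_erase, Finset.mem_range, List.mem_toFinset, List.mem_filter,
      List.mem_range, decide_eq_true_eq]
    tauto
  rw [locR, e, List.prod_toFinset _ (List.Nodup.filter _ List.nodup_range), lR, List.map_map]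
  rfl

lemma locF_eq (j : ℕ) : locF j = ((lF j).map fun c => (lin c)⁻¹).sum := by
  have e : Finset.Ioc j 7 = ((List.range 8).filter fun i => j < i).toFinset := by
    ext i
    simp only [Finset.mem_Ioc, List.mem_toFinset, List.mem_filter,
      List.mem_range, decide_eq_true_eq]
    omega
  rw [locF, e, List.sum_toFinset _ (List.Nodup.filter _ List.nodup_range), lF, List.map_map]
  rfl

lemma hlR : ∀ j < 7, ∀ c ∈ lR j, (c : ZMod 11) * dv c = 1 := by decide +kernel
lemma hlF : ∀ j < 7, ∀ c ∈ lF j, (c : ZMod 11) * dv c = 1 := by decide +kernel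

/-- residues of `locR j` -/
def RL (j : ℕ) : List ℕ := powL (pI (lR j)) 3

lemma rep_locR {j : ℕ} (hj : j < 7) : Rep (RL j) (locR j) := by
  rw [locR_eq]
  exact rep_pow (rep_pI _ (hlR j hj)) 3

lemma rep_locF {j : ℕ} (hj : j < 7) : Rep (sI (lF j)) (locF j) := by
  rw [locF_eq]
  exact rep_sI _ (hlF j hj)

/-! ## the moments -/

/-- residue of a moment: `[x^2] (A B l^n)` -/
def mo (A B l : List ℕ) (n : ℕ) : ℕ := (mulT (mulT A B) (powL l n)).getD 2 0

lemma red_mo {A B l : List ℕ} {f g h : PowerSeries ℚ} (hA : Rep A f) (hB : Rep B g)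
    (hl : Rep l h) (n : ℕ) :
    Red (PowerSeries.coeff 2 (f * g * h ^ n)) ((mo A B l n : ℕ) : ZMod 11) :=
  ((hA.mul hB).mul (rep_pow hl n)) 2 (by norm_num)

/-- residues of `fN` -/
def fNL (n : ℕ) : ℕ := ∑ j ∈ Finset.range 7, mo (RL j) (sI (lF j)) [j, 1] n

/-- residues of `gN` -/
def gNL (n : ℕ) : ℕ := ∑ j ∈ Finset.range 7, mo (RL j) [0, 1] [j, 1] n

lemma red_fN (n : ℕ) : Red (fN n) ((fNL n : ℕ) : ZMod 11) := by
  rw [fN, fNL, Nat.cast_sum]
  refine Red.sum _ fun j hj => ?_
  rw [Finset.mem_range] at hj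
  exact red_mo (rep_locR hj) (rep_locF hj) (rep_lin (j : ℤ) j (by simp)) n

lemma red_gN (n : ℕ) : Red (gN n) ((gNL n : ℕ) : ZMod 11) := by
  rw [gN, gNL, Nat.cast_sum]
  refine Red.sum _ fun j hj => ?_
  rw [Finset.mem_range] at hj
  exact red_mo (rep_locR hj) rep_X (rep_lin (j : ℤ) j (by simp)) n

/-- table of `fN` -/
def fNT : List ℕ := [8, 6, 7, 8, 10, 1, 10, 5, 0, 0, 2, 6, 2, 0, 2, 6, 2]

/-- table of `gN` -/
def gNT : List ℕ := [0, 0, 0, 0, 0, 0, 0, 0, 0, 10, 3, 2, 6, 1, 0, 3, 10]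

lemma tab_fN : ∀ n : Fin 17, fNL n % 11 = fNT.getD n 0 := by decide +kernel
lemma tab_gN : ∀ n : Fin 17, gNL n % 11 = gNT.getD n 0 := by decide +kernel

/-! ## certificate -/

/-- nonvanishing of a two-block determinant from residues and an inverse modulo `11` -/
lemma det2_ne_zero {μA μB : ℕ → ℚ} (K : ℕ) (A B : List ℕ) (W : List (List ℕ))
    (hA : ∀ n : ℕ, n < 3 * K - 1 → Red (μA n) ((A.getD n 0 : ℕ) : ZMod 11))
    (hB : ∀ n : ℕ, n < 3 * K - 1 → Red (μB n) ((B.getD n 0 : ℕ) : ZMod 11))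
    (hW : ∀ i j : Fin (2 * K), (∑ k ∈ Finset.range (2 * K),
      (if k < K then A.getD ((i : ℕ) + k) 0 else B.getD ((i : ℕ) + (k - K)) 0) *
        (W.getD k []).getD j 0) % 11 = if i = j then 1 else 0) :
    det2 μA μB K ≠ 0 := by
  classical
  -- the matrix indexed by `Fin (2 * K)`
  let e : Fin K ⊕ Fin K ≃ Fin (2 * K) := finSumFinEquiv.trans (finCongr (by omega))
  have hel : ∀ i : Fin K, ((e (Sum.inl i) : Fin (2 * K)) : ℕ) = i := fun i => by simp [e]
  have her : ∀ i : Fin K, ((e (Sum.inr i) : Fin (2 * K)) : ℕ) = K + i := fun i => by simp [e, add_comm]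
  have herow : ∀ i : Fin K ⊕ Fin K, ((e i : Fin (2 * K)) : ℕ) = row i := by
    rintro (i | i)
    · rw [hel]; rfl
    · rw [her]; rfl
  let N : Matrix (Fin (2 * K)) (Fin (2 * K)) (ZMod 11) := fun i k =>
    (((if (k : ℕ) < K then A.getD ((i : ℕ) + k) 0 else B.getD ((i : ℕ) + (k - K)) 0) : ℕ) : ZMod 11)
  let V : Matrix (Fin (2 * K)) (Fin (2 * K)) (ZMod 11) := fun k j =>
    (((W.getD k []).getD j 0 : ℕ) : ZMod 11)
  have hNV : N * V = 1 := by
    ext i j
    rw [Matrix.mul_apply, Matrix.one_apply]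
    have h1 := hW i j
    have h2 : ((((∑ k ∈ Finset.range (2 * K),
      (if k < K then A.getD ((i : ℕ) + k) 0 else B.getD ((i : ℕ) + (k - K)) 0) *
        (W.getD k []).getD j 0) % 11 : ℕ)) : ZMod 11) = ((if i = j then 1 else 0 : ℕ) : ZMod 11) := by
      rw [h1]
    rw [cast_mod, Finset.sum_range] at h2
    push_cast at h2
    simpa [N, V] using h2
  have hN : N.det ≠ 0 := by
    intro h0
    have := congrArg Matrix.det hNV
    rw [Matrix.det_mul, h0, zero_mul, Matrix.det_one] at this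
    exact zero_ne_one this
  have hred : Red (det2 μA μB K) (N.submatrix e e).det := by
    rw [det2]
    refine Red.det fun i c => ?_
    rw [Matrix.of_apply, Matrix.submatrix_apply]
    have hi : row i < 2 * K := by rw [← herow]; exact (e i).2
    rcases c with c | c
    · have hc := c.2
      have h1 : N (e i) (e (Sum.inl c)) = ((A.getD (row i + c) 0 : ℕ) : ZMod 11) := by
        simp only [N, hel, herow, if_pos hc]
      rw [h1]
      exact hA _ (by omega)
    · have hc := c.2
      have h1 : N (e i) (e (Sum.inr c)) = ((B.getD (row i + c) 0 : ℕ) : ZMod 11) := by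
        have h2 : ¬ (K + (c : ℕ) < K) := by omega
        simp only [N, her, herow, if_neg h2, Nat.add_sub_cancel_left]
      rw [h1]
      exact hB _ (by omega)
  rw [Matrix.det_submatrix_equiv_self] at hred
  exact hred.ne_zero hN

lemma red_tab {x : ℚ} {m n : ℕ} (h : Red x ((m : ℕ) : ZMod 11)) (hmn : m % 11 = n) :
    Red x ((n : ℕ) : ZMod 11) := by
  rw [← hmn, cast_mod]
  exact h

/-- inverse of the `12 × 12` matrix modulo `11` -/
def WN : List (List ℕ) :=
   [[7, 5, 5, 6, 4, 10, 3, 0, 5, 0, 4, 5],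
    [3, 7, 4, 1, 5, 7, 7, 7, 8, 10, 9, 8],
    [7, 5, 4, 5, 2, 5, 8, 3, 6, 9, 10, 6],
    [8, 1, 7, 10, 2, 5, 0, 1, 0, 3, 1, 0],
    [5, 8, 0, 5, 10, 3, 6, 1, 10, 3, 9, 10],
    [6, 4, 6, 1, 6, 4, 5, 7, 1, 10, 10, 1],
    [7, 10, 2, 3, 10, 10, 0, 5, 6, 3, 10, 9],
    [6, 4, 5, 6, 4, 9, 4, 0, 2, 9, 1, 3],
    [9, 9, 3, 2, 5, 4, 1, 3, 3, 1, 2, 3],
    [9, 9, 7, 1, 8, 6, 2, 2, 5, 6, 6, 5],
    [6, 4, 2, 9, 1, 9, 1, 5, 9, 4, 10, 9],
    [7, 2, 8, 7, 8, 6, 7, 9, 8, 5, 0, 8]]

theorem detN : det2 fN gN 6 ≠ 0 := by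
  refine det2_ne_zero 6 fNT gNT WN (fun n hn => red_tab (red_fN n) (tab_fN ⟨n, by omega⟩))
    (fun n hn => red_tab (red_gN n) (tab_gN ⟨n, by omega⟩)) ?_
  decide +kernel

end LD

theorem localDet : LocalDet := LD.detN

end Z23
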