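import Pool.Agent.Lib.Z23.Cls
import Pool.Agent.Lib.Z579.Asm
import Pool.Agent.Lib.Z579.M4

/-!
# Assembly of the proof that `ζ(3)` is not in `ℚ + ℚ ζ(2)`
-/

open Polynomial Finset Z579 DIM3

namespace Z23

lemma VG_den_log {p n : ℕ} (hp : p.Prime) {x : ℚ} (hn : x.den ≤ n) :
    VG p (-((Nat.log p n : ℕ) : ℝ)) x := by
  have : Fact p.Prime := ⟨hp⟩
  by_cases h0 : x = 0
  · exact Or.inl h0
  right
  have h1 : padicValNat p x.den ≤ Nat.log p n := by
    have h2 : p ^ padicValNat p x.den ∣ x.den := pow_padicValNat_dvd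
    have h3 := Nat.le_of_dvd x.den_pos h2
    exact Nat.le_log_of_pow_le hp.one_lt (h3.trans hn)
  have h4 : ((padicValNat p x.den : ℕ) : ℝ) ≤ (Nat.log p n : ℕ) := by exact_mod_cast h1
  have h5 : (0 : ℝ) ≤ ((padicValInt p x.num : ℕ) : ℝ) := Nat.cast_nonneg _
  have h6 : ((padicValRat p x : ℤ) : ℝ) =
      ((padicValInt p x.num : ℕ) : ℝ) - ((padicValNat p x.den : ℕ) : ℝ) := by
    unfold padicValRat
    rw [Int.cast_sub, Int.cast_natCast, Int.cast_natCast]
  rw [h6]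
  linarith

lemma VG_wtA_log {p N s K u i : ℕ} (hp : p.Prime) {z : ℚ} (hz : z.den ≤ 4 * (N + K))
    (hs : s ≤ N) (hi : 1 ≤ i) :
    VG p (-((i : ℝ) * (Nat.log p (4 * (N + K)) : ℕ))) (wtA N s z u i) := by
  have : Fact p.Prime := ⟨hp⟩
  have hL : (0 : ℝ) ≤ ((Nat.log p (4 * (N + K)) : ℕ) : ℝ) := Nat.cast_nonneg _
  have hi1 : (1 : ℝ) ≤ i := by exact_mod_cast hi
  unfold wtA
  refine VG.sub ?_ ?_
  · split_ifs
    · refine (VG_den_log hp hz).mono ?_
      nlinarith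
    · exact VG.zero' _ _
  · refine (m4c p i (N + s - 1 - u) hp).mono ?_
    have h1 : Nat.log p (N + s - 1 - u) ≤ Nat.log p (4 * (N + K)) :=
      Nat.log_mono_right (by omega)
    have h2 : ((Nat.log p (N + s - 1 - u) : ℕ) : ℝ) ≤ (Nat.log p (4 * (N + K)) : ℕ) := by
      exact_mod_cast h1
    nlinarith

lemma VG_wtB_log {p n u i : ℕ} (hp : p.Prime) {b : ℚ} (hb : b.den ≤ n) (hi : 1 ≤ i) :
    VG p (-((i : ℝ) * (Nat.log p n : ℕ))) (wtB b u i) := by
  have : Fact p.Prime := ⟨hp⟩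
  have hL : (0 : ℝ) ≤ ((Nat.log p n : ℕ) : ℝ) := Nat.cast_nonneg _
  have hi1 : (1 : ℝ) ≤ i := by exact_mod_cast hi
  unfold wtB
  split_ifs
  · exact VG.one.mono (by nlinarith)
  · exact (VG_den_log hp hb).mono (by nlinarith)
  · exact VG.zero' _ _

lemma VG_of_den_lt {p : ℕ} (hp : p.Prime) {x : ℚ} (hx : x.den < p) : VG p 0 x := by
  have : Fact p.Prime := ⟨hp⟩
  right
  have hnd : ¬ p ∣ x.den := by
    intro hd
    have := Nat.le_of_dvd x.den_pos hd
    omega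
  have : 0 ≤ padicValRat p x := by
    rw [padicValRat_def, padicValNat.eq_zero_of_not_dvd hnd]
    simp
  exact_mod_cast this

/-- the assembly -/
theorem main_of {h : ℕ} {A0 P0 : ℝ} (hh : 1 ≤ h) (hA : A0 + P0 < 0) (h1 : RealId)
    (h2 : ArchTot h A0) (h3 : PSmall) (h4 : PMid) (h5 : PTwo1) (h6 : PTwo2) (h7 : PBig)
    (h8 : NonVan) (h9 : LocalDet) (h10 : PSum h P0) : Main := by
  rintro ⟨z, b, hzb⟩
  set Q : ℕ := z.den * b.den with hQ
  have hz1 := z.den_pos
  have hb1 := b.den_pos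
  have hzQ : z.den ≤ Q := Nat.le_mul_of_pos_right _ hb1
  have hbQ : b.den ≤ Q := Nat.le_mul_of_pos_left _ hz1
  set δ : ℝ := -(A0 + P0) / 4 with hδ
  have hδ0 : 0 < δ := by rw [hδ]; linarith
  obtain ⟨C, hC, h3'⟩ := h3
  obtain ⟨k10, h10'⟩ := h10 C δ hC hδ0
  obtain ⟨k2, h2'⟩ := h2 b δ hδ0
  obtain ⟨p8, h8'⟩ := h8 h9 z b
  obtain ⟨P, hP, hPlt, hPmod⟩ := Nat.exists_prime_gt_modEq_one (k := h)
    (p8 + h * (Q ^ 2 + k10 + k2 + 4) + 4) (by omega)
  obtain ⟨k, hk⟩ : ∃ k, P = h * k + 1 := by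
    have h1 : 1 ≤ P := hP.one_lt.le
    obtain ⟨k, hk⟩ := (Nat.modEq_iff_dvd' h1).1 hPmod.symm
    exact ⟨k, by omega⟩
  have hkb : Q ^ 2 + k10 + k2 + 4 ≤ k := by
    by_contra hcc
    push Not at hcc
    have : h * k ≤ h * (Q ^ 2 + k10 + k2 + 4) := Nat.mul_le_mul_left _ hcc.le
    omega
  have hkP : k < P := by
    rw [hk]
    nlinarith
  have hQP : Q ^ 2 < P := by omega
  have hQ1 : 1 ≤ Q := Nat.mul_pos hz1 hb1
  have hQQ : Q ≤ Q ^ 2 := by nlinarith
  set N : ℕ := 7 * P with hN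
  set K : ℕ := 6 * P with hK
  have hNr : (N : ℝ) = 7 * P := by rw [hN]; push_cast; ring
  have hKr : (K : ℝ) = 6 * P := by rw [hK]; push_cast; ring
  have hP0 : (0 : ℝ) < P := by exact_mod_cast hP.pos
  have hP1 := hP.one_lt
  -- nonvanishing
  set D : ℚ := hank2 (FA N P z) (FB N b) K with hD
  have hD0 : D ≠ 0 := h8' P hP (by omega)
  -- archimedean bound
  have hlogD : Real.log |((D : ℚ) : ℝ)| ≤
      k ^ 2 * (-(144 * h ^ 2) * Real.log k + A0 + δ) := by
    have h11 := h2' k (by omega)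
    rw [← hk] at h11
    have h12 := h1 N P K z b hzb (by omega) (by omega)
    have hDpos : 0 < |((D : ℚ) : ℝ)| := by
      rw [abs_pos]; exact_mod_cast hD0
    have hle : |((D : ℚ) : ℝ)| ≤ Real.exp (k ^ 2 * (-(144 * h ^ 2) * Real.log k + A0 + δ)) := by
      rw [hD, h12]
      exact h11
    have hlog := Real.log_le_log hDpos hle
    rwa [Real.log_exp] at hlog
  have hbig : ∀ p : ℕ, p.Prime → N + P ≤ p ^ 2 → VG p 0 z ∧ VG p 0 b := by
    intro p hp hsq
    have hlt : Q < p := by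
      by_contra hcc
      push Not at hcc
      have := Nat.pow_le_pow_left hcc 2
      omega
    exact ⟨VG_of_den_lt hp (by omega), VG_of_den_lt hp (by omega)⟩
  have hp2a : ∀ p : ℕ, N + P < p → N + P ≤ p ^ 2 := by
    intro p h
    nlinarith
  have hden := log_abs_ge D hD0 (N + P) (by
    intro p hp hpa
    obtain ⟨hz0, hb0⟩ := hbig p hp (hp2a p hpa)
    have := h7 p N P K z b hp (by omega) (by omega) (by omega) hz0 hb0
    have e : N + P - p = 0 := by omega
    rw [e] at this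
    simpa using this)
  have hE : (6 * (N : ℝ) * K - 3 * (K : ℝ) ^ 2) = 144 * (P : ℝ) ^ 2 := by
    rw [hNr, hKr]; ring
  have hpadic := h10' k (by omega) N P K (by rw [hN, hk]) (by rw [hk]) (by rw [hK, hk])
    (fun p => (D.den.factorization p : ℝ)) ?_ ?_ ?_ ?_ ?_
  · have h13 : (0 : ℝ) < (k : ℝ) ^ 2 := by
      have : 0 < k := by omega
      have : (0 : ℝ) < k := by exact_mod_cast this
      positivity
    have h14 : (k : ℝ) ^ 2 * (-(144 * h ^ 2) * Real.log k + A0 + δ) +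
        k ^ 2 * (144 * h ^ 2 * Real.log k + P0 + δ) = k ^ 2 * (A0 + P0 + 2 * δ) := by ring
    have h15 : A0 + P0 + 2 * δ < 0 := by rw [hδ]; linarith
    have h16 := mul_neg_of_pos_of_neg h13 h15
    linarith
  · -- small primes
    intro p hp hp2
    have : Fact p.Prime := ⟨hp⟩
    have hp1 : (0 : ℝ) < (p : ℝ) - 1 := by
      have : (1 : ℝ) < p := by exact_mod_cast hp.one_lt
      linarith
    refine fact_le_of_VG hp hD0 (by rw [hE]; positivity) ?_
    refine h3' p N K _ _ hp (by omega) (by omega) ?_ ?_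
    · intro u hu i hi _
      exact VG_wtA_log hp (by omega) (by omega) hi
    · intro u hu i hi _
      exact VG_wtB_log hp (by omega) hi
  · -- middle primes
    intro p hp hp2 hp3
    have : Fact p.Prime := ⟨hp⟩
    have hp0 : (0 : ℝ) < (p : ℝ) := by exact_mod_cast hp.pos
    obtain ⟨hz0, hb0⟩ := hbig p hp hp2
    have hmod : ((N % p : ℕ) : ℝ) ≤ p := by
      exact_mod_cast (Nat.mod_lt _ hp.pos).le
    refine fact_le_of_VG hp hD0 (by
      rw [hE]
      have h1 : (0 : ℝ) ≤ ((N % p : ℕ) : ℝ) * (p - (N % p : ℕ)) / p :=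
        div_nonneg (mul_nonneg (Nat.cast_nonneg _) (by linarith)) hp0.le
      have h2 : (0 : ℝ) ≤ 144 * (P : ℝ) ^ 2 / p := by positivity
      linarith) ?_
    refine h4 p N K _ _ hp (by omega) (by omega) ?_ ?_ ?_
    · intro u hu i _ _
      exact wtA_VG hp hz0 hp2 hu
    · intro u hu i _ _
      exact wtB_VG hp hb0 u
    · intro u _
      simp [wtB]
  · intro p hp hp2 hp3
    have : Fact p.Prime := ⟨hp⟩
    have hsq : N + P ≤ p ^ 2 := by nlinarith
    obtain ⟨hz0, hb0⟩ := hbig p hp hsq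
    have hpne : p ≠ 2 := by
      rintro rfl
      omega
    refine fact_le_of_VG hp hD0 ?_ (h5 p N P K z b hp hpne hp2 hp3 (by omega) hz0 hb0)
    have h1 : (p : ℝ) ≤ N := by exact_mod_cast hp3
    have h2 : (0 : ℝ) ≤ K := Nat.cast_nonneg K
    linarith
  · intro p hp hp2 hp3
    have : Fact p.Prime := ⟨hp⟩
    have hsq : N + P ≤ p ^ 2 := by nlinarith
    obtain ⟨hz0, hb0⟩ := hbig p hp hsq
    have hpne : p ≠ 2 := by
      rintro rfl
      omega
    refine fact_le_of_VG hp hD0 ?_ (h6 p N P K z b hp hpne hp2 hp3 (by omega) hz0 hb0)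
    have h1 : (p : ℝ) ≤ N := by exact_mod_cast hp3
    linarith
  · intro p hp hp2 hp3
    have : Fact p.Prime := ⟨hp⟩
    have hsq : N + P ≤ p ^ 2 := by nlinarith
    obtain ⟨hz0, hb0⟩ := hbig p hp hsq
    have hpne : p ≠ 2 := by
      rintro rfl
      omega
    have h1 : (p : ℝ) ≤ (N : ℝ) + P := by exact_mod_cast hp3.le
    have h2 := h7 p N P K z b hp hpne hp2.le (by omega) hz0 hb0
    have e : (((N + P - p : ℕ)) : ℝ) = (N : ℝ) + P - p := by
      rw [Nat.cast_sub hp3.le]; push_cast; ring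
    rw [e] at h2
    exact fact_le_of_VG hp hD0 (by linarith) h2

end Z23
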