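import Pool.Agent.Lib.Z23.NVDefs

/-!
# Z23, module NVA (about 260 lines): expansions at the poles of a class, general entry

PROOF (template: DIM3/NV1.lean, NV3.lean; here there is only one kind of classes).
(1) At the pole `u = c + j p` (`c < p`, `j < 7`) substitute `x = p ξ` (`PowerSeries.rescale`):
`lin (u - w) = p lin (j - i)` for `w = c + i p` (`resc_lin_p`), and for `w % p ≠ c`
`rescale p (lin (u - w))` reduces to the constant `c - w` (`Red_resc_lin`).  The range `7 p` is the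
disjoint union of the class `{c + i p : i < 7}` and of the `w` with `w % p ≠ c`.  So
`rescale p (base (7p) u) = C (p^(-18)) * F1`, `Red p F1 (locRp p j * C ((∏ (c - w))⁻¹)^3)`
(needs `8 ≤ p`: the numbers `j - i`, `0 < |j - i| ≤ 7`, are not zero modulo `p`).
(2) `aeval (lin u) (PolyZ p n) = ∏_d lin (u - d)^(n d)`; the factor `d = c` gives
`(p lin j)^(n c)` (`u - c = j p`), the others reduce to `(c - d)^(n d)`.
(3) Therefore `Ac (7p) u i (PolyZ p n) = p^(n c - 18 - (3 - i)) x` with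
`red p x (coeff (3-i) (C (Ku p n c) * (locRp p j * linp p j ^ (n c))))`.
(4) With `ω u i = p^(g - i) w`: the term is `p^(n c + g - 21) w x`; the sum over `i` of
`coeff (i-1) V * coeff (3-i) f` is `coeff 2 (V * f)` (see `coeff_nine_mul`, `pole_red` in NV3).
Multiply by `p^τ`, sum over `j < 7` and `c < p` (every `u < 7 p` is `c + j p` in exactly one way).
-/

open Polynomial Finset Z579 DIM3

namespace Z23

section
variable {p : ℕ} [hp : Fact p.Prime]

private lemma cast_ne0 {x : ℤ} (h0 : x ≠ 0) (h1 : |x| < p) : (x : ZMod p) ≠ 0 := by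
  rw [Ne, ZMod.intCast_zmod_eq_zero_iff_dvd]
  intro hd
  exact h0 (Int.eq_zero_of_abs_lt_dvd hd h1)

private lemma range_split {c j : ℕ} (hc : c < p) (hj : j < 7) :
    (Finset.range (7 * p)).erase (c + j * p) =
      ((Finset.range 7).erase j).image (fun i => c + i * p) ∪
        (Finset.range (7 * p)).filter (fun w => w % p ≠ c) := by
  have hp0 : 0 < p := hp.out.pos
  ext w
  simp only [Finset.mem_erase, Finset.mem_range, Finset.mem_union, Finset.mem_image,
    Finset.mem_filter]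
  constructor
  · rintro ⟨h1, h2⟩
    by_cases h : w % p = c
    · left
      have e := Nat.mod_add_div' w p
      rw [h] at e
      refine ⟨w / p, ⟨?_, ?_⟩, e⟩
      · intro h3
        rw [h3] at e
        exact h1 e.symm
      · exact Nat.div_lt_of_lt_mul (by rw [mul_comm]; exact h2)
    · right
      exact ⟨h2, h⟩
  · rintro (⟨i, ⟨h1, h2⟩, rfl⟩ | ⟨h1, h2⟩)
    · refine ⟨fun h => h1 ?_, ?_⟩
      · have : i * p = j * p := by omega
        exact Nat.eq_of_mul_eq_mul_right hp0 this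
      · have : i * p ≤ 6 * p := Nat.mul_le_mul_right _ (by omega)
        omega
    · refine ⟨?_, h1⟩
      rintro rfl
      apply h2
      rw [Nat.add_mul_mod_self_right, Nat.mod_eq_of_lt hc]

private lemma off_ne {c w : ℕ} (hc : c < p) (hw : w % p ≠ c) : ((c : ZMod p) - w) ≠ 0 := by
  intro h
  rw [sub_eq_zero, ZMod.natCast_eq_natCast_iff'] at h
  rw [Nat.mod_eq_of_lt hc] at h
  exact hw h.symm

private lemma resc_base {c j : ℕ} (hp8 : 8 ≤ p) (hc : c < p) (hj : j < 7) :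
    ∃ F : PowerSeries ℚ,
      PowerSeries.rescale (p : ℚ) (base (7 * p) (c + j * p)) =
        PowerSeries.C (((p : ℚ)⁻¹) ^ 18) * F ∧
      Red p F (locRp p j * PowerSeries.C
        (((∏ w ∈ (Finset.range (7 * p)).filter (fun w => w % p ≠ c),
          ((c : ZMod p) - w))⁻¹) ^ 3)) := by
  classical
  have hp0 : (p : ℚ) ≠ 0 := by exact_mod_cast hp.out.ne_zero
  have hpn : 0 < p := hp.out.pos
  set O := (Finset.range (7 * p)).filter (fun w => w % p ≠ c) with hO
  have hinj : Function.Injective (fun i : ℕ => c + i * p) := by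
    intro x y hxy
    have : x * p = y * p := by simpa using hxy
    exact Nat.eq_of_mul_eq_mul_right hpn this
  have hne : PowerSeries.constantCoeff
      (∏ w ∈ (Finset.range (7 * p)).erase (c + j * p), lin (((c + j * p : ℕ) : ℤ) - w)) ≠ 0 := by
    rw [map_prod]
    refine Finset.prod_ne_zero_iff.2 fun w hw => ?_
    rw [Finset.mem_erase] at hw
    have h1 : ((c + j * p : ℕ) : ℤ) - w ≠ 0 := by
      intro h
      apply hw.1
      have h2 : ((c + j * p : ℕ) : ℤ) = w := by linarith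
      exact_mod_cast h2.symm
    simp only [lin, map_add, PowerSeries.constantCoeff_X, PowerSeries.constantCoeff_C, zero_add]
    exact_mod_cast h1
  have hdis : Disjoint (((Finset.range 7).erase j).image (fun i => c + i * p)) O := by
    rw [Finset.disjoint_left]
    intro w h1 h2
    rw [Finset.mem_image] at h1
    obtain ⟨i, _, rfl⟩ := h1
    rw [hO, Finset.mem_filter] at h2
    exact h2.2 (by rw [Nat.add_mul_mod_self_right, Nat.mod_eq_of_lt hc])
  have hcard : ((Finset.range 7).erase j).card = 6 := by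
    rw [Finset.card_erase_of_mem (Finset.mem_range.2 hj)]
    rfl
  set Pi : PowerSeries ℚ := ∏ w ∈ O,
    PowerSeries.rescale (p : ℚ) (lin (((c + j * p : ℕ) : ℤ) - w)) with hPi
  refine ⟨((∏ i ∈ (Finset.range 7).erase j, lin ((j : ℤ) - i))⁻¹ * Pi⁻¹) ^ 3, ?_, ?_⟩
  · rw [base, map_pow, rescale_inv _ _ hne, map_prod, range_split hc hj,
      Finset.prod_union hdis, Finset.prod_image (fun x _ y _ h => hinj h), ← hPi]
    have h1 : ∏ x ∈ (Finset.range 7).erase j, PowerSeries.rescale (p : ℚ)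
        (lin (((c + j * p : ℕ) : ℤ) - ((c + x * p : ℕ) : ℤ))) =
        PowerSeries.C ((p : ℚ) ^ 6) * ∏ i ∈ (Finset.range 7).erase j, lin ((j : ℤ) - i) := by
      have h2 : ∀ x ∈ (Finset.range 7).erase j, PowerSeries.rescale (p : ℚ)
          (lin (((c + j * p : ℕ) : ℤ) - ((c + x * p : ℕ) : ℤ))) =
          PowerSeries.C (p : ℚ) * lin ((j : ℤ) - x) := by
        intro x _
        exact resc_lin_p _ (by push_cast; ring)
      rw [Finset.prod_congr rfl h2, Finset.prod_mul_distrib, Finset.prod_const, hcard, map_pow]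
    rw [h1, PowerSeries.mul_inv_rev, PowerSeries.mul_inv_rev, PowerSeries.C_inv]
    have h3 : PowerSeries.C (((p : ℚ)⁻¹) ^ 18) = PowerSeries.C (((p : ℚ) ^ 6)⁻¹) ^ 3 := by
      rw [← map_pow]
      congr 1
      rw [← inv_pow, ← pow_mul]
    rw [h3]
    ring
  · have hRi : Red p Pi (PowerSeries.C (∏ w ∈ O, ((c : ZMod p) - w))) := by
      rw [map_prod]
      refine Red_prod _ _ _ fun w _ => ?_
      have h := Red_resc_lin (p := p) (((c + j * p : ℕ) : ℤ) - w)
      have e : (((((c + j * p : ℕ) : ℤ) - w : ℤ)) : ZMod p) = (c : ZMod p) - w := by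
        push_cast
        simp
      rw [e] at h
      exact h
    have hRi' : Red p Pi⁻¹ (PowerSeries.C ((∏ w ∈ O, ((c : ZMod p) - w))⁻¹)) := by
      rw [← PowerSeries.C_inv]
      refine Red_inv hRi ?_
      rw [PowerSeries.constantCoeff_C]
      refine Finset.prod_ne_zero_iff.2 fun w hw => ?_
      rw [hO, Finset.mem_filter] at hw
      exact off_ne hc hw.2
    rw [map_pow, locRp, ← mul_pow]
    refine Red_pow (Red_mul (Red_inv (Red_prod _ _ _ fun i _ => Red_lin _) ?_) hRi') 3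
    rw [map_prod]
    refine Finset.prod_ne_zero_iff.2 fun i hi => ?_
    rw [constantCoeff_linp]
    rw [Finset.mem_erase, Finset.mem_range] at hi
    refine cast_ne0 ?_ ?_
    · intro h
      apply hi.1
      omega
    · rw [abs_lt]
      constructor <;> omega

private lemma aeval_lin' (u : ℤ) (d : ℕ) :
    Polynomial.aeval (lin u) (X - Polynomial.C (d : ℚ)) = lin (u - d) := by
  rw [map_sub, Polynomial.aeval_X, Polynomial.aeval_C,
    show (algebraMap ℚ (PowerSeries ℚ)) (d : ℚ) = PowerSeries.C (d : ℚ) from rfl]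
  simp only [lin]
  push_cast
  simp only [map_sub]
  ring

private lemma resc_aeval {c j : ℕ} (n : ℕ → ℕ) (hc : c < p) :
    ∃ F : PowerSeries ℚ,
      PowerSeries.rescale (p : ℚ)
        (Polynomial.aeval (lin ((c + j * p : ℕ) : ℤ)) (PolyZ p n)) =
        PowerSeries.C ((p : ℚ) ^ (n c)) * F ∧
      Red p F (PowerSeries.C (∏ d ∈ (Finset.range p).erase c, ((c : ZMod p) - d) ^ (n d)) *
        linp p (j : ℤ) ^ (n c)) := by
  have h1 : PowerSeries.rescale (p : ℚ)
      (Polynomial.aeval (lin ((c + j * p : ℕ) : ℤ)) (PolyZ p n)) =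
      ∏ d ∈ Finset.range p,
        (PowerSeries.rescale (p : ℚ) (lin (((c + j * p : ℕ) : ℤ) - d))) ^ (n d) := by
    rw [PolyZ, map_prod, map_prod]
    refine Finset.prod_congr rfl fun d _ => ?_
    rw [map_pow, map_pow, aeval_lin']
  refine ⟨lin (j : ℤ) ^ (n c) * ∏ d ∈ (Finset.range p).erase c,
    (PowerSeries.rescale (p : ℚ) (lin (((c + j * p : ℕ) : ℤ) - d))) ^ (n d), ?_, ?_⟩
  · rw [h1, ← Finset.mul_prod_erase _ _ (Finset.mem_range.2 hc),
      resc_lin_p (j : ℤ) (by push_cast; ring), map_pow]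
    ring
  · rw [mul_comm (PowerSeries.C _)]
    refine Red_mul (Red_pow (Red_lin _) _) ?_
    rw [map_prod]
    refine Red_prod _ _ _ fun d _ => ?_
    rw [map_pow]
    refine Red_pow ?_ _
    have h := Red_resc_lin (p := p) (((c + j * p : ℕ) : ℤ) - d)
    have e : (((((c + j * p : ℕ) : ℤ) - d : ℤ)) : ZMod p) = (c : ZMod p) - d := by
      push_cast
      simp
    rw [e] at h
    exact h

private lemma Ac_of_resc {N u : ℕ} {G : ℚ[X]} {E : ℤ} {F : PowerSeries ℚ}
    {f : PowerSeries (ZMod p)}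
    (h : PowerSeries.rescale (p : ℚ) (base N u * Polynomial.aeval (lin (u : ℤ)) G) =
      PowerSeries.C ((p : ℚ) ^ (E - 18)) * F) (hF : Red p F f) {i : ℕ} (hi : i ≤ 3) :
    ∃ x : ℚ, Ac N u i G = (p : ℚ) ^ (E + i - 21) * x ∧
      red p x (PowerSeries.coeff (3 - i) f) := by
  have hp0 : (p : ℚ) ≠ 0 := by exact_mod_cast hp.out.ne_zero
  refine ⟨PowerSeries.coeff (3 - i) F, ?_, hF _⟩
  rw [Ac_apply]
  have h3 := congrArg (PowerSeries.coeff (3 - i)) h
  rw [PowerSeries.coeff_rescale, PowerSeries.coeff_C_mul] at h3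
  have h4 : (p : ℚ) ^ (3 - i) ≠ 0 := pow_ne_zero _ hp0
  refine mul_left_cancel₀ h4 ?_
  rw [h3, ← mul_assoc, ← zpow_natCast (p : ℚ) (3 - i), ← zpow_add₀ hp0]
  congr 2
  push_cast [hi]
  ring

omit hp in
private lemma coeff_two_mul {R : Type*} [CommRing R] (V f : PowerSeries R) :
    ∑ i ∈ Finset.Icc 1 3, PowerSeries.coeff (i - 1) V * PowerSeries.coeff (3 - i) f =
      PowerSeries.coeff 2 (V * f) := by
  rw [PowerSeries.coeff_mul, Finset.Nat.sum_antidiagonal_eq_sum_range_succ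
    (fun i j => PowerSeries.coeff i V * PowerSeries.coeff j f)]
  refine Finset.sum_nbij' (fun i => i - 1) (fun i => i + 1) ?_ ?_ ?_ ?_ ?_
  · intro i hi; rw [Finset.mem_Icc] at hi; rw [Finset.mem_range]; omega
  · intro i hi; rw [Finset.mem_range] at hi; rw [Finset.mem_Icc]; omega
  · intro i hi; rw [Finset.mem_Icc] at hi; omega
  · intro i hi; omega
  · intro i hi
    rw [Finset.mem_Icc] at hi
    have : 2 - (i - 1) = 3 - i := by omega
    rw [this]

/-- reduction of the contribution of one pole -/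
private lemma pole_red' {N u : ℕ} {G : ℚ[X]} {E : ℤ} {ω : ℕ → ℕ → ℚ} {g τ k : ℕ}
    {V f : PowerSeries (ZMod p)}
    (hA : ∀ i : ℕ, i ≤ 3 → ∃ x : ℚ, Ac N u i G = (p : ℚ) ^ (E + i - 21) * x ∧
      red p x (PowerSeries.coeff (3 - i) f))
    (hw : ∀ i : ℕ, 1 ≤ i → i ≤ 3 → ∃ w : ℚ, (p : ℚ) ^ i * ω u i = (p : ℚ) ^ g * w ∧
      red p w (PowerSeries.coeff (i - 1) V))
    (hk : (τ : ℤ) + E + g = 21 + k) :
    red p ((p : ℚ) ^ τ * ∑ i ∈ Finset.Icc 1 3, ω u i * Ac N u i G)
      ((0 : ZMod p) ^ k * PowerSeries.coeff 2 (V * f)) := by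
  have hp0 : (p : ℚ) ≠ 0 := by exact_mod_cast hp.out.ne_zero
  rw [Finset.mul_sum, ← coeff_two_mul, Finset.mul_sum]
  refine red_sum _ _ _ fun i hi => ?_
  rw [Finset.mem_Icc] at hi
  obtain ⟨x, hx1, hx2⟩ := hA i hi.2
  obtain ⟨w, hw1, hw2⟩ := hw i hi.1 hi.2
  have h1 : (p : ℚ) ^ τ * (ω u i * Ac N u i G) = (p : ℚ) ^ k * (w * x) := by
    have h2 : (p : ℚ) ^ i ≠ 0 := pow_ne_zero _ hp0
    refine mul_left_cancel₀ h2 ?_
    have h3 : (p : ℚ) ^ τ * (p : ℚ) ^ (E + i - 21) * (p : ℚ) ^ g = (p : ℚ) ^ k * (p : ℚ) ^ i := by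
      rw [← zpow_natCast (p : ℚ) τ, ← zpow_natCast (p : ℚ) g, ← zpow_natCast (p : ℚ) k,
        ← zpow_natCast (p : ℚ) i, ← zpow_add₀ hp0, ← zpow_add₀ hp0, ← zpow_add₀ hp0]
      congr 1
      linarith
    rw [hx1]
    calc (p : ℚ) ^ i * ((p : ℚ) ^ τ * (ω u i * ((p : ℚ) ^ (E + i - 21) * x)))
        = (p : ℚ) ^ τ * (p : ℚ) ^ (E + i - 21) * ((p : ℚ) ^ i * ω u i) * x := by ring
      _ = (p : ℚ) ^ τ * (p : ℚ) ^ (E + i - 21) * (p : ℚ) ^ g * (w * x) := by rw [hw1]; ring
      _ = _ := by rw [h3]; ring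
  rw [h1]
  exact red_mul (red_pow red_p k) (red_mul hw2 hx2)

private lemma sum_range_cls (f : ℕ → ℚ) :
    ∑ u ∈ Finset.range (7 * p), f u =
      ∑ c ∈ Finset.range p, ∑ j ∈ Finset.range 7, f (c + j * p) := by
  have hp0 : 0 < p := hp.out.pos
  rw [← Finset.sum_product']
  symm
  refine Finset.sum_nbij' (fun x => x.1 + x.2 * p) (fun u => (u % p, u / p)) ?_ ?_ ?_ ?_ ?_
  · rintro ⟨c, j⟩ h
    rw [Finset.mem_product, Finset.mem_range, Finset.mem_range] at h
    obtain ⟨h1, h2⟩ := h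
    simp only at h1 h2 ⊢
    rw [Finset.mem_range]
    have : j * p ≤ 6 * p := Nat.mul_le_mul_right _ (by omega)
    omega
  · intro u hu
    rw [Finset.mem_range] at hu
    rw [Finset.mem_product, Finset.mem_range, Finset.mem_range]
    exact ⟨Nat.mod_lt _ hp0, Nat.div_lt_of_lt_mul (by rw [mul_comm]; exact hu)⟩
  · rintro ⟨c, j⟩ h
    rw [Finset.mem_product, Finset.mem_range, Finset.mem_range] at h
    obtain ⟨h1, h2⟩ := h
    simp only at h1 h2 ⊢
    rw [Nat.add_mul_mod_self_right, Nat.mod_eq_of_lt h1, Nat.add_mul_div_right _ _ hp0,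
      Nat.div_eq_of_lt h1, zero_add]
  · intro u hu
    exact Nat.mod_add_div' u p
  · intro x hx
    rfl

end

theorem entry {p : ℕ} [hp : Fact p.Prime] (hp8 : 8 ≤ p) {ω : ℕ → ℕ → ℚ} {g τ : ℕ}
    {V : ℕ → PowerSeries (ZMod p)} {n k : ℕ → ℕ}
    (hw : ∀ c < p, ∀ j < 7, ∀ i : ℕ, 1 ≤ i → i ≤ 3 →
      ∃ w : ℚ, (p : ℚ) ^ i * ω (c + j * p) i = (p : ℚ) ^ g * w ∧
        red p w (PowerSeries.coeff (i - 1) (V j)))
    (hk : ∀ c < p, τ + n c + g = 21 + k c) :
    red p ((p : ℚ) ^ τ * Lf (7 * p) ω (PolyZ p n))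
      (∑ c ∈ Finset.range p, (0 : ZMod p) ^ (k c) * (Ku p n c * momp p V (n c))) := by
  have hp0 : (p : ℚ) ≠ 0 := by exact_mod_cast hp.out.ne_zero
  rw [Lf_apply, sum_range_cls, Finset.mul_sum]
  refine red_sum _ _ _ fun c hc => ?_
  rw [Finset.mem_range] at hc
  have h1 : (0 : ZMod p) ^ k c * (Ku p n c * momp p V (n c)) = ∑ j ∈ Finset.range 7,
      (0 : ZMod p) ^ k c * PowerSeries.coeff 2 (V j * (PowerSeries.C (Ku p n c) *
        (locRp p j * linp p (j : ℤ) ^ (n c)))) := by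
    rw [momp, Finset.mul_sum, Finset.mul_sum]
    refine Finset.sum_congr rfl fun j _ => ?_
    rw [mul_left_comm (V j) (PowerSeries.C (Ku p n c)), PowerSeries.coeff_C_mul]
  rw [h1, Finset.mul_sum]
  refine red_sum _ _ _ fun j hj => ?_
  rw [Finset.mem_range] at hj
  obtain ⟨F1, hF1, hR1⟩ := resc_base (j := j) hp8 hc hj
  obtain ⟨F2, hF2, hR2⟩ := resc_aeval (p := p) (c := c) (j := j) n hc
  have hresc : PowerSeries.rescale (p : ℚ) (base (7 * p) (c + j * p) *
      Polynomial.aeval (lin ((c + j * p : ℕ) : ℤ)) (PolyZ p n)) =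
      PowerSeries.C ((p : ℚ) ^ ((n c : ℤ) - 18)) * (F1 * F2) := by
    rw [map_mul, hF1, hF2]
    have h4 : PowerSeries.C ((p : ℚ) ^ ((n c : ℤ) - 18)) =
        PowerSeries.C (((p : ℚ)⁻¹) ^ 18) * PowerSeries.C ((p : ℚ) ^ n c) := by
      rw [← map_mul]
      congr 1
      rw [zpow_sub₀ hp0, zpow_natCast, inv_pow, div_eq_mul_inv, mul_comm]
      norm_cast
    rw [h4]
    ring
  have hR : Red p (F1 * F2) (PowerSeries.C (Ku p n c) *
      (locRp p j * linp p (j : ℤ) ^ (n c))) := by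
    have hA := Red_mul hR1 hR2
    convert hA using 1
    rw [Ku, map_mul]
    ring
  exact pole_red' (fun i hi => Ac_of_resc hresc hR hi) (hw c hc j hj) (by
    have := hk c hc
    push_cast [← this]
    omega)

end Z23
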