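import Pool.Agent.Lib.Z23.NVDefs
import Pool.Agent.Lib.DIM3.NV4

/-!
# Z23, module NVB: the weights and the local moments modulo `p`

`wA_red`: `u = c + j p`, `N + s - 1 - u = 8 p - 1 - c - j p`, whose quotient by `p` is `7 - j`; so
`p^i * wtA (7p) p z u i = -Hs i (7 - j) + (i = 3: p^3 z) + p^i (integral)`, and
`coeff (i-1) (locFp p j) = -Hs i (7-j)` modulo `p` (`1/(x - l)` has `coeff (i-1) = -l^(-i)`).
`wB_red`: `p^i wtB b u i = p^2 w` with `w = 0, 1, p b` for `i = 1, 2, 3`.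
`detp_ne`: `locR j`, `locF j` reduce to `locRp`, `locFp` (`8 ≤ p`), hence `fN n`, `gN n` reduce to
the moments and the rational number `det2 fN gN 6` to the determinant; for `p` larger than
its numerator (in absolute value) the reduction is not zero.
-/

open Polynomial Finset Z579 DIM3

namespace Z23

/-- the coefficients of `locF` -/
lemma coeff_locF7 {j i : ℕ} (hi : 1 ≤ i) :
    PowerSeries.coeff (i - 1) (locF j) = -Hs i (7 - j) := by
  obtain ⟨i, rfl⟩ := Nat.exists_eq_add_of_le' hi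
  rw [Nat.add_sub_cancel, locF, map_sum, Hs, ← Finset.sum_neg_distrib]
  refine Finset.sum_nbij' (fun k => k - j - 1) (fun k => j + 1 + k) ?_ ?_ ?_ ?_ ?_
  · intro k hk
    rw [Finset.mem_Ioc] at hk
    rw [Finset.mem_range]
    omega
  · intro k hk
    rw [Finset.mem_range] at hk
    rw [Finset.mem_Ioc]
    omega
  · intro k hk
    rw [Finset.mem_Ioc] at hk
    omega
  · intro k hk
    omega
  · intro k hk
    rw [Finset.mem_Ioc] at hk
    obtain ⟨m, rfl⟩ : ∃ m : ℕ, k = j + 1 + m := ⟨k - j - 1, by omega⟩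
    have h0 : j + 1 + m - j - 1 = m := by omega
    rw [h0, coeff_lin_inv (by omega)]
    have h2 : (((j : ℤ) - ((j + 1 + m : ℕ) : ℤ) : ℤ) : ℚ) = -((m : ℚ) + 1) := by
      push_cast; ring
    have h3 : (m : ℚ) + 1 ≠ 0 := by positivity
    rw [h2, inv_neg, neg_pow ((m : ℚ) + 1)⁻¹, one_div, inv_pow, ← mul_assoc, ← pow_add]
    have h4 : (-1 : ℚ) ^ (i + (i + 1)) = -1 := by
      rw [show i + (i + 1) = 2 * i + 1 by ring, pow_succ, pow_mul]; norm_num
    rw [h4]
    ring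

section
variable {p : ℕ} [hp : Fact p.Prime]

lemma small7 (hp8 : 8 ≤ p) {j i : ℕ} (hj : j ≤ 7) (hi : i ≤ 7) (hij : i ≠ j) :
    (((j : ℤ) - (i : ℤ) : ℤ) : ZMod p) ≠ 0 := by
  refine cast_ne_zero_of_small (by omega) ?_
  have : (8 : ℤ) ≤ p := by exact_mod_cast hp8
  rw [abs_lt]
  omega

lemma Red_locR7 (hp8 : 8 ≤ p) {j : ℕ} (hj : j < 7) : Red p (locR j) (locRp p j) := by
  refine Red_pow (Red_inv (Red_prod _ _ _ fun i _ => Red_lin _) ?_) 3
  rw [map_prod]
  refine Finset.prod_ne_zero_iff.2 fun i hi => ?_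
  rw [constantCoeff_linp]
  rw [Finset.mem_erase, Finset.mem_range] at hi
  exact small7 hp8 hj.le hi.2.le hi.1

lemma Red_locF7 (hp8 : 8 ≤ p) {j : ℕ} (hj : j < 7) : Red p (locF j) (locFp p j) := by
  refine Red_sum _ _ _ fun i hi => ?_
  rw [Finset.mem_Ioc] at hi
  exact Red_lin_inv (small7 hp8 hj.le hi.2 (by omega))

end

theorem wA_red {p : ℕ} [hp : Fact p.Prime] (hp8 : 8 ≤ p) {z : ℚ} (hz : VG p 0 z) {c j i : ℕ}
    (hc : c < p) (hj : j < 7) (hi : 1 ≤ i) (hi3 : i ≤ 3) :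
    ∃ w : ℚ, (p : ℚ) ^ i * wtA (7 * p) p z (c + j * p) i = (p : ℚ) ^ 0 * w ∧
      red p w (PowerSeries.coeff (i - 1) (locFp p j)) := by
  refine ⟨(p : ℚ) ^ i * wtA (7 * p) p z (c + j * p) i, by rw [pow_zero, one_mul], ?_⟩
  have hq : (7 * p + p - 1 - (c + j * p)) / p = 7 - j := by
    have h1 : 7 * p + p - 1 - (c + j * p) = (p - 1 - c) + (7 - j) * p := by
      have h2 : j * p + (7 - j) * p = 7 * p := by rw [← add_mul]; congr 1; omega
      have h3 : j * p ≤ 7 * p := Nat.mul_le_mul_right p hj.le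
      omega
    rw [h1, Nat.add_mul_div_right _ _ hp.out.pos, Nat.div_eq_of_lt (by omega), zero_add]
  obtain ⟨x, hx, y, hy⟩ := Hs_split (p := p) i (7 * p + p - 1 - (c + j * p))
  obtain ⟨y2, hy2⟩ : ∃ y2, red p (if i = 3 then z else 0) y2 := by
    split_ifs
    · exact exists_red hz
    · exact ⟨0, red_zero⟩
  have h1 : (p : ℚ) ^ i * wtA (7 * p) p z (c + j * p) i =
      (p : ℚ) ^ i * (if i = 3 then z else 0) + -Hs i (7 - j) - (p : ℚ) ^ i * x := by
    rw [wtA, mul_sub, hx, hq]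
    ring
  rw [h1]
  have h2 := (Red_locF7 (p := p) hp8 hj) (i - 1)
  rw [coeff_locF7 hi] at h2
  have h3 := red_sub (red_add (red_ppow_mul hy2 (by omega : i ≠ 0)) h2)
    (red_ppow_mul hy (by omega : i ≠ 0))
  simpa using h3

theorem wB_red {p : ℕ} [hp : Fact p.Prime] {b : ℚ} (hb : VG p 0 b) {u i : ℕ}
    (hi : 1 ≤ i) (hi3 : i ≤ 3) :
    ∃ w : ℚ, (p : ℚ) ^ i * wtB b u i = (p : ℚ) ^ 2 * w ∧
      red p w (PowerSeries.coeff (i - 1) (PowerSeries.X : PowerSeries (ZMod p))) := by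
  rw [PowerSeries.coeff_X]
  interval_cases i
  · exact ⟨0, by simp [wtB], by simpa using red_zero⟩
  · exact ⟨1, by simp [wtB], by simpa using red_one⟩
  · obtain ⟨y, hy⟩ := exists_red hb
    refine ⟨p * b, by simp [wtB]; ring, ?_⟩
    simpa using red_p_mul hy

theorem detp_ne (h : LocalDet) : ∃ p₀ : ℕ, 8 ≤ p₀ ∧ ∀ (p : ℕ) [Fact p.Prime], p₀ ≤ p →
    det2 (momp p (locFp p)) (momp p (fun _ => PowerSeries.X)) 6 ≠ 0 := by
  refine ⟨8 + (det2 fN gN 6).num.natAbs, by omega, fun p hp hpp => ?_⟩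
  have hp8 : 8 ≤ p := by omega
  have hF : ∀ m, red p (fN m) (momp p (locFp p) m) := by
    intro m
    rw [fN, momp]
    refine red_sum _ _ _ fun j hj => ?_
    rw [Finset.mem_range] at hj
    have h1 := (Red_mul (Red_mul (Red_locR7 (p := p) hp8 hj) (Red_locF7 hp8 hj))
      (Red_pow (Red_lin (p := p) (j : ℤ)) m)) 2
    convert h1 using 2
    ring
  have hG : ∀ m, red p (gN m) (momp p (fun _ => PowerSeries.X) m) := by
    intro m
    rw [gN, momp]
    refine red_sum _ _ _ fun j hj => ?_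
    rw [Finset.mem_range] at hj
    have h1 := (Red_mul (Red_mul (Red_locR7 (p := p) hp8 hj) (Red_X (p := p)))
      (Red_pow (Red_lin (p := p) (j : ℤ)) m)) 2
    convert h1 using 2
    ring
  exact ne_zero_of_red (red_det2 hF hG 6) h (by omega)

end Z23
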