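import Pool.Agent.Lib.Z23.Defs
import Pool.Agent.Lib.Z579.Local2

/-!
# Z23: definitions for the nonvanishing (parameters `N = 7 p`, `s = p`, `K = 6 p`)
-/

open Polynomial Finset Z579 DIM3

namespace Z23

/-- adapted polynomials `∏_{c < p} (X - c)^(n c)` -/
noncomputable def PolyZ (p : ℕ) (n : ℕ → ℕ) : ℚ[X] :=
  ∏ c ∈ Finset.range p, (X - Polynomial.C (c : ℚ)) ^ (n c)

/-- `locR` modulo `p` -/
noncomputable def locRp (p : ℕ) [Fact p.Prime] (j : ℕ) : PowerSeries (ZMod p) :=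
  ((∏ i ∈ (Finset.range 7).erase j, linp p ((j : ℤ) - i))⁻¹) ^ 3

/-- `locF` modulo `p` -/
noncomputable def locFp (p : ℕ) [Fact p.Prime] (j : ℕ) : PowerSeries (ZMod p) :=
  ∑ i ∈ Finset.Ioc j 7, (linp p ((j : ℤ) - i))⁻¹

/-- the unit of the class `c` -/
noncomputable def Ku (p : ℕ) [Fact p.Prime] (n : ℕ → ℕ) (c : ℕ) : ZMod p :=
  ((∏ w ∈ (Finset.range (7 * p)).filter (fun w => w % p ≠ c), ((c : ZMod p) - w))⁻¹) ^ 3 *
    ∏ d ∈ (Finset.range p).erase c, ((c : ZMod p) - d) ^ (n d)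

/-- local moments modulo `p` with germs `V j` -/
noncomputable def momp (p : ℕ) [Fact p.Prime] (V : ℕ → PowerSeries (ZMod p)) (m : ℕ) : ZMod p :=
  ∑ j ∈ Finset.range 7, PowerSeries.coeff 2 (V j * (locRp p j * linp p (j : ℤ) ^ m))

end Z23
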