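import Pool.Agent.Lib.Z23.NVA
import Pool.Agent.Lib.Z23.NVB
import Pool.Agent.Lib.DIM3.NV4

/-!
# Z23, module NonVan: nonvanishing at the prime `p`, `N = 7p`, `s = p`, `K = 6p`
-/

open Polynomial Finset Z579 DIM3

namespace Z23

/-- exponents of the product of an adapted row and an adapted column polynomial -/
private def zn (c r c' j d : ℕ) : ℕ := (if d = c then r else 12) + (if d = c' then j else 6)

private lemma PolyZ_mul (p : ℕ) (n m : ℕ → ℕ) :
    PolyZ p n * PolyZ p m = PolyZ p (fun d => n d + m d) := by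
  unfold PolyZ
  rw [← Finset.prod_mul_distrib]
  exact Finset.prod_congr rfl fun c _ => (pow_add _ _ _).symm

private lemma natDegree_PolyZ_lt {p : ℕ} {n : ℕ → ℕ} {c M : ℕ} (hc : c < p) (hn : n c < M)
    (hd : ∀ d, d ≠ c → n d = M) : (PolyZ p n).natDegree < M * p := by
  have h1 : (PolyZ p n).natDegree ≤ ∑ d ∈ Finset.range p, n d := by
    refine (natDegree_prod_le _ _).trans (Finset.sum_le_sum fun d _ => ?_)
    refine natDegree_pow_le.trans ?_
    rw [natDegree_X_sub_C, mul_one]
  refine h1.trans_lt ?_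
  have h2 : ∑ d ∈ Finset.range p, M = M * p := by
    rw [Finset.sum_const, Finset.card_range, smul_eq_mul, mul_comm]
  rw [← h2]
  refine Finset.sum_lt_sum (fun d _ => ?_) ⟨c, Finset.mem_range.2 hc, hn⟩
  by_cases h : d = c
  · rw [h]; exact hn.le
  · rw [hd d h]

section
variable {p : ℕ} [hp : Fact p.Prime]

/-- the unit of the class `c` for the adapted polynomials -/
private noncomputable def Uz (p : ℕ) [Fact p.Prime] (c : ℕ) : ZMod p := Ku p (fun _ => 18) c

private lemma Ku_zn {c r j : ℕ} : Ku p (zn c r c j) c = Uz p c := by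
  unfold Uz Ku
  congr 1
  refine Finset.prod_congr rfl fun d hd => ?_
  have hne := (Finset.mem_erase.1 hd).1
  simp only [zn, if_neg hne]

private lemma Uz_ne {c : ℕ} (hc : c < p) : Uz p c ≠ 0 := by
  have key : ∀ w : ℕ, w % p ≠ c → (c : ZMod p) - w ≠ 0 := by
    intro w hw h
    have h1 : (c : ZMod p) = w := sub_eq_zero.1 h
    rw [ZMod.natCast_eq_natCast_iff'] at h1
    rw [Nat.mod_eq_of_lt hc] at h1
    exact hw h1.symm
  unfold Uz Ku
  refine mul_ne_zero (pow_ne_zero _ (inv_ne_zero (Finset.prod_ne_zero_iff.2 fun w hw => ?_)))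
    (Finset.prod_ne_zero_iff.2 fun d hd => pow_ne_zero _ ?_)
  · exact key w (Finset.mem_filter.1 hw).2
  · obtain ⟨hne, hd⟩ := Finset.mem_erase.1 hd
    refine key d ?_
    rw [Nat.mod_eq_of_lt (Finset.mem_range.1 hd)]
    exact hne

/-- the entries of the scaled matrix -/
private lemma entry_block (hp8 : 8 ≤ p) {ω : ℕ → ℕ → ℚ} {g τ : ℕ}
    {V : ℕ → PowerSeries (ZMod p)}
    (hw : ∀ c < p, ∀ j < 7, ∀ i : ℕ, 1 ≤ i → i ≤ 3 →
      ∃ w : ℚ, (p : ℚ) ^ i * ω (c + j * p) i = (p : ℚ) ^ g * w ∧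
        red p w (PowerSeries.coeff (i - 1) (V j)))
    {c c' r j : ℕ} (hc : c < p) (hr : r < 12) (hj : j < 6) (hτ : τ + g + r + j = 21) :
    red p ((p : ℚ) ^ τ * Lf (7 * p) ω (PolyZ p (zn c r c' j)))
      (if c = c' then Uz p c * momp p V (r + j) else 0) := by
  have hle : ∀ d, r + j ≤ zn c r c' j d := by
    intro d
    unfold zn
    split_ifs <;> omega
  have hlt : ∀ d, (c ≠ c' ∨ d ≠ c) → r + j < zn c r c' j d := by
    intro d h
    unfold zn
    split_ifs with h1 h2 h2
    · rcases h with h | h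
      · exact absurd (h1.symm.trans h2) h
      · exact absurd h1 h
    all_goals omega
  have key := entry (p := p) hp8 (ω := ω) (g := g) (τ := τ) (V := V) (n := zn c r c' j)
    (k := fun d => zn c r c' j d - (r + j)) hw (fun d _ => by have := hle d; omega)
  convert key using 1
  have hz : ∀ d, (c ≠ c' ∨ d ≠ c) → (0 : ZMod p) ^ (zn c r c' j d - (r + j)) *
      (Ku p (zn c r c' j) d * momp p V (zn c r c' j d)) = 0 := by
    intro d h
    have := hlt d h
    rw [zero_pow (by omega), zero_mul]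
  by_cases h : c = c'
  · subst h
    rw [if_pos rfl, Finset.sum_eq_single c (fun d _ hdc => hz d (Or.inr hdc))
      (fun h1 => absurd (Finset.mem_range.2 hc) h1)]
    have h1 : zn c r c j c = r + j := by simp [zn]
    rw [Ku_zn, h1, Nat.sub_self, pow_zero, one_mul]
  · rw [if_neg h, Finset.sum_eq_zero]
    intro d _
    exact hz d (Or.inl h)

/-! ### the index type -/

/-- column exponent -/
private def colz : Fin 6 ⊕ Fin 6 → ℕ := Sum.elim (fun j => (j : ℕ)) (fun j => (j : ℕ))

private lemma row_lt (x : Fin 6 ⊕ Fin 6) : row x < 12 := by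
  rcases x with x | x
  · have := x.2; simp only [row, Sum.elim_inl]; omega
  · have := x.2; simp only [row, Sum.elim_inr]; omega

private lemma colz_lt (x : Fin 6 ⊕ Fin 6) : colz x < 6 := by
  rcases x with x | x
  · exact x.2
  · exact x.2

/-- a local block -/
private noncomputable def zblk (U : ZMod p) (f g : ℕ → ZMod p) :
    Matrix (Fin 6 ⊕ Fin 6) (Fin 6 ⊕ Fin 6) (ZMod p) :=
  U • Matrix.of fun i c : Fin 6 ⊕ Fin 6 =>
    Sum.elim (fun j : Fin 6 => f (row i + j)) (fun j : Fin 6 => g (row i + j)) c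

private lemma zblk_det {U : ZMod p} {f g : ℕ → ZMod p} (hU : U ≠ 0)
    (hd : det2 f g 6 ≠ 0) : (zblk U f g).det ≠ 0 := by
  rw [zblk, Matrix.det_smul]
  exact mul_ne_zero (pow_ne_zero _ hU) hd

/-- the reduced matrix -/
private noncomputable def Mz (p : ℕ) [Fact p.Prime] :
    Matrix ((Fin 6 ⊕ Fin 6) × Fin p) ((Fin 6 ⊕ Fin 6) × Fin p) (ZMod p) :=
  Matrix.blockDiagonal fun c : Fin p =>
    zblk (Uz p c) (momp p (locFp p)) (momp p (fun _ => PowerSeries.X))

private lemma Mz_apply (α β : (Fin 6 ⊕ Fin 6) × Fin p) :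
    Mz p α β = if (α.2 : ℕ) = β.2 then Uz p α.2 *
      (if β.1.isRight then momp p (fun _ => PowerSeries.X) (row α.1 + colz β.1) else
        momp p (locFp p) (row α.1 + colz β.1)) else 0 := by
  rcases α with ⟨x, c⟩
  rcases β with ⟨y, d⟩
  rw [Mz, Matrix.blockDiagonal_apply]
  by_cases hcd : c = d
  · subst hcd
    rcases y with y | y
    · simp [zblk, colz]
    · simp [zblk, colz]
  · have : (c : ℕ) ≠ d := fun h => hcd (Fin.ext h)
    rw [if_neg hcd, if_neg this]

private lemma Mz_det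
    (hd : det2 (momp p (locFp p)) (momp p (fun _ => PowerSeries.X)) 6 ≠ 0) :
    (Mz p).det ≠ 0 := by
  rw [Mz, Matrix.det_blockDiagonal]
  exact Finset.prod_ne_zero_iff.2 fun c _ => zblk_det (Uz_ne c.2) hd

/-- the main step -/
private lemma nonvan_aux (hp8 : 8 ≤ p) {z b : ℚ} (hz : VG p 0 z) (hb : VG p 0 b)
    (hd : det2 (momp p (locFp p)) (momp p (fun _ => PowerSeries.X)) 6 ≠ 0) :
    hank2 (FA (7 * p) p z) (FB (7 * p) b) (6 * p) ≠ 0 := by
  intro h0
  set P : (Fin 6 ⊕ Fin 6) × Fin p → ℚ[X] :=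
    fun α => PolyZ p fun d => if d = (α.2 : ℕ) then row α.1 else 12 with hP
  set Q : (Fin 6 ⊕ Fin 6) × Fin p → ℚ[X] :=
    fun α => PolyZ p fun d => if d = (α.2 : ℕ) then colz α.1 else 6 with hQ
  have hdegP : ∀ α, (P α).natDegree < 6 * p + 6 * p := by
    intro α
    have h1 := natDegree_PolyZ_lt (n := fun d => if d = (α.2 : ℕ) then row α.1 else 12)
      (c := α.2) (M := 12) α.2.2 (by rw [if_pos rfl]; exact row_lt _)
      (fun d hdc => if_neg hdc)
    have h2 : 12 * p = 6 * p + 6 * p := by ring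
    rw [← h2]
    exact h1
  have hdegQ : ∀ α, (Q α).natDegree < 6 * p := by
    intro α
    exact natDegree_PolyZ_lt (n := fun d => if d = (α.2 : ℕ) then colz α.1 else 6)
      (c := α.2) (M := 6) α.2.2 (by rw [if_pos rfl]; exact colz_lt _)
      (fun d hdc => if_neg hdc)
  have hcard : Fintype.card ((Fin 6 ⊕ Fin 6) × Fin p) = 6 * p + 6 * p := by
    rw [Fintype.card_prod, Fintype.card_sum, Fintype.card_fin, Fintype.card_fin]
    ring
  have hdet := gram2 (FA (7 * p) p z) (FB (7 * p) b) (6 * p) P Q (fun β => β.1.isRight)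
    hdegP hdegQ hcard h0
  have hsc := det_scale (Matrix.of fun α β : (Fin 6 ⊕ Fin 6) × Fin p => if β.1.isRight then
    FB (7 * p) b (P α * Q β) else FA (7 * p) p z (P α * Q β))
    (fun α => (p : ℚ) ^ (11 - row α.1))
    (fun β => (p : ℚ) ^ (10 - (if β.1.isRight then 2 else 0) - colz β.1))
  rw [hdet, mul_zero, zero_mul] at hsc
  have hPQ : ∀ α β, P α * Q β =
      PolyZ p (zn α.2 (row α.1) β.2 (colz β.1)) := by
    intro α β
    rw [hP, hQ]
    simp only
    rw [PolyZ_mul]
    rfl
  have hred : red p 0 (Mz p).det := by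
    rw [← hsc]
    refine red_det _ _ fun α β => ?_
    rw [Mz_apply]
    simp only [Matrix.of_apply]
    rw [hPQ]
    have hR := row_lt α.1
    have hC := colz_lt β.1
    cases hB : β.1.isRight
    · simp only [Bool.false_eq_true, if_false]
      have key := entry_block (τ := 21 - row α.1 - colz β.1) (g := 0)
        hp8 (ω := wtA (7 * p) p z) (V := locFp p)
        (fun c hc j hj i hi hi3 => wA_red hp8 hz hc hj hi hi3) (c := α.2) (c' := β.2)
        α.2.2 hR hC (by omega)
      convert key using 1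
      rw [FA, mul_comm ((p : ℚ) ^ (11 - row α.1)), mul_assoc, mul_comm, ← pow_add]
      congr 2
      omega
    · simp only [if_true]
      have key := entry_block (τ := 19 - row α.1 - colz β.1) (g := 2)
        hp8 (ω := wtB b) (V := fun _ => PowerSeries.X)
        (fun c hc j hj i hi hi3 => wB_red hb hi hi3) (c := α.2) (c' := β.2)
        α.2.2 hR hC (by omega)
      convert key using 1
      rw [FB, mul_comm ((p : ℚ) ^ (11 - row α.1)), mul_assoc, mul_comm, ← pow_add]
      congr 2
      omega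
  exact Mz_det hd (red_unique hred red_zero)

omit hp in
private lemma VG_of_den {x : ℚ} (hx : x.den < p) : VG p 0 x := by
  right
  have h1 : ¬ p ∣ x.den := fun h => by
    have := Nat.le_of_dvd x.den_pos h
    omega
  have h2 : padicValRat p x = padicValInt p x.num := by
    rw [padicValRat, padicValNat.eq_zero_of_not_dvd h1]
    simp
  rw [h2]
  exact_mod_cast (Nat.zero_le _)

end

theorem nonVan : NonVan := by
  intro hLD z b
  obtain ⟨p₀, h8, hp₀⟩ := detp_ne hLD
  refine ⟨p₀ + z.den + b.den + 1, fun p hp hpp => ?_⟩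
  have : Fact p.Prime := ⟨hp⟩
  exact nonvan_aux (by omega) (VG_of_den (by omega)) (VG_of_den (by omega))
    (hp₀ p (by omega))

end Z23
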