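import Pool.Agent.Lib.Z23.Cls
import Pool.Agent.Lib.DIM3.Weight

/-!
# Z23, module PMid (about 130 lines): all classes

PROOF: port of `DIM3.pMid` (DIM3/PMid.lean, lines 95-194).  `hank2_eq` and `DIM3.d2a` (DIM3/Weight)
with `I = (Finset.range p).image (fun c => (c : ℤ))`, `x c = c`, `eA c = 3 cl p N c`,
`eB c = 3 cl p N c - 2`, `K' = K`, `lA = 3 N/p + 1 - 3 K/p`, `lB = lA - 2`.
Hypotheses: by `Lf_cls` it is enough to bound each `LfC p N c ω (∏ c', (X - c')^(n c'))`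
`= LfC p N c ω ((X - C c)^(n c) * (rest))`, `rest` is an `IPoly`; `clsVG` with `κ = 0` for `ωA` and
`κ = -2` for `ωB` (weight `i = 1` is zero, `i ≥ 2` has `-(i - 2) ≤ 0`).
The two terms coincide: `eA c + 1 - lA = eB c + 1 - lB = 3 (cl - N/p) + 3 K/p =: 3 d c + m`, so
`a^2 - a b + b^2 = (3 d c + m)^2`, `∑ d c = 0` (`sum_cl`), `∑ (d c)^2 = ρ (p-ρ)/p` (`sum_cl_sq`),
the total is `(2 lA - 2) K + 1/3 (9 ρ(p-ρ)/p + 9 K^2/p) = (6NK - 3K^2)/p + 3 ρ(p-ρ)/p`.
-/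

open Polynomial Finset Z579 DIM3

namespace Z23

/-- the index set -/
private def pmI (p : ℕ) : Finset ℤ := (Finset.range p).image (fun c : ℕ => (c : ℤ))

private lemma pmI_sum (p : ℕ) (f : ℤ → ℝ) : ∑ c ∈ pmI p, f c = ∑ c ∈ Finset.range p, f (c : ℤ) := by
  rw [pmI, Finset.sum_image]
  intro a _ b _ h
  exact Nat.cast_injective (R := ℤ) h

private lemma pm_class (p N : ℕ) (hp : p.Prime) (hN : N ≤ p ^ 2) (ω : ℕ → ℕ → ℚ) (κ : ℝ)
    (hω : ∀ u < N, ∀ i : ℕ, 1 ≤ i → i ≤ 3 → VG p (-((i : ℝ) + κ)) (ω u i)) (n : ℤ → ℕ) (t : ℝ)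
    (ht : ∀ c ∈ pmI p, t ≤ n c - (3 * (cl p N c.toNat : ℝ) + κ)) :
    VG p t (Lf N ω (∏ c ∈ pmI p, (X - Polynomial.C ((c : ℚ))) ^ (n c))) := by
  have := Fact.mk hp
  rw [Lf_cls p N hp.pos]
  refine VG.sum fun c hc => ?_
  have hcI : (c : ℤ) ∈ pmI p := Finset.mem_image_of_mem _ hc
  rw [← Finset.mul_prod_erase _ _ hcI]
  have h1 := clsVG p N c ω κ hp (Finset.mem_range.1 hc) hN
    (fun u hu _ i hi1 hi2 => hω u hu i hi1 hi2) (n (c : ℤ))
    (∏ c' ∈ (pmI p).erase (c : ℤ), (X - Polynomial.C ((c' : ℚ))) ^ (n c'))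
    (IPoly.prod fun c' _ => (IPoly.X_sub_C c').pow _)
  have h2 := ht _ hcI
  rw [Int.toNat_natCast] at h2
  have h3 : (((c : ℤ) : ℚ)) = (c : ℚ) := by push_cast; rfl
  rw [h3]
  exact h1.mono (by linarith)

theorem pMid : PMid := by
  intro p N K ωA ωB hp hpN hNp hωA hωB hωB1
  have hp0 : (0 : ℝ) < p := by exact_mod_cast hp.pos
  have hI : (pmI p).Nonempty := ⟨((0 : ℕ) : ℤ), Finset.mem_image_of_mem _
    (Finset.mem_range.2 hp.pos)⟩
  rw [hank2_eq]
  set lA : ℝ := 3 * (N : ℝ) / p + 1 - 3 * K / p with hlA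
  have h1 := d2a p (Lf N ωA) (Lf N ωB) (pmI p) (fun c => (c : ℚ))
    (fun c => 3 * (cl p N c.toNat : ℝ)) (fun c => 3 * (cl p N c.toNat : ℝ) - 2) K K lA (lA - 2)
    hp hI (by
      intro n t ht
      refine pm_class p N hp hNp ωA 0 (fun u hu i hi1 hi2 => ?_) n t (fun c hc => ?_)
      · simpa using hωA u hu i hi1 hi2
      · have := ht c hc
        linarith) (by
      intro n t ht
      refine pm_class p N hp hNp ωB (-2) (fun u hu i hi1 hi2 => ?_) n t (fun c hc => ?_)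
      · by_cases hi3 : i = 1
        · subst hi3
          exact Or.inl (hωB1 u hu)
        · refine (hωB u hu i hi1 hi2).mono ?_
          have : (2 : ℝ) ≤ i := by
            have : 2 ≤ i := by omega
            exact_mod_cast this
          linarith
      · have := ht c hc
        linarith)
  refine h1.mono (le_of_eq ?_)
  congr 1
  set d : ℕ → ℝ := fun c => (cl p N c : ℝ) - N / p with hd
  rw [pmI_sum]
  have hterm : ∀ c ∈ Finset.range p, ((3 * (cl p N (c : ℤ).toNat : ℝ) + 1 - lA) ^ 2 -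
      (3 * (cl p N (c : ℤ).toNat : ℝ) + 1 - lA) *
        (3 * (cl p N (c : ℤ).toNat : ℝ) - 2 + 1 - (lA - 2)) +
      (3 * (cl p N (c : ℤ).toNat : ℝ) - 2 + 1 - (lA - 2)) ^ 2) =
      9 * d c ^ 2 + (18 * K / p) * d c + (3 * K / p) ^ 2 := by
    intro c _
    rw [Int.toNat_natCast]
    simp only [hlA, hd]
    ring
  rw [Finset.sum_congr rfl hterm, Finset.sum_add_distrib, Finset.sum_add_distrib,
    ← Finset.mul_sum, ← Finset.mul_sum, Finset.sum_const, Finset.card_range, nsmul_eq_mul]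
  have hs1 : ∑ c ∈ Finset.range p, d c = 0 := by
    have h2 : ((∑ c ∈ Finset.range p, cl p N c : ℕ) : ℝ) = (N : ℝ) := by rw [sum_cl p N hp.pos]
    push_cast at h2
    simp only [hd]
    rw [Finset.sum_sub_distrib, h2, Finset.sum_const, Finset.card_range, nsmul_eq_mul]
    field_simp
    ring
  have hs2 : ∑ c ∈ Finset.range p, d c ^ 2 =
      ((N % p : ℕ) : ℝ) * (p - (N % p : ℕ)) / p := sum_cl_sq p N hp.pos
  rw [hs1, hs2]
  simp only [hlA]
  field_simp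
  ring

end Z23
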