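import Pool.Agent.Lib.Z23.Defs
import Pool.Agent.Lib.DIM3.Weight

/-!
# Z23, module PSmall (about 200 lines): small primes

Port of DIM3/PSmall.lean and of the section `small` of Z579/M6de.lean in the one-sided coordinate.
Let `κ = Nat.log p (4 (N + K))`, so `4 (N + K) < p^(κ+1)`.
Basis `PB i = ∏_{t < i} (X - C t)` for rows (`i < 2 K`) and columns.
-/

open Polynomial Finset Z579 DIM3

namespace Z23

section small

variable {p : ℕ} [hp : Fact p.Prime]

private lemma ps_aeval_factor (u c : ℤ) :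
    Polynomial.aeval (lin u) (X - Polynomial.C ((c : ℤ) : ℚ)) = lin (u - c) := by
  rw [map_sub, Polynomial.aeval_X, Polynomial.aeval_C, lin, lin]
  have h : algebraMap ℚ (PowerSeries ℚ) (c : ℚ) = PowerSeries.C (c : ℚ) := rfl
  rw [h]
  push_cast
  simp only [map_sub]
  ring

/-- the basis `∏_{l<i} (X - l)` -/
private noncomputable def psPB (i : ℕ) : ℚ[X] :=
  ∏ l ∈ Finset.range i, (X - Polynomial.C ((((l : ℕ) : ℤ)) : ℚ))

omit hp in
private lemma psPB_monic (i : ℕ) : (psPB i).Monic :=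
  monic_prod_of_monic _ _ fun _ _ => monic_X_sub_C _

omit hp in
private lemma psPB_natDegree (i : ℕ) : (psPB i).natDegree = i := by
  rw [psPB, natDegree_prod_of_monic _ _ fun _ _ => monic_X_sub_C _]
  simp only [natDegree_X_sub_C, Finset.sum_const, Finset.card_range, smul_eq_mul, mul_one]

private lemma psPB_WA {i K : ℕ} (hi : i < p ^ (K + 1)) (u : ℤ) :
    WA p K ((i : ℝ) / ((p : ℝ) - 1) - (K + 1)) (Polynomial.aeval (lin u) (psPB i)) := by
  rw [psPB, map_prod]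
  have h1 : WA p K (∑ l ∈ Finset.range i, (vK p K ((l : ℤ) - u) : ℝ))
      (∏ l ∈ Finset.range i, Polynomial.aeval (lin u)
        (X - Polynomial.C ((((l : ℕ) : ℤ)) : ℚ))) := by
    refine WA.prod fun l _ => ?_
    rw [ps_aeval_factor]
    refine WA.lin ?_ (by exact_mod_cast vK_le K _)
    have h2 := VG_vK (p := p) K (u - l)
    have h3 : vK p K (u - l) = vK p K ((l : ℤ) - u) := by
      rw [← vK_neg]; congr 1; ring
    rw [h3] at h2
    exact h2
  exact h1.mono (cons_sum_range (p := p) u i K hi)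

private lemma ps_sum_erase {N u : ℕ} (hu : u < N) :
    ∑ w ∈ (Finset.range N).erase u, (padicValRat p (((u : ℤ) - w : ℤ) : ℚ) : ℝ) ≤
      N / ((p : ℝ) - 1) := by
  have h0 : ∑ w ∈ (Finset.range N).erase u, (padicValRat p (((u : ℤ) - w : ℤ) : ℚ) : ℝ) =
      ∑ w ∈ Finset.Ico ((u : ℤ) - (u : ℕ)) u ∪ Finset.Ioc (u : ℤ) ((u : ℤ) + (N - 1 - u : ℕ)),
        (padicValRat p ((w - (u : ℤ) : ℤ) : ℚ) : ℝ) := by
    refine Finset.sum_nbij (fun l : ℕ => (l : ℤ)) ?_ ?_ ?_ ?_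
    · intro l hl
      rw [Finset.mem_erase, Finset.mem_range] at hl
      rw [Finset.mem_union, Finset.mem_Ico, Finset.mem_Ioc]
      omega
    · intro x _ y _ hxy
      have hxy' : (x : ℤ) = (y : ℤ) := hxy
      exact_mod_cast hxy'
    · intro x hx
      rw [Finset.mem_coe, Finset.mem_union, Finset.mem_Ico, Finset.mem_Ioc] at hx
      refine ⟨x.toNat, ?_, ?_⟩
      · rw [Finset.mem_coe, Finset.mem_erase, Finset.mem_range]; omega
      · show ((x.toNat : ℕ) : ℤ) = x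
        omega
    · intro w _
      have h1 : (((u : ℤ) - w : ℤ) : ℚ) = -((((w : ℤ) - u : ℤ)) : ℚ) := by push_cast; ring
      rw [h1, padicValRat.neg]
  have hd : Disjoint (Finset.Ico ((u : ℤ) - (u : ℕ)) u)
      (Finset.Ioc (u : ℤ) ((u : ℤ) + (N - 1 - u : ℕ))) := by
    rw [Finset.disjoint_left]
    intro x hx hx'
    rw [Finset.mem_Ico] at hx
    rw [Finset.mem_Ioc] at hx'
    omega
  rw [h0, Finset.sum_union hd, sum_left, sum_right]
  have h2 := fac_upper (p := p) (N - 1 - u)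
  have h3 := fac_upper (p := p) u
  have hp1 : (1 : ℝ) < p := by exact_mod_cast hp.out.one_lt
  have h4 : ((u : ℕ) : ℝ) + ((N - 1 - u : ℕ) : ℝ) ≤ N := by
    have : u + (N - 1 - u) ≤ N := by omega
    exact_mod_cast this
  have h5 : (((u : ℕ) : ℝ) + ((N - 1 - u : ℕ) : ℝ)) / ((p : ℝ) - 1) ≤ N / ((p : ℝ) - 1) :=
    div_le_div_of_nonneg_right h4 (by linarith)
  rw [add_div] at h5
  linarith

private lemma ps_base_WA {N K : ℕ} (hK : N < p ^ (K + 1)) {u : ℕ} (hu : u < N) :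
    WA p K (-(3 * (N / ((p : ℝ) - 1)))) (base N u) := by
  have h2 : WA p K (-(N / ((p : ℝ) - 1))) (∏ w ∈ (Finset.range N).erase u,
      lin ((u : ℤ) - w))⁻¹ := by
    have h3 : WA p K (∑ w ∈ (Finset.range N).erase u,
        -(padicValRat p (((u : ℤ) - w : ℤ) : ℚ) : ℝ))
        (∏ w ∈ (Finset.range N).erase u, lin ((u : ℤ) - w))⁻¹ := by
      rw [PS_prod_inv]
      refine WA.prod fun w hw => ?_
      rw [Finset.mem_erase, Finset.mem_range] at hw
      have hne : (u : ℤ) - w ≠ 0 := by omega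
      refine WA.lin_inv hne ?_
      rw [padicValRat.of_int, padicValInt]
      have h4 : padicValNat p ((u : ℤ) - w).natAbs ≤ K := by
        refine (padicValNat_le_nat_log _).trans ?_
        have h5 : ((u : ℤ) - w).natAbs < p ^ (K + 1) := by omega
        have h6 : ((u : ℤ) - w).natAbs ≠ 0 := by simpa using hne
        exact Nat.lt_succ_iff.1 ((Nat.log_lt_iff_lt_pow hp.out.one_lt h6).2 h5)
      exact_mod_cast h4
    refine h3.mono ?_
    rw [Finset.sum_neg_distrib]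
    have := ps_sum_erase (p := p) hu
    linarith
  rw [base]
  refine (h2.pow 3).mono (le_of_eq ?_)
  push_cast
  ring

/-- entry bound -/
private lemma ps_entry {N κ : ℕ} (ω : ℕ → ℕ → ℚ) (hκ : N < p ^ (κ + 1))
    (hω : ∀ u < N, ∀ i : ℕ, 1 ≤ i → i ≤ 3 → VG p (-((i : ℝ) * κ)) (ω u i))
    {i j : ℕ} (hi : i < p ^ (κ + 1)) (hj : j < p ^ (κ + 1)) :
    VG p (-(-((i : ℝ) / ((p : ℝ) - 1)) + (-((j : ℝ) / ((p : ℝ) - 1)) +
      (3 * N / ((p : ℝ) - 1) + 5 * κ + 2)))) (Lf N ω (psPB i * psPB j)) := by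
  have hp1 : (1 : ℝ) < p := by exact_mod_cast hp.out.one_lt
  rw [Lf_apply]
  refine VG.sum fun u hu => VG.sum fun k hk => ?_
  rw [Finset.mem_Icc] at hk
  rw [Finset.mem_range] at hu
  have h1 := ps_base_WA (p := p) (K := κ) hκ hu
  have h2 := psPB_WA (p := p) (K := κ) (i := i) hi u
  have h3 := psPB_WA (p := p) (K := κ) (i := j) hj u
  have h4 := (h1.mul (h2.mul h3)) (3 - k)
  rw [← map_mul] at h4
  rw [Ac_apply]
  have h5 := (hω u hu k hk.1 hk.2).mul h4
  refine VG.mono h5 ?_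
  rw [Nat.cast_sub hk.2]
  apply le_of_eq
  push_cast
  field_simp
  ring

end small

/-- small primes -/
theorem pSmall : PSmall := by
  refine ⟨10, by norm_num, ?_⟩
  intro p N K ωA ωB hp hN hK hA hB
  have := Fact.mk hp
  have hp1 : (1 : ℝ) < p := by exact_mod_cast hp.one_lt
  have hp2 : (2 : ℝ) ≤ p := by exact_mod_cast hp.two_le
  set κ := Nat.log p (4 * (N + K)) with hκdef
  have hlt : 4 * (N + K) < p ^ (κ + 1) := Nat.lt_pow_succ_log_self hp.one_lt _
  rw [hank2_eq]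
  have key := tbdet_VG (p := p) (Lf N ωA) (Lf N ωB) K K psPB psPB psPB
    psPB_monic psPB_natDegree psPB_monic psPB_natDegree psPB_monic psPB_natDegree
    (fun i => -((i : ℝ) / ((p : ℝ) - 1)))
    (fun j => -((j : ℝ) / ((p : ℝ) - 1)) + (3 * N / ((p : ℝ) - 1) + 5 * κ + 2))
    (fun j => -((j : ℝ) / ((p : ℝ) - 1)) + (3 * N / ((p : ℝ) - 1) + 5 * κ + 2))
    (fun i j hi hj => ps_entry ωA (by omega) hA (by omega) (by omega))
    (fun i j hi hj => ps_entry ωB (by omega) hB (by omega) (by omega))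
  refine key.mono ?_
  have s0 : ∀ n : ℕ, ∑ i ∈ Finset.range n, (i : ℝ) = (n : ℝ) * (n - 1) / 2 := by
    intro n
    induction n with
    | zero => simp
    | succ n ih => rw [Finset.sum_range_succ, ih]; push_cast; ring
  have s1 : ∑ i ∈ Finset.range (K + K), -((i : ℝ) / ((p : ℝ) - 1)) =
      -(K * (2 * K - 1) / ((p : ℝ) - 1)) := by
    rw [Finset.sum_neg_distrib, ← Finset.sum_div, s0]
    push_cast; ring
  have s2 : ∑ j ∈ Finset.range K, (-((j : ℝ) / ((p : ℝ) - 1)) +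
      (3 * N / ((p : ℝ) - 1) + 5 * κ + 2)) =
      -(K * (K - 1) / 2 / ((p : ℝ) - 1)) + K * (3 * N / ((p : ℝ) - 1) + 5 * κ + 2) := by
    rw [Finset.sum_add_distrib, Finset.sum_neg_distrib, ← Finset.sum_div,
      s0, Finset.sum_const, Finset.card_range, nsmul_eq_mul]
  rw [s1, s2]
  have hκ0 : (0 : ℝ) ≤ κ := Nat.cast_nonneg κ
  have hK0 : (0 : ℝ) ≤ K := Nat.cast_nonneg K
  have hdiv : (K : ℝ) / ((p : ℝ) - 1) ≤ K := by
    rw [div_le_iff₀ (by linarith)]
    nlinarith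
  have e1 : -(-(K * (2 * K - 1) / ((p : ℝ) - 1)) +
      (-(K * (K - 1) / 2 / ((p : ℝ) - 1)) + K * (3 * N / ((p : ℝ) - 1) + 5 * κ + 2)) +
      (-(K * (K - 1) / 2 / ((p : ℝ) - 1)) + K * (3 * N / ((p : ℝ) - 1) + 5 * κ + 2))) =
      -((6 * N * K - 3 * (K : ℝ) ^ 2) / ((p : ℝ) - 1)) - 2 * (K / ((p : ℝ) - 1)) -
        K * (10 * κ + 4) := by
    field_simp
    ring
  rw [e1]
  nlinarith

end Z23
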