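import Pool.Agent.Lib.Z23.PSumA
import Pool.Agent.Lib.DIM3.PSum

/-!
# Z23, module PSum (about 330 lines): the `p`-adic total

PROOF: port of DIM3/PSum.lean.  `N = 7 q`, `q = h k + 1`.  Ranges:
`p ≤ N/2`: `sum_half`;
`N/2 < p ≤ 16/21 N`: third hypothesis, `β p ≤ N f4(p/N)`, `f4 t = 8/7 + 9 (1 - t)`
(`K + 2 s = 8 q = 8/7 N`); `∫_{1/2}^{16/21} f4 = 88/294 + 9/2 (1/4 - 25/441)`;
`16/21 N < p ≤ N`: fourth hypothesis, `f5 t = 12 (1 - t) + 3/7`; `∫_{16/21}^1 f5 = 150/441 + 15/147`;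
`N < p ≤ 8/7 N`: last hypothesis (for `p < N + s`; for `p = N + s` there is nothing because
`N + s = 8 q` is not a prime), `f6 t = 3 (8/7 - t)`; `∫_1^{8/7} f6 = 3/98`.
The limits come from `m7bk` (prime number theorem) as in DIM3 (`PS f N ⌊α N⌋ ⌊β N⌋ / N → ∫_α^β f`),
`mertens57719 : MertensUB (57719/100000)`, `Gj`, `integral_gj`, `sum_Gj` (from 2: copy the proof).
Total: `(1/N^2) sum → 144/49 (log N - log 2 - c) + 3 (∑_{j=2}^{J-1} Gj j + 1/(8 J^2)) + 1.642007`.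
With `c = 0.57719`, `J = 32` (`log 32 = 5 log 2`): `49 * (constant) = -99.4709 < -99.4`.
Finally `N = 7 (h k + 1)`: `N^2 log N = 49 h^2 k^2 (log k + log (7 h)) + o(k^2)` (`tendsto_Nk`).
-/

open Filter Topology Finset MeasureTheory Z579 Z579.EM DIM3

namespace Z23

/-- integrand on `N/2 < p ≤ 16/21 N` -/
private noncomputable def r4 (t : ℝ) : ℝ := 8 / 7 + 9 * (1 - t)

/-- integrand on `16/21 N < p ≤ N` -/
private noncomputable def r5 (t : ℝ) : ℝ := 12 * (1 - t) + 3 / 7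

/-- integrand on `N < p ≤ 8/7 N` -/
private noncomputable def r6 (t : ℝ) : ℝ := 3 * (8 / 7 - t)

private lemma integral_r4 : ∫ t in (1 / 2 : ℝ)..(16 / 21), r4 t =
    88 / 294 + 9 / 2 * (1 / 4 - 25 / 441) := by
  have : ∀ t : ℝ, r4 t = (8 / 7 + 9) - 9 * t := by intro t; unfold r4; ring
  simp_rw [this]
  rw [integral_aff]
  norm_num

private lemma integral_r5 : ∫ t in (16 / 21 : ℝ)..1, r5 t = 150 / 441 + 15 / 147 := by
  have : ∀ t : ℝ, r5 t = (12 + 3 / 7) - 12 * t := by intro t; unfold r5; ring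
  simp_rw [this]
  rw [integral_aff]
  norm_num

private lemma integral_r6 : ∫ t in (1 : ℝ)..(8 / 7), r6 t = 3 / 98 := by
  have : ∀ t : ℝ, r6 t = 24 / 7 - 3 * t := by intro t; unfold r6; ring
  simp_rw [this]
  rw [integral_aff]
  norm_num

/-- the constant -/
private noncomputable def d1 (J : ℕ) (c : ℝ) : ℝ :=
  144 / 49 * (-Real.log 2 - c) + 3 * (∑ j ∈ Finset.Ico 2 J, Gj j + 1 / (8 * (J : ℝ) ^ 2)) +
    (88 / 294 + 9 / 2 * (1 / 4 - 25 / 441)) + (150 / 441 + 15 / 147) + 3 / 98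

/-- upper bound for the total, main term removed -/
private noncomputable def WN (C c ε : ℝ) (J N : ℕ) : ℝ :=
  (EN N * (Real.log (N / 2) - c + ε) - 144 / 49 * (N : ℝ) ^ 2 * Real.log N) +
      3 * (N * (∑ j ∈ Finset.Ico 2 J, PS (gj j) (N : ℝ) ⌊1 / ((j : ℝ) + 1) * (N : ℝ)⌋₊
        ⌊1 / (j : ℝ) * (N : ℝ)⌋₊ + 1 / 4 * PS (fun t => t) (N : ℝ) ⌊(0 : ℝ) * (N : ℝ)⌋₊
        ⌊1 / (J : ℝ) * (N : ℝ)⌋₊)) + errN C N +
  N * PS r4 (N : ℝ) ⌊1 / (2 : ℝ) * (N : ℝ)⌋₊ ⌊16 / (21 : ℝ) * (N : ℝ)⌋₊ +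
  N * PS r5 (N : ℝ) ⌊16 / (21 : ℝ) * (N : ℝ)⌋₊ ⌊(1 : ℝ) * (N : ℝ)⌋₊ +
  N * PS r6 (N : ℝ) ⌊(1 : ℝ) * (N : ℝ)⌋₊ ⌊8 / (7 : ℝ) * (N : ℝ)⌋₊

private lemma tendsto_WN (C c ε : ℝ) (hC : 0 ≤ C) (J : ℕ) (hJ : 2 ≤ J) :
    Tendsto (fun N : ℕ => WN C c ε J N / (N : ℝ) ^ 2) atTop (𝓝 (d1 J c + 144 / 49 * ε)) := by
  have hJ0 : (0 : ℝ) < J := by
    have : 0 < J := by omega
    exact_mod_cast this
  -- first term
  have k1 : Tendsto (fun _ : ℕ => 144 / 49 * (-Real.log 2 - c + ε)) atTop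
      (𝓝 (144 / 49 * (-Real.log 2 - c + ε))) := tendsto_const_nhds
  have k3 : Tendsto (fun N : ℕ => ∑ j ∈ Finset.Ico 2 J, PS (gj j) (N : ℝ)
      ⌊1 / ((j : ℝ) + 1) * (N : ℝ)⌋₊ ⌊1 / (j : ℝ) * (N : ℝ)⌋₊ / (N : ℝ)) atTop
      (𝓝 (∑ j ∈ Finset.Ico 2 J, Gj j)) := by
    refine tendsto_finsetSum _ fun j hj => ?_
    rw [Finset.mem_Ico] at hj
    have hj1 : 1 ≤ j := by omega
    have hj' : (0 : ℝ) < j := by exact_mod_cast hj1
    have h := m7bk (1 / ((j : ℝ) + 1)) (1 / (j : ℝ)) (gj j) (by positivity)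
      (one_div_le_one_div_of_le hj' (by linarith)) (gj_cont j)
    rw [integral_gj j hj1] at h
    exact h
  have k4 := m7bk 0 (1 / (J : ℝ)) (fun t => t) le_rfl (by positivity) continuousOn_id
  have i4 : ∫ t in (0 : ℝ)..(1 / (J : ℝ)), t = 1 / (2 * (J : ℝ) ^ 2) := by
    rw [integral_id]; field_simp; ring
  rw [i4] at k4
  have k5 := tendsto_errN C hC
  have k6 := m7bk (1 / 2) (16 / 21) r4 (by norm_num) (by norm_num) (by unfold r4; fun_prop)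
  rw [integral_r4] at k6
  have k8 := m7bk (16 / 21) 1 r5 (by norm_num) (by norm_num) (by unfold r5; fun_prop)
  rw [integral_r5] at k8
  have k9 := m7bk 1 (8 / 7) r6 (by norm_num) (by norm_num) (by unfold r6; fun_prop)
  rw [integral_r6] at k9
  have K := ((((k1.add ((k3.add (k4.const_mul (1 / 4 : ℝ))).const_mul (3 : ℝ))).add
    k5).add k6).add k8).add k9
  have hlim : 144 / 49 * (-Real.log 2 - c + ε) +
      3 * (∑ j ∈ Finset.Ico 2 J, Gj j + 1 / 4 * (1 / (2 * (J : ℝ) ^ 2))) +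
      0 + (88 / 294 + 9 / 2 * (1 / 4 - 25 / 441)) + (150 / 441 + 15 / 147) +
      3 / 98 = d1 J c + 144 / 49 * ε := by
    unfold d1
    field_simp
    ring
  rw [hlim] at K
  refine K.congr' ?_
  filter_upwards [eventually_gt_atTop 0] with N hN
  have hN' : (0 : ℝ) < N := by exact_mod_cast hN
  unfold WN
  rw [Real.log_div hN'.ne' (by norm_num), ← Finset.sum_div]
  unfold EN
  field_simp
  ring

/-- the total in terms of `N = 7 q` -/
private theorem psumN (J : ℕ) (hJ : 2 ≤ J) (c : ℝ) (hMert : MertensUB c) (C δ : ℝ) (hC : 0 ≤ C)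
    (hδ : 0 < δ) : ∃ N0 : ℕ, ∀ N s K q : ℕ, N0 ≤ N → N = 7 * q → s = q → K = 6 * q →
  ∀ β : ℕ → ℝ,
  (∀ p : ℕ, p.Prime → p ^ 2 < N + s →
    β p ≤ (6 * N * K - 3 * (K : ℝ) ^ 2) / (p - 1) + C * (1 + Nat.log p (4 * (N + K))) * K) →
  (∀ p : ℕ, p.Prime → N + s ≤ p ^ 2 → 2 * p ≤ N →
    β p ≤ (6 * N * K - 3 * (K : ℝ) ^ 2) / p +
      3 * (((N % p : ℕ) : ℝ) * (p - (N % p : ℕ)) / p)) →
  (∀ p : ℕ, p.Prime → N < 2 * p → p ≤ N → β p ≤ K + 9 * ((N : ℝ) - p) + 2 * s) →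
  (∀ p : ℕ, p.Prime → N < 2 * p → p ≤ N → β p ≤ 12 * ((N : ℝ) - p) + 3 * s) →
  (∀ p : ℕ, p.Prime → N < p → p < N + s → β p ≤ 3 * ((N : ℝ) + s - p)) →
  ∑ p ∈ (Finset.Icc 1 (N + s)).filter Nat.Prime, β p * Real.log p ≤
    (N : ℝ) ^ 2 * (144 / 49 * Real.log N + d1 J c + δ) := by
  obtain ⟨ε, hε, hεδ⟩ : ∃ ε : ℝ, 0 < ε ∧ 144 / 49 * ε < δ :=
    ⟨δ / 20, by positivity, by linarith⟩
  have hlim := tendsto_WN C c ε hC J hJ
  have hev := hlim.eventually_lt_const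
    (show d1 J c + 144 / 49 * ε < d1 J c + δ by linarith)
  rw [eventually_atTop] at hev
  obtain ⟨n₁, hn₁⟩ := hev
  obtain ⟨n₂, hn₂⟩ := hMert ε hε
  refine ⟨max n₁ (max (3 * n₂ + 3) 3), fun N s K q hN hNq hs hK β h1 h2 h3 h4 h5 => ?_⟩
  have hN1 : n₁ ≤ N := (le_max_left _ _).trans hN
  have hN2 : 3 * n₂ + 3 ≤ N := ((le_max_left _ _).trans (le_max_right _ _)).trans hN
  have hN3 : 3 ≤ N := ((le_max_right _ _).trans (le_max_right _ _)).trans hN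
  have hNr : (3 : ℝ) ≤ N := by exact_mod_cast hN3
  have hN0 : (0 : ℝ) < N := by linarith
  have hq1 : 1 ≤ q := by omega
  have hNq' : (N : ℝ) = 7 * q := by rw [hNq]; push_cast; ring
  have hsq' : (s : ℝ) = q := by rw [hs]
  have hKq' : (K : ℝ) = 6 * q := by rw [hK]; push_cast; ring
  have hfl2 : n₂ ≤ ⌊1 / (2 : ℝ) * (N : ℝ)⌋₊ := by
    rw [Nat.le_floor_iff (by positivity)]
    have : (3 * n₂ + 3 : ℝ) ≤ N := by exact_mod_cast hN2
    have h0 : (0 : ℝ) ≤ n₂ := Nat.cast_nonneg _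
    linarith
  have hM := hn₂ _ hfl2
  have s1 := sum_half C c ε hC J N s K q hNq hs hK hq1 hJ β hM h1 h2
  -- floors
  have m1 : ⌊1 / (2 : ℝ) * (N : ℝ)⌋₊ ≤ ⌊16 / (21 : ℝ) * (N : ℝ)⌋₊ :=
    Nat.floor_le_floor (mul_le_mul_of_nonneg_right (by norm_num) hN0.le)
  have m2 : ⌊16 / (21 : ℝ) * (N : ℝ)⌋₊ ≤ N := by
    calc ⌊16 / (21 : ℝ) * (N : ℝ)⌋₊ ≤ ⌊(N : ℝ)⌋₊ := Nat.floor_le_floor (by linarith)
      _ = N := Nat.floor_natCast N
  have m3 : N ≤ N + s := Nat.le_add_right _ _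
  have e1N : ⌊(1 : ℝ) * (N : ℝ)⌋₊ = N := by rw [one_mul, Nat.floor_natCast]
  have e8N : ⌊8 / (7 : ℝ) * (N : ℝ)⌋₊ = N + s := by
    have : 8 / (7 : ℝ) * (N : ℝ) = ((N + s : ℕ) : ℝ) := by
      push_cast
      rw [hsq', hNq']
      ring
    rw [this, Nat.floor_natCast]
  have b4 : ∑ p ∈ (Finset.Ioc ⌊1 / (2 : ℝ) * (N : ℝ)⌋₊ ⌊16 / (21 : ℝ) * (N : ℝ)⌋₊).filter Nat.Prime,
      β p * Real.log p ≤ N * PS r4 (N : ℝ) ⌊1 / (2 : ℝ) * (N : ℝ)⌋₊ ⌊16 / (21 : ℝ) * (N : ℝ)⌋₊ := by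
    unfold PS
    rw [Finset.mul_sum]
    refine Finset.sum_le_sum fun p hp => ?_
    rw [Finset.mem_filter, Finset.mem_Ioc] at hp
    have hlp : 0 ≤ Real.log p := Real.log_natCast_nonneg p
    have u1 : 1 / (2 : ℝ) * N < p := Nat.lt_of_floor_lt hp.1.1
    have u4 : N < 2 * p := by
      have : (N : ℝ) < 2 * p := by linarith
      exact_mod_cast this
    have u6 : p ≤ N := hp.1.2.trans m2
    have u5 := mul_le_mul_of_nonneg_right (h3 p hp.2 u4 u6) hlp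
    refine u5.trans (le_of_eq ?_)
    unfold r4
    have h7 : (K : ℝ) = 6 / 7 * N := by rw [hKq', hNq']; ring
    have h8 : (s : ℝ) = 1 / 7 * N := by rw [hsq', hNq']; ring
    rw [h7, h8]
    field_simp
    ring
  have b5 : ∑ p ∈ (Finset.Ioc ⌊16 / (21 : ℝ) * (N : ℝ)⌋₊ N).filter Nat.Prime,
      β p * Real.log p ≤ N * PS r5 (N : ℝ) ⌊16 / (21 : ℝ) * (N : ℝ)⌋₊ ⌊(1 : ℝ) * (N : ℝ)⌋₊ := by
    rw [e1N]
    unfold PS
    rw [Finset.mul_sum]
    refine Finset.sum_le_sum fun p hp => ?_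
    rw [Finset.mem_filter, Finset.mem_Ioc] at hp
    have hlp : 0 ≤ Real.log p := Real.log_natCast_nonneg p
    have u1 : 16 / (21 : ℝ) * N < p := Nat.lt_of_floor_lt hp.1.1
    have u4 : N < 2 * p := by
      have : (N : ℝ) < 2 * p := by linarith
      exact_mod_cast this
    have u6 : p ≤ N := hp.1.2
    have u5 := mul_le_mul_of_nonneg_right (h4 p hp.2 u4 u6) hlp
    refine u5.trans (le_of_eq ?_)
    unfold r5
    have h8 : (s : ℝ) = 1 / 7 * N := by rw [hsq', hNq']; ring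
    rw [h8]
    field_simp
  have b6 : ∑ p ∈ (Finset.Ioc N (N + s)).filter Nat.Prime,
      β p * Real.log p ≤ N * PS r6 (N : ℝ) ⌊(1 : ℝ) * (N : ℝ)⌋₊ ⌊8 / (7 : ℝ) * (N : ℝ)⌋₊ := by
    rw [e1N, e8N]
    unfold PS
    rw [Finset.mul_sum]
    refine Finset.sum_le_sum fun p hp => ?_
    rw [Finset.mem_filter, Finset.mem_Ioc] at hp
    have hlp : 0 ≤ Real.log p := Real.log_natCast_nonneg p
    have u6 : p < N + s := by
      rcases Nat.lt_or_ge p (N + s) with h | h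
      · exact h
      · exfalso
        have h9 : p = 8 * q := by omega
        have h10 : 8 ∣ p := ⟨q, h9⟩
        have h11 : 2 ∣ p := dvd_trans (by norm_num) h10
        have h12 := (Nat.prime_dvd_prime_iff_eq Nat.prime_two hp.2).1 h11
        omega
    have u5 := mul_le_mul_of_nonneg_right (h5 p hp.2 hp.1.1 u6) hlp
    refine u5.trans (le_of_eq ?_)
    unfold r6
    have h8 : (s : ℝ) = 1 / 7 * N := by rw [hsq', hNq']; ring
    rw [h8]
    field_simp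
    ring
  have hIcc : Finset.Icc 1 (N + s) = Finset.Ioc 0 (N + s) := by
    ext x; simp [Nat.succ_le_iff]
  rw [hIcc, Finset.sum_filter, ← Finset.sum_Ioc_consecutive _ (Nat.zero_le _) (m1.trans (m2.trans m3)),
    ← Finset.sum_Ioc_consecutive _ m1 (m2.trans m3), ← Finset.sum_Ioc_consecutive _ m2 m3,
    ← Finset.sum_filter, ← Finset.sum_filter, ← Finset.sum_filter, ← Finset.sum_filter]
  have hfin := hn₁ N hN1
  rw [div_lt_iff₀ (by positivity)] at hfin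
  unfold WN at hfin
  linarith [s1, b4, b5, b6, hfin]

/-- `N = 7 q` in terms of `k` -/
private def Mk (h k : ℕ) : ℕ := 7 * (h * k + 1)

private lemma tendsto_Mk (h : ℕ) (hh : 1 ≤ h) (c : ℝ) :
    Tendsto (fun k : ℕ => (((Mk h k : ℕ) : ℝ) ^ 2 * (144 / 49 * Real.log (Mk h k : ℕ) + c) -
      144 * (h : ℝ) ^ 2 * k ^ 2 * Real.log k) / (k : ℝ) ^ 2) atTop
      (𝓝 ((h : ℝ) ^ 2 * (144 * Real.log (7 * h) + 49 * c))) := by
  have hm' : (0 : ℝ) < h := by exact_mod_cast hh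
  have hNk : ∀ k : ℕ, ((Mk h k : ℕ) : ℝ) = 7 * h * k + 7 := by intro k; unfold Mk; push_cast; ring
  simp_rw [hNk]
  have h0 : Tendsto (fun k : ℕ => 7 * (h : ℝ) + 7 * ((k : ℝ))⁻¹) atTop (𝓝 (7 * h + 7 * 0)) :=
    tendsto_const_nhds.add (tendsto_invk.const_mul _)
  rw [mul_zero, add_zero] at h0
  have h1 := h0.log (by positivity)
  have hl := tendsto_logK 1 (by norm_num)
  simp only [one_mul] at hl
  have h2 : Tendsto (fun k : ℕ => 144 / 49 * (98 * h * (Real.log k / √(k : ℝ) * (√(k : ℝ))⁻¹) +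
      49 * (Real.log k / √(k : ℝ) * (√(k : ℝ))⁻¹ * ((k : ℝ))⁻¹))) atTop
      (𝓝 (144 / 49 * (98 * h * (0 * 0) + 49 * (0 * 0 * 0)))) :=
    (((hl.mul tendsto_inv_sqrtk).const_mul _).add
      (((hl.mul tendsto_inv_sqrtk).mul tendsto_invk).const_mul _)).const_mul _
  have h3 := ((h0.pow 2).mul ((h1.const_mul (144 / 49 : ℝ)).add_const c)).add h2
  have hlim : (7 * (h : ℝ)) ^ 2 * (144 / 49 * Real.log (7 * h) + c) +
      144 / 49 * (98 * h * (0 * 0) + 49 * (0 * 0 * 0)) =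
      (h : ℝ) ^ 2 * (144 * Real.log (7 * h) + 49 * c) := by ring
  rw [hlim] at h3
  refine h3.congr' ?_
  filter_upwards [eventually_gt_atTop 0] with k hk
  have hk' : (0 : ℝ) < k := by exact_mod_cast hk
  have hs : 0 < √(k : ℝ) := Real.sqrt_pos.mpr hk'
  have hsq : √(k : ℝ) * √(k : ℝ) = k := Real.mul_self_sqrt hk'.le
  have e1 : Real.log k / √(k : ℝ) * (√(k : ℝ))⁻¹ = Real.log k / k := by
    rw [← div_eq_mul_inv, div_div, hsq]
  rw [e1]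
  have e2 : Real.log (7 * h + 7 * ((k : ℝ))⁻¹) = Real.log (7 * h * k + 7) - Real.log k := by
    rw [← Real.log_div (by positivity) hk'.ne']
    congr 1
    field_simp
  rw [e2]
  field_simp
  ring

/-- `PSum` with the explicit constant -/
private theorem psum_gen' (J : ℕ) (hJ : 2 ≤ J) (c : ℝ) (hMert : MertensUB c) (h : ℕ) (hh : 1 ≤ h) :
    PSum h ((h : ℝ) ^ 2 * (144 * Real.log (7 * h) + 49 * d1 J c)) := by
  intro C δ hC hδ
  have hm' : (0 : ℝ) < h := by exact_mod_cast hh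
  set δ' := δ / (98 * (h : ℝ) ^ 2) with hδ'
  have hδ'0 : 0 < δ' := by positivity
  obtain ⟨N0, hN0⟩ := psumN J hJ c hMert C δ' hC hδ'0
  have hlim := tendsto_Mk h hh (d1 J c + δ')
  have e1 : (h : ℝ) ^ 2 * (144 * Real.log (7 * h) + 49 * (d1 J c + δ')) =
      (h : ℝ) ^ 2 * (144 * Real.log (7 * h) + 49 * d1 J c) + δ / 2 := by
    rw [hδ']
    field_simp
    ring
  rw [e1] at hlim
  have hev := hlim.eventually_lt_const
    (show _ < (h : ℝ) ^ 2 * (144 * Real.log (7 * h) + 49 * d1 J c) + δ by linarith)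
  rw [eventually_atTop] at hev
  obtain ⟨k1, hk1⟩ := hev
  refine ⟨max k1 (max N0 1), fun k hk N s K hN hs hK β h1 h2 h3 h4 h5 => ?_⟩
  have hk1' : k1 ≤ k := (le_max_left _ _).trans hk
  have hkN : N0 ≤ k := ((le_max_left _ _).trans (le_max_right _ _)).trans hk
  have hk1'' : 1 ≤ k := ((le_max_right _ _).trans (le_max_right _ _)).trans hk
  have hkr : (0 : ℝ) < k := by exact_mod_cast hk1''
  have hNN : N0 ≤ Mk h k := by
    unfold Mk
    nlinarith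
  have hNM : N = Mk h k := hN
  have hh' := hN0 N s K (h * k + 1) (by rw [hNM]; exact hNN) hN hs hK β h1 h2 h3 h4 h5
  have hf := hk1 k hk1'
  rw [div_lt_iff₀ (by positivity)] at hf
  rw [hNM] at hh' ⊢
  have e2 : 144 / 49 * Real.log (Mk h k : ℕ) + d1 J c + δ' =
      144 / 49 * Real.log (Mk h k : ℕ) + (d1 J c + δ') := by ring
  rw [e2] at hh'
  linarith

private lemma sum_Gj2 (J : ℕ) (hJ : 2 ≤ J) :
    ∑ j ∈ Finset.Ico 2 J, Gj j = ∑ j ∈ Finset.Ico 2 J, 1 / 2 * (1 / (j : ℝ) + 1 / ((j : ℝ) + 1)) -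
      (Real.log J - Real.log 2) := by
  induction J, hJ using Nat.le_induction with
  | base => norm_num
  | succ J hJ ih =>
    rw [Finset.sum_Ico_succ_top hJ, Finset.sum_Ico_succ_top hJ, ih]
    unfold Gj
    push_cast
    ring

private lemma d1_num : 49 * d1 32 (57719 / 100000) ≤ -994 / 10 := by
  unfold d1
  rw [sum_Gj2 32 (by norm_num)]
  have e : Real.log ((32 : ℕ) : ℝ) = 5 * Real.log 2 := by
    rw [show (((32 : ℕ) : ℝ)) = 2 ^ 5 by norm_num, Real.log_pow]; norm_num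
  rw [e]
  have h3 := Real.log_two_gt_d9
  have h4 : ∑ j ∈ (Finset.Ico 2 32 : Finset ℕ), 1 / 2 * (1 / (j : ℝ) + 1 / ((j : ℝ) + 1)) ≤
      279288 / 100000 := by
    simp only [Finset.sum_Ico_eq_sum_range, Finset.sum_range_succ, Finset.sum_range_zero]
    norm_num
  push_cast
  linarith

private lemma psum_mono {m : ℕ} {P P' : ℝ} (h : PSum m P) (hP : P ≤ P') : PSum m P' := by
  intro C δ hC hδ
  obtain ⟨k0, hk0⟩ := h C δ hC hδ
  refine ⟨k0, fun k hk N s K hN hs hK β h1 h2 h3 h4 h5 =>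
    (hk0 k hk N s K hN hs hK β h1 h2 h3 h4 h5).trans ?_⟩
  have : (0 : ℝ) ≤ (k : ℝ) ^ 2 := by positivity
  nlinarith

theorem psum (h : ℕ) (hh : 1 ≤ h) :
    PSum h ((h : ℝ) ^ 2 * (144 * Real.log (7 * h) - 994 / 10)) := by
  refine psum_mono (psum_gen' 32 (by norm_num) _ mertens57719 h hh) ?_
  have := d1_num
  have h2 : 0 ≤ (h : ℝ) ^ 2 := by positivity
  nlinarith

end Z23
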