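import Pool.Agent.Lib.Z23.Defs
import Pool.Agent.Lib.DIM3.PSumA

/-!
# Z23, module PSumA (about 330 lines): the primes `p ≤ N/2`

PROOF: port of DIM3/PSumA.lean (`point_small`, `sum_rho`, `tendsto_errN`, `sum_third`); `rhoN`,
`gj`, `PS` are those of DIM3.  Differences: the blocks start at `j = 2` (not 3); no terms `-K` and
`1/6 (..)^2`; `7 N = ...` : `N = 7 q`, `s = q`, `K = 6 q`, so `6 N K - 3 K^2 = 144 q^2 = EN N`.
`point_small`: for a prime `p ≤ N` and `b` with the two hypotheses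
`b log p ≤ EN N * (log p/(p-1)) + 3 (rhoN N p * log p) +
(if p ≤ Nat.sqrt (2 N) then 2 C N log (8 N) else 0)`: if `p^2 < N + s ≤ 2 N` use
`(1 + Nat.log p (4 (N+K))) log p ≤ 2 log (8 N)` and `K ≤ N`; otherwise `1/p ≤ 1/(p-1)`.
`sum_rho` from 2: the proof of `DIM3.sum_rho` with 3 replaced by 2.
-/

open Filter Topology Finset MeasureTheory Z579 Z579.EM DIM3

namespace Z23

/-- `6 N K - 3 K^2` -/
noncomputable def EN (N : ℕ) : ℝ := 144 / 49 * (N : ℝ) ^ 2

/-- the error term -/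
noncomputable def errN (C : ℝ) (N : ℕ) : ℝ :=
  Nat.sqrt (2 * N) * (2 * C * N * Real.log (8 * N))

private lemma psa_EN_nonneg (N : ℕ) : 0 ≤ EN N := by unfold EN; positivity

private lemma psa_EN_eq (N K q : ℕ) (hN : N = 7 * q) (hK : K = 6 * q) :
    (6 * N * K - 3 * (K : ℝ) ^ 2) = EN N := by
  subst hN hK
  unfold EN
  push_cast
  ring

private lemma psa_point (C : ℝ) (hC : 0 ≤ C) (N s K q : ℕ) (hN : N = 7 * q) (hs : s = q)
    (hK : K = 6 * q) (hq : 1 ≤ q) (b : ℝ) (p : ℕ) (hp : p.Prime) (hpN : p ≤ N)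
    (h1 : p ^ 2 < N + s → b ≤ (6 * N * K - 3 * (K : ℝ) ^ 2) / (p - 1) +
      C * (1 + Nat.log p (4 * (N + K))) * K)
    (h2 : N + s ≤ p ^ 2 → b ≤ (6 * N * K - 3 * (K : ℝ) ^ 2) / p +
        3 * (((N % p : ℕ) : ℝ) * (p - (N % p : ℕ)) / p)) :
    b * Real.log p ≤ EN N * (Real.log p / (p - 1)) + 3 * (rhoN N p * Real.log p) +
      (if p ≤ Nat.sqrt (2 * N) then 2 * C * N * Real.log (8 * N) else 0) := by
  have hKN : (K : ℝ) ≤ N := by
    have : K ≤ N := by omega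
    exact_mod_cast this
  have hNr : (1 : ℝ) ≤ N := by
    have : 1 ≤ N := by omega
    exact_mod_cast this
  have hN0 : (0 : ℝ) < N := by linarith
  have hK0 : (0 : ℝ) ≤ K := Nat.cast_nonneg K
  have hp2 : (2 : ℝ) ≤ p := by exact_mod_cast hp.two_le
  have hp0 : (0 : ℝ) < p := by linarith
  have hp1 : (0 : ℝ) < p - 1 := by linarith
  have hlp : 0 ≤ Real.log p := Real.log_natCast_nonneg p
  have hE := psa_EN_nonneg N
  have hr := rhoN_nonneg N p hp.pos
  rw [psa_EN_eq N K q hN hK] at h1 h2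
  set X := 4 * (N + K) with hX
  have hXr : (X : ℝ) ≤ 8 * N := by
    rw [hX]; push_cast
    linarith
  have hX0 : (0 : ℝ) < X := by
    have : 0 < X := by omega
    exact_mod_cast this
  have hlogX : Real.log X ≤ Real.log (8 * N) := Real.log_le_log hX0 hXr
  have hlogp : Real.log p ≤ Real.log (8 * N) := by
    apply Real.log_le_log hp0
    have : (p : ℝ) ≤ N := by exact_mod_cast hpN
    linarith
  have hL0 : 0 ≤ Real.log (8 * N) := hlp.trans hlogp
  have q1 : 0 ≤ 3 * (rhoN N p * Real.log p) := by positivity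
  by_cases hc : p ^ 2 < N + s
  · have hb := h1 hc
    have hsq : p ≤ Nat.sqrt (2 * N) := by
      rw [Nat.le_sqrt, ← pow_two]
      omega
    rw [if_pos hsq]
    have hXne : X ≠ 0 := by omega
    have hlog : (Nat.log p X : ℝ) * Real.log p ≤ Real.log (X : ℝ) := by
      rw [← Real.log_pow]
      refine Real.log_le_log (pow_pos hp0 _) ?_
      exact_mod_cast Nat.pow_log_le_self p hXne
    have hm := mul_le_mul_of_nonneg_right hb hlp
    have e1 : (EN N / (p - 1) + C * (1 + (Nat.log p X : ℝ)) * K) * Real.log p =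
        EN N * (Real.log p / (p - 1)) +
          C * K * (Real.log p + (Nat.log p X : ℝ) * Real.log p) := by ring
    rw [e1] at hm
    have e2 : C * K * (Real.log p + (Nat.log p X : ℝ) * Real.log p) ≤
        C * K * (2 * Real.log (8 * N)) :=
      mul_le_mul_of_nonneg_left (by linarith) (by positivity)
    have e3 : C * K * (2 * Real.log (8 * N)) ≤ C * N * (2 * Real.log (8 * N)) :=
      mul_le_mul_of_nonneg_right (mul_le_mul_of_nonneg_left hKN hC) (by positivity)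
    linarith
  · push Not at hc
    have hb := h2 hc
    have q5 : 0 ≤ (if p ≤ Nat.sqrt (2 * N) then 2 * C * (N : ℝ) * Real.log (8 * N) else 0) := by
      split_ifs
      · positivity
      · exact le_rfl
    have hm := mul_le_mul_of_nonneg_right hb hlp
    have e4 : EN N / p ≤ EN N / (p - 1) :=
      div_le_div_of_nonneg_left hE hp1 (by linarith)
    have e5 := mul_le_mul_of_nonneg_right e4 hlp
    have e7 : EN N / (p - 1) * Real.log p = EN N * (Real.log p / (p - 1)) := by ring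
    have e9 : (EN N / p + 3 * (((N % p : ℕ) : ℝ) * (p - (N % p : ℕ)) / p)) * Real.log p =
      EN N / p * Real.log p + 3 * (rhoN N p * Real.log p) := by
      unfold rhoN
      ring
    rw [e9] at hm
    linarith

private lemma psa_rho (N J : ℕ) (hN : 0 < N) (hJ : 2 ≤ J) :
    ∑ p ∈ (Finset.Ioc 0 ⌊1 / (2 : ℝ) * (N : ℝ)⌋₊).filter Nat.Prime, rhoN N p * Real.log p ≤
      N * (∑ j ∈ Finset.Ico 2 J, PS (gj j) (N : ℝ) ⌊1 / ((j : ℝ) + 1) * (N : ℝ)⌋₊
        ⌊1 / (j : ℝ) * (N : ℝ)⌋₊ + 1 / 4 * PS (fun t => t) (N : ℝ) ⌊(0 : ℝ) * (N : ℝ)⌋₊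
        ⌊1 / (J : ℝ) * (N : ℝ)⌋₊) := by
  have hN' : (0 : ℝ) < N := by exact_mod_cast hN
  have key : ∀ J : ℕ, 2 ≤ J → ∑ p ∈ (Finset.Ioc ⌊1 / (J : ℝ) * (N : ℝ)⌋₊
      ⌊1 / (2 : ℝ) * (N : ℝ)⌋₊).filter Nat.Prime, rhoN N p * Real.log p =
      N * ∑ j ∈ Finset.Ico 2 J, PS (gj j) (N : ℝ) ⌊1 / ((j : ℝ) + 1) * (N : ℝ)⌋₊
        ⌊1 / (j : ℝ) * (N : ℝ)⌋₊ := by
    intro J hJ
    induction J, hJ using Nat.le_induction with
    | base => norm_num
    | succ J hJ ih =>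
      have hJ' : (0 : ℝ) < J := by
        have : 0 < J := by omega
        exact_mod_cast this
      have hJ3 : (2 : ℝ) ≤ J := by exact_mod_cast hJ
      have hle : (1 : ℝ) / (J + 1) ≤ 1 / J := one_div_le_one_div_of_le hJ' (by linarith)
      have hle3 : (1 : ℝ) / J ≤ 1 / 2 := one_div_le_one_div_of_le (by norm_num) hJ3
      have m1 : ⌊1 / ((J : ℝ) + 1) * (N : ℝ)⌋₊ ≤ ⌊1 / (J : ℝ) * (N : ℝ)⌋₊ :=
        Nat.floor_le_floor (mul_le_mul_of_nonneg_right hle hN'.le)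
      have m2 : ⌊1 / (J : ℝ) * (N : ℝ)⌋₊ ≤ ⌊1 / (2 : ℝ) * (N : ℝ)⌋₊ :=
        Nat.floor_le_floor (mul_le_mul_of_nonneg_right hle3 hN'.le)
      push_cast
      rw [Finset.sum_filter, ← Finset.sum_Ioc_consecutive _ m1 m2, ← Finset.sum_filter,
        ← Finset.sum_filter, ih, Finset.sum_Ico_succ_top hJ, mul_add, add_comm]
      refine congrArg₂ (· + ·) rfl ?_
      unfold PS
      rw [Finset.mul_sum]
      refine Finset.sum_congr rfl fun p hp => ?_
      rw [Finset.mem_filter, Finset.mem_Ioc] at hp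
      have h1 : 1 / ((J : ℝ) + 1) * (N : ℝ) < p := Nat.lt_of_floor_lt hp.1.1
      have h2 : (p : ℝ) ≤ 1 / (J : ℝ) * (N : ℝ) :=
        (Nat.le_floor_iff (by positivity)).mp hp.1.2
      have h3 : J * p ≤ N := by
        have : (J : ℝ) * p ≤ N := by
          rw [one_div, inv_mul_eq_div, le_div_iff₀ hJ'] at h2
          linarith
        exact_mod_cast this
      have h4 : N < (J + 1) * p := by
        have : (N : ℝ) < ((J : ℝ) + 1) * p := by
          rw [one_div, inv_mul_eq_div, div_lt_iff₀ (by linarith)] at h1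
          linarith
        exact_mod_cast this
      rw [rhoN_block N p J hp.2.pos hN h3 h4]
      ring
  have hJ' : (0 : ℝ) < J := by
    have : 0 < J := by omega
    exact_mod_cast this
  have hJ3 : (2 : ℝ) ≤ J := by exact_mod_cast hJ
  have hle3 : (1 : ℝ) / J ≤ 1 / 2 := one_div_le_one_div_of_le (by norm_num) hJ3
  have m2 : ⌊1 / (J : ℝ) * (N : ℝ)⌋₊ ≤ ⌊1 / (2 : ℝ) * (N : ℝ)⌋₊ :=
    Nat.floor_le_floor (mul_le_mul_of_nonneg_right hle3 hN'.le)
  rw [Finset.sum_filter, ← Finset.sum_Ioc_consecutive _ (Nat.zero_le _) m2, ← Finset.sum_filter,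
        ← Finset.sum_filter, key J hJ, mul_add, add_comm]
  refine add_le_add le_rfl ?_
  rw [zero_mul, Nat.floor_zero]
  unfold PS
  rw [Finset.mul_sum]
  rw [Finset.mul_sum]
  refine Finset.sum_le_sum fun p hp => ?_
  rw [Finset.mem_filter] at hp
  have h1 := rhoN_le N p hp.2.pos
  have hlp : 0 ≤ Real.log p := Real.log_natCast_nonneg p
  have h2 := mul_le_mul_of_nonneg_right h1 hlp
  refine h2.trans (le_of_eq ?_)
  field_simp

theorem tendsto_errN (C : ℝ) (hC : 0 ≤ C) :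
    Tendsto (fun N : ℕ => errN C N / (N : ℝ) ^ 2) atTop (𝓝 0) := by
  have h1 : Tendsto (fun N : ℕ => (4 * C) *
      (Real.log (8 * N) / √(N : ℝ))) atTop (𝓝 ((4 * C) * 0)) :=
    (tendsto_logK 8 (by norm_num)).const_mul _
  simp only [mul_zero] at h1
  refine squeeze_zero' ?_ ?_ h1
  · filter_upwards [eventually_ge_atTop 1] with N hN
    have hN' : (1 : ℝ) ≤ N := by exact_mod_cast hN
    have l1 : 0 ≤ Real.log (8 * N) := Real.log_nonneg (by linarith)
    unfold errN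
    positivity
  · filter_upwards [eventually_ge_atTop 1] with N hN
    have hN' : (1 : ℝ) ≤ N := by exact_mod_cast hN
    have hN0 : (0 : ℝ) < N := by linarith
    have hs : 0 < √(N : ℝ) := Real.sqrt_pos.mpr hN0
    have hsq : √(N : ℝ) * √(N : ℝ) = N := Real.mul_self_sqrt hN0.le
    have l1 : 0 ≤ Real.log (8 * N) := Real.log_nonneg (by linarith)
    have hsqrt : (Nat.sqrt (2 * N) : ℝ) ≤ 2 * √(N : ℝ) := by
      have e : (2 : ℝ) * √(N : ℝ) = √(4 * N) := by
        rw [show (4 : ℝ) * N = 2 ^ 2 * N by ring, Real.sqrt_mul (by norm_num),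
          Real.sqrt_sq (by norm_num)]
      rw [e]
      refine Real.nat_sqrt_le_real_sqrt.trans (Real.sqrt_le_sqrt ?_)
      push_cast
      linarith
    have hs2 : (N : ℝ) ^ 2 = (√(N : ℝ) * √(N : ℝ)) * N := by rw [hsq]; ring
    have t1 : Nat.sqrt (2 * N) * (2 * C * (N : ℝ) * Real.log (8 * N)) ≤
        2 * √(N : ℝ) * (2 * C * N * Real.log (8 * N)) :=
      mul_le_mul_of_nonneg_right hsqrt (by positivity)
    have e1 : 2 * √(N : ℝ) * (2 * C * N * Real.log (8 * N)) / (N : ℝ) ^ 2 =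
        (4 * C) * (Real.log (8 * N) / √(N : ℝ)) := by
      rw [hs2]
      field_simp
      ring
    unfold errN
    have u1 := div_le_div_of_nonneg_right t1 (show (0 : ℝ) ≤ (N : ℝ) ^ 2 by positivity)
    rw [e1] at u1
    exact u1

theorem sum_half (C c ε : ℝ) (hC : 0 ≤ C) (J N s K q : ℕ) (hN : N = 7 * q) (hs : s = q)
    (hK : K = 6 * q) (hq : 1 ≤ q) (hJ : 2 ≤ J) (β : ℕ → ℝ)
    (hM : ∑ p ∈ (Finset.Icc 1 ⌊1 / (2 : ℝ) * (N : ℝ)⌋₊).filter Nat.Prime,
      Real.log p / ((p : ℝ) - 1) ≤ Real.log ⌊1 / (2 : ℝ) * (N : ℝ)⌋₊ - c + ε)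
    (h1 : ∀ p : ℕ, p.Prime → p ^ 2 < N + s →
      β p ≤ (6 * N * K - 3 * (K : ℝ) ^ 2) / (p - 1) + C * (1 + Nat.log p (4 * (N + K))) * K)
    (h2 : ∀ p : ℕ, p.Prime → N + s ≤ p ^ 2 → 2 * p ≤ N →
      β p ≤ (6 * N * K - 3 * (K : ℝ) ^ 2) / p +
        3 * (((N % p : ℕ) : ℝ) * (p - (N % p : ℕ)) / p)) :
    ∑ p ∈ (Finset.Ioc 0 ⌊1 / (2 : ℝ) * (N : ℝ)⌋₊).filter Nat.Prime, β p * Real.log p ≤
      EN N * (Real.log (N / 2) - c + ε) +
      3 * (N * (∑ j ∈ Finset.Ico 2 J, PS (gj j) (N : ℝ) ⌊1 / ((j : ℝ) + 1) * (N : ℝ)⌋₊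
        ⌊1 / (j : ℝ) * (N : ℝ)⌋₊ + 1 / 4 * PS (fun t => t) (N : ℝ) ⌊(0 : ℝ) * (N : ℝ)⌋₊
        ⌊1 / (J : ℝ) * (N : ℝ)⌋₊)) + errN C N := by
  have hN7 : 7 ≤ N := by omega
  have hNr : (7 : ℝ) ≤ N := by exact_mod_cast hN7
  have hN0 : (0 : ℝ) < N := by linarith
  set n := ⌊1 / (2 : ℝ) * (N : ℝ)⌋₊ with hn
  have hn1 : 1 ≤ n := by
    rw [hn, Nat.one_le_floor_iff]
    linarith
  have hn0 : (0 : ℝ) < n := by exact_mod_cast hn1
  have hnN : (n : ℝ) ≤ 1 / (2 : ℝ) * N := Nat.floor_le (by positivity)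
  have hnN' : 2 * n ≤ N := by
    have : (2 : ℝ) * n ≤ N := by linarith
    exact_mod_cast this
  have hlogn : Real.log n ≤ Real.log (N / 2) :=
    Real.log_le_log hn0 (by linarith)
  have hIcc : Finset.Icc 1 n = Finset.Ioc 0 n := by
    ext x; simp [Nat.succ_le_iff]
  rw [hIcc] at hM
  have hEN := psa_EN_nonneg N
  have hL0 : 0 ≤ Real.log (8 * N) := Real.log_nonneg (by linarith)
  refine (Finset.sum_le_sum (g := fun p : ℕ => EN N * (Real.log p / (p - 1)) +
      3 * (rhoN N p * Real.log p) +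
      (if p ≤ Nat.sqrt (2 * N) then 2 * C * N * Real.log (8 * N) else 0)) (fun p hp => by
      rw [Finset.mem_filter, Finset.mem_Ioc] at hp
      exact psa_point C hC N s K q hN hs hK hq (β p) p hp.2 (by omega) (h1 p hp.2)
        (fun h => h2 p hp.2 h (by omega)))).trans ?_
  rw [Finset.sum_add_distrib, Finset.sum_add_distrib, ← Finset.mul_sum, ← Finset.mul_sum]
  have hsum1 : ∑ p ∈ (Finset.Ioc 0 n).filter Nat.Prime,
      (if p ≤ Nat.sqrt (2 * N) then 2 * C * (N : ℝ) * Real.log (8 * N) else 0) ≤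
      Nat.sqrt (2 * N) * (2 * C * N * Real.log (8 * N)) := by
    rw [← Finset.sum_filter, Finset.sum_const, nsmul_eq_mul]
    have h6 : ((Finset.Ioc 0 n).filter Nat.Prime).filter
        (fun p => p ≤ Nat.sqrt (2 * N)) ⊆ Finset.Ioc 0 (Nat.sqrt (2 * N)) := by
      intro p hp
      rw [Finset.mem_filter, Finset.mem_filter, Finset.mem_Ioc] at hp
      rw [Finset.mem_Ioc]
      exact ⟨hp.1.1.1, hp.2⟩
    have h7 := Finset.card_le_card h6
    rw [Nat.card_Ioc, Nat.sub_zero] at h7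
    have h8 : ((((Finset.Ioc 0 n).filter Nat.Prime).filter
        (fun p => p ≤ Nat.sqrt (2 * N))).card : ℝ) ≤ Nat.sqrt (2 * N) := by
      exact_mod_cast h7
    exact mul_le_mul_of_nonneg_right h8 (by positivity)
  have hrho := psa_rho N J (by omega) hJ
  rw [← hn] at hrho
  have hE := mul_le_mul_of_nonneg_left (hM.trans (show _ ≤ Real.log (N / 2) - c + ε by linarith))
    hEN
  unfold errN
  linarith

end Z23
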