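import Pool.Agent.Lib.Z23.Cls

/-!
# Z23, module PTwo (about 300 lines): the primes `N/2 < p ≤ N` and `N ≤ p`

PROOF.  Template: `two_core`, `pTwo1`, `pTwo2` in DIM3/PTwo.lean.  Apply `Core` with `l ∈ {0, 1}` and
`J2` = the `c` with `c + p < N`, `N + s ≤ c + 2p` (two poles, no gap point),
`J3` = the `c` with `c + p < N`, `c + 2p < N + s` (two poles and the gap point `c + 2p`),
`J1` = the `c < p` with `c < N`, `N ≤ c + p`, `c + p < N + s` (one pole, gap point `c + p`),
`e = 6`, `ρ = 3`, `E = 6`, `x c = c`, `g c = c + p`, `F c = LfC p N c (wtA N s z)`,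
`H c = LfC p N c (wtB b)`, `S c` from `TwoRel`, `κ c` from `GapRel`.
All other classes `c < p`: `c ≥ N` (no pole, `LfC = 0`) or `N + s ≤ c + p` (one pole, integral
weights by `wtA_VG0`): `clsOne`.  In the classes of `J1` also `LfC (wtB b)` is integral (`clsOne`).
Hypothesis `hF`: `clsVG` with `κ = 0`, `cl = 2` (`wtA_VG`, `N + s ≤ p^2` because `N + s < 3 p` and
`p ≥ 3`); hypothesis `hH`: `clsVG` with `κ = -2` (`wtB b u 1 = 0`, the other weights integral).
`hA`: `Lf_cls`.  (In `J1`: `N + s ≤ c + 2 p` holds because `N ≤ c + p` and `s < p`.)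
Costs per class (`l = 1 / l = 0`): `J2`: 6 + 3 = 9 / 6 + 6 = 12; `J3`: 6 + 3 + 1 = 10 / 6 + 6 + 1 = 13;
`J1`: 2 / 3.  Cardinalities: `#J2 + #J3 = N - p`, `#J1 + #J3 ≤ s`
(`J1 ∪ J3` embeds in the gap points `N, ..., N+s-1` by `c ↦ c + p` resp. `c + 2 p`).  So for `l = 1`
the total is at most `K + 9 (N - p) + #J3 + 2 #J1 ≤ K + 9 (N-p) + 2 s`, for `l = 0` at most
`12 (N-p) + #J3 + 3 #J1 ≤ 12 (N - p) + 3 s`.
`pBig` (`N ≤ p`, `N + s ≤ 2 p`): the same with `J2 = J3 = ∅`, `l = 0`, `#J1 ≤ N + s - p`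
(classes `c < N` with `c + p < N + s`; natural subtraction).
-/

open Polynomial Finset Z579 DIM3

namespace Z23

private theorem pt_mod {p u c : ℕ} (hu : u < 2 * p) (h : u % p = c) : u = c ∨ u = c + p := by
  rcases Nat.lt_or_ge u p with h1 | h1
  · left
    rw [Nat.mod_eq_of_lt h1] at h
    exact h
  · right
    rw [Nat.mod_eq_sub_mod h1, Nat.mod_eq_of_lt (by omega)] at h
    omega

private theorem pt_cl {p N c : ℕ} (hN : N ≤ 2 * p) : cl p N c ≤ 2 := by
  unfold cl
  refine (Finset.card_le_card (t := {c, c + p}) ?_).trans Finset.card_le_two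
  intro u hu
  rw [Finset.mem_filter, Finset.mem_range] at hu
  rw [Finset.mem_insert, Finset.mem_singleton]
  exact pt_mod (by omega) hu.2

/-- classes with two poles -/
private def B2 (p N : ℕ) : Finset ℕ := (Finset.range p).filter fun c => c + p < N

/-- two poles, no gap point -/
private def j2 (p N s : ℕ) : Finset ℕ :=
  (Finset.range p).filter fun c => c + p < N ∧ N + s ≤ c + 2 * p

/-- two poles and a gap point -/
private def j3 (p N s : ℕ) : Finset ℕ :=
  (Finset.range p).filter fun c => c + p < N ∧ c + 2 * p < N + s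

/-- one pole and a gap point -/
private def j1 (p N s : ℕ) : Finset ℕ :=
  (Finset.range p).filter fun c => c < N ∧ N ≤ c + p ∧ c + p < N + s

/-- the other classes -/
private def j0 (p N s : ℕ) : Finset ℕ :=
  (Finset.range p).filter fun c => ¬ (c + p < N) ∧ ¬ (c < N ∧ N ≤ c + p ∧ c + p < N + s)

private theorem pt_split (p N s : ℕ) (f : ℕ → ℚ) : ∑ c ∈ Finset.range p, f c =
    (∑ c ∈ j2 p N s, f c + ∑ c ∈ j3 p N s, f c) + (∑ c ∈ j1 p N s, f c + ∑ c ∈ j0 p N s, f c) := by
  rw [← Finset.sum_filter_add_sum_filter_not (Finset.range p) (fun c => c + p < N)]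
  congr 1
  · rw [← Finset.sum_filter_add_sum_filter_not _ (fun c => N + s ≤ c + 2 * p),
      Finset.filter_filter, Finset.filter_filter]
    congr 1
    refine Finset.sum_congr (Finset.filter_congr fun c _ => ?_) fun _ _ => rfl
    rw [not_le]
  · rw [← Finset.sum_filter_add_sum_filter_not _ (fun c => c < N ∧ N ≤ c + p ∧ c + p < N + s),
      Finset.filter_filter, Finset.filter_filter]
    congr 1
    refine Finset.sum_congr (Finset.filter_congr fun c _ => ?_) fun _ _ => rfl
    constructor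
    · rintro ⟨_, h⟩
      exact h
    · rintro h
      exact ⟨by omega, h⟩

private theorem pt_card (p N s : ℕ) : (j2 p N s).card + (j3 p N s).card = (B2 p N).card := by
  have h := Finset.card_filter_add_card_filter_not (s := B2 p N) (fun c => N + s ≤ c + 2 * p)
  rw [← h]
  unfold B2 j2 j3
  rw [Finset.filter_filter, Finset.filter_filter]
  congr 2
  refine Finset.filter_congr fun c _ => ?_
  rw [not_le]

/-- the embedding of the indices -/
private def em : ℕ ↪ ℤ := ⟨fun n => (n : ℤ), Nat.cast_injective⟩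

private theorem em_apply (c : ℕ) : em c = (c : ℤ) := rfl

private theorem pt_core (hC : Core) (hG : GapRel) {p N s : ℕ} {z b : ℚ} (hp : p.Prime)
    (hN : N ≤ 2 * p) (hgap : ∀ c, N ≤ c + p → N + s ≤ c + 2 * p) (hsq : N + s ≤ p ^ 2)
    (hz : VG p 0 z) (hb : VG p 0 b)
    (hT : ∀ c, c < p → c + p < N → N + s ≤ c + 2 * p → ∃ S : ℚ[X], IPoly p S ∧
      ∀ G : ℚ[X], IPoly p G →
        VG p 0 (LfC p N c (wtB b) G - p * LfC p N c (wtA N s z) (S * G)))
    (l : ℕ) (hl : l ≤ 1) (K : ℕ) :
    VG p (-(l * K + (B2 p N).card * (6 + ((3 - l : ℕ) : ℝ) * ((3 - l : ℕ) + 1) / 2) +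
      (j3 p N s).card + (3 - l) * (j1 p N s).card)) (hank2 (FA N s z) (FB N b) K) := by
  classical
  have : Fact p.Prime := ⟨hp⟩
  have hrel : ∀ c ∈ j2 p N s, ∃ S : ℚ[X], IPoly p S ∧ ∀ G : ℚ[X], IPoly p G →
      VG p 0 (LfC p N c (wtB b) G - p * LfC p N c (wtA N s z) (S * G)) := by
    intro c hc
    rw [j2, Finset.mem_filter, Finset.mem_range] at hc
    exact hT c hc.1 hc.2.1 hc.2.2
  choose! S hS hSG using hrel
  have hgr : ∀ c ∈ j1 p N s, ∃ κ : ℚ, VG p (-3) κ ∧ ∀ G : ℚ[X], IPoly p G →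
      VG p 0 (LfC p N c (wtA N s z) G - κ * G.eval (((c + p : ℕ) : ℤ) : ℚ)) := by
    intro c hc
    rw [j1, Finset.mem_filter, Finset.mem_range] at hc
    exact hG p N s c z hp hc.1 hc.2.1 hc.2.2.1 hc.2.2.2 (hgap c hc.2.2.1) hz
  choose! κ hκ hκG using hgr
  have hsq' : N ≤ p ^ 2 := by omega
  have hd : Disjoint ((j2 p N s).map em) ((j3 p N s).map em) := by
    rw [Finset.disjoint_map, Finset.disjoint_left]
    intro c h1 h2
    rw [j2, Finset.mem_filter] at h1
    rw [j3, Finset.mem_filter] at h2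
    omega
  have hmem : ∀ c : ℤ, c ∈ (j2 p N s).map em ∪ (j3 p N s).map em → ∃ c' : ℕ, c = c' ∧ c' < p ∧
      c' + p < N := by
    intro c hc
    rw [Finset.mem_union, Finset.mem_map, Finset.mem_map] at hc
    rcases hc with ⟨c', hc', rfl⟩ | ⟨c', hc', rfl⟩
    · rw [j2, Finset.mem_filter, Finset.mem_range] at hc'
      exact ⟨c', rfl, hc'.1, hc'.2.1⟩
    · rw [j3, Finset.mem_filter, Finset.mem_range] at hc'
      exact ⟨c', rfl, hc'.1, hc'.2.1⟩
  have hwA : ∀ u < N, ∀ i : ℕ, VG p (-((i : ℝ) + 0)) (wtA N s z u i) := by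
    intro u hu i
    rw [add_zero]
    exact wtA_VG hp hz hsq hu
  have hwB : ∀ u : ℕ, ∀ i : ℕ, 1 ≤ i → i ≤ 3 → VG p (-((i : ℝ) + (-2))) (wtB b u i) := by
    intro u i h1 h2
    by_cases hi : 2 ≤ i
    · refine (wtB_VG hp hb u).mono ?_
      have : (2 : ℝ) ≤ i := by exact_mod_cast hi
      linarith
    · have : i = 1 := by omega
      subst this
      have e : wtB b u 1 = 0 := by simp [wtB]
      rw [e]
      exact VG.zero' _ _
  have hone : ∀ c ∈ j0 p N s, ∀ G : ℚ[X], IPoly p G → VG p 0 (LfC p N c (wtA N s z) G) := by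
    intro c hc G hG'
    rw [j0, Finset.mem_filter, Finset.mem_range] at hc
    obtain ⟨hc1, hc2, hc3⟩ := hc
    refine clsOne p N c (wtA N s z) hp hc1 (by omega) ?_ G hG'
    intro u hu huc i _ _
    have hcu : u = c := by
      rcases pt_mod (p := p) (u := u) (by omega) huc with h | h
      · exact h
      · omega
    subst hcu
    exact wtA_VG0 hp hz (by omega) hu
  have honeB : ∀ c, c < p → N ≤ c + p → ∀ G : ℚ[X], IPoly p G → VG p 0 (LfC p N c (wtB b) G) := by
    intro c hc1 hc2 G hG'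
    exact clsOne p N c (wtB b) hp hc1 hc2 (fun u _ _ i _ _ => wtB_VG hp hb u) G hG'
  have hmain := hC p hp ((j1 p N s).map em) ((j2 p N s).map em) ((j3 p N s).map em)
    (fun c => c) (fun c => c + p) (fun _ => 6) (fun _ => 3) 6 l hl (fun _ _ => le_rfl)
    (fun _ _ => by omega) (fun _ _ => by norm_num)
    (FA N s z) (FB N b) (fun c => LfC p N c.toNat (wtA N s z)) (fun c => LfC p N c.toNat (wtB b))
    (fun c => S c.toNat) (fun c => κ c.toNat)
    (by
      intro c hc
      rw [Finset.mem_map] at hc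
      obtain ⟨c', hc', rfl⟩ := hc
      exact hS c' hc')
    (by
      intro c hc
      rw [Finset.mem_map] at hc
      obtain ⟨c', hc', rfl⟩ := hc
      exact hκ c' hc')
    (by
      intro G hG'
      rw [Finset.sum_union hd, Finset.sum_map, Finset.sum_map, Finset.sum_map]
      simp only [em_apply, Int.toNat_natCast]
      have e1 : FA N s z G = ∑ c ∈ Finset.range p, LfC p N c (wtA N s z) G := by
        unfold FA
        exact Lf_cls p N hp.pos _ G
      rw [e1, pt_split p N s]
      have h1 : VG p 0 (∑ c ∈ j1 p N s, (LfC p N c (wtA N s z) G -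
          κ c * G.eval (((c : ℤ) + p : ℤ) : ℚ))) := by
        refine VG.sum fun c hc => ?_
        have h := hκG c hc G hG'
        have e2 : (((c + p : ℕ) : ℤ) : ℚ) = (((c : ℤ) + p : ℤ) : ℚ) := by push_cast; ring
        rw [e2] at h
        exact h
      rw [Finset.sum_sub_distrib] at h1
      have h2 : VG p 0 (∑ c ∈ j0 p N s, LfC p N c (wtA N s z) G) :=
        VG.sum fun c hc => hone c hc G hG'
      have h3 := h1.add h2
      have e3 : ∀ x1 x2 x3 x4 x5 : ℚ, (x1 + x2) + (x3 + x4) - ((x1 + x2) + x5) = (x3 - x5) + x4 :=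
        fun x1 x2 x3 x4 x5 => by ring
      rw [e3]
      exact h3)
    (by
      intro G hG'
      rw [Finset.sum_map, Finset.sum_map]
      simp only [em_apply, Int.toNat_natCast]
      have e1 : FB N b G = ∑ c ∈ Finset.range p, LfC p N c (wtB b) G := by
        unfold FB
        exact Lf_cls p N hp.pos _ G
      rw [e1, pt_split p N s]
      have h1 : VG p 0 (∑ c ∈ j2 p N s, (LfC p N c (wtB b) G -
          p * LfC p N c (wtA N s z) (S c * G))) := VG.sum fun c hc => hSG c hc G hG'
      rw [Finset.sum_sub_distrib] at h1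
      have h2 : VG p 0 (∑ c ∈ j1 p N s, LfC p N c (wtB b) G) := by
        refine VG.sum fun c hc => ?_
        rw [j1, Finset.mem_filter, Finset.mem_range] at hc
        exact honeB c hc.1 hc.2.2.1 G hG'
      have h3 : VG p 0 (∑ c ∈ j0 p N s, LfC p N c (wtB b) G) := by
        refine VG.sum fun c hc => ?_
        rw [j0, Finset.mem_filter, Finset.mem_range] at hc
        exact honeB c hc.1 (by omega) G hG'
      have h4 := h1.add (h2.add h3)
      have e3 : ∀ x1 x2 x3 x4 x5 : ℚ, (x1 + x2) + (x3 + x4) - (x5 + x2) = (x1 - x5) + (x3 + x4) :=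
        fun x1 x2 x3 x4 x5 => by ring
      rw [e3]
      exact h4)
    (by
      intro c hc n G hG'
      obtain ⟨c', rfl, hc1, hc2⟩ := hmem c hc
      have h := clsVG p N c' (wtA N s z) 0 hp hc1 hsq' (fun u hu _ i _ _ => hwA u hu i) n G hG'
      simp only [Int.toNat_natCast]
      rw [show (((c' : ℤ)) : ℚ) = (c' : ℚ) from Int.cast_natCast c']
      refine h.mono ?_
      have h2 : ((cl p N c' : ℕ) : ℝ) ≤ 2 := by exact_mod_cast pt_cl hN
      push_cast
      linarith)
    (by
      intro c hc n G hG'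
      obtain ⟨c', rfl, hc1, hc2⟩ := hmem c (Finset.mem_union_right _ hc)
      have h := clsVG p N c' (wtB b) (-2) hp hc1 hsq' (fun u _ _ i h1 h2 => hwB u i h1 h2) n G hG'
      simp only [Int.toNat_natCast]
      rw [show (((c' : ℤ)) : ℚ) = (c' : ℚ) from Int.cast_natCast c']
      refine h.mono ?_
      have h2 : ((cl p N c' : ℕ) : ℝ) ≤ 2 := by exact_mod_cast pt_cl hN
      push_cast
      linarith) K
  refine hmain.mono (neg_le_neg (le_of_eq ?_))
  simp only [Finset.sum_const, Finset.card_union_of_disjoint hd, Finset.card_map, nsmul_eq_mul]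
  rw [← pt_card p N s]
  have e4 : (6 - 3 - l : ℕ) = 3 - l := by omega
  rw [e4]
  push_cast
  norm_num
  ring

private theorem pt_B2 {p N : ℕ} (hN : N ≤ 2 * p) (hpN : p ≤ N) : (B2 p N).card = N - p := by
  have h : B2 p N = Finset.range (N - p) := by
    ext c
    rw [B2, Finset.mem_filter, Finset.mem_range, Finset.mem_range]
    omega
  rw [h, Finset.card_range]

private theorem pt_gap {p N s : ℕ} (hN : N ≤ 2 * p) :
    (j1 p N s).card + (j3 p N s).card ≤ s := by
  have hd : Disjoint ((j1 p N s).map (addRightEmbedding p))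
      ((j3 p N s).map (addRightEmbedding (2 * p))) := by
    rw [Finset.disjoint_left]
    intro x h1 h2
    rw [Finset.mem_map] at h1 h2
    obtain ⟨c, hc, rfl⟩ := h1
    obtain ⟨d, hd, h⟩ := h2
    rw [j1, Finset.mem_filter, Finset.mem_range] at hc
    rw [addRightEmbedding_apply, addRightEmbedding_apply] at h
    omega
  have h1 : ((j1 p N s).map (addRightEmbedding p)) ∪ ((j3 p N s).map (addRightEmbedding (2 * p))) ⊆
      Finset.Ico N (N + s) := by
    intro x hx
    rw [Finset.mem_union, Finset.mem_map, Finset.mem_map] at hx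
    rcases hx with ⟨c, hc, rfl⟩ | ⟨c, hc, rfl⟩
    · rw [j1, Finset.mem_filter, Finset.mem_range] at hc
      rw [addRightEmbedding_apply, Finset.mem_Ico]
      omega
    · rw [j3, Finset.mem_filter, Finset.mem_range] at hc
      rw [addRightEmbedding_apply, Finset.mem_Ico]
      omega
  have h2 := Finset.card_le_card h1
  rw [Finset.card_union_of_disjoint hd, Finset.card_map, Finset.card_map, Nat.card_Ico] at h2
  omega

private theorem pt_sq {p N s : ℕ} (hp : p.Prime) (hp2 : p ≠ 2) (h : N + s ≤ 3 * p) :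
    N + s ≤ p ^ 2 := by
  have h3 : 3 ≤ p := by
    have := hp.two_le
    omega
  have h4 : 3 * p ≤ p ^ 2 := by
    rw [pow_two]
    exact Nat.mul_le_mul_right p h3
  omega

private theorem pt_two (hC : Core) (hT : TwoRel) (hG : GapRel) {p N s : ℕ} {z b : ℚ}
    (hp : p.Prime) (hp2 : p ≠ 2) (hN : N < 2 * p) (hs : s < p)
    (hz : VG p 0 z) (hb : VG p 0 b) (l : ℕ) (hl : l ≤ 1) (K : ℕ) :
    VG p (-(l * K + (B2 p N).card * (6 + ((3 - l : ℕ) : ℝ) * ((3 - l : ℕ) + 1) / 2) +
      (j3 p N s).card + (3 - l) * (j1 p N s).card)) (hank2 (FA N s z) (FB N b) K) :=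
  pt_core hC hG hp hN.le (fun c hc => by omega) (pt_sq hp hp2 (by omega)) hz hb
    (fun c hc1 hc2 hc3 => hT p N s c z b hp hp2 hc1 hc2 (by omega) hc3 hz hb) l hl K

theorem pTwo1 (hC : Core) (hT : TwoRel) (hG : GapRel) : PTwo1 := by
  intro p N s K z b hp hp2 hN hpN hs hz hb
  refine (pt_two hC hT hG hp hp2 hN hs hz hb 1 le_rfl K).mono (neg_le_neg ?_)
  rw [pt_B2 hN.le hpN, Nat.cast_sub hpN]
  have h := pt_gap (s := s) hN.le
  have h1 : ((j1 p N s).card : ℝ) + (j3 p N s).card ≤ s := by exact_mod_cast h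
  have h2 : (0 : ℝ) ≤ (j3 p N s).card := Nat.cast_nonneg _
  push_cast
  norm_num
  linarith

theorem pTwo2 (hC : Core) (hT : TwoRel) (hG : GapRel) : PTwo2 := by
  intro p N s K z b hp hp2 hN hpN hs hz hb
  refine (pt_two hC hT hG hp hp2 hN hs hz hb 0 (Nat.zero_le 1) K).mono (neg_le_neg ?_)
  rw [pt_B2 hN.le hpN, Nat.cast_sub hpN]
  have h := pt_gap (s := s) hN.le
  have h1 : ((j1 p N s).card : ℝ) + (j3 p N s).card ≤ s := by exact_mod_cast h
  have h2 : (0 : ℝ) ≤ (j3 p N s).card := Nat.cast_nonneg _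
  push_cast
  norm_num
  linarith

theorem pBig (hC : Core) (hG : GapRel) : PBig := by
  intro p N s K z b hp hp2 hN hNs hz hb
  have h := pt_core hC hG (s := s) hp (show N ≤ 2 * p by omega) (fun c hc => by omega)
    (pt_sq hp hp2 (by omega)) hz hb (fun c hc1 hc2 hc3 => by omega) 0 (Nat.zero_le 1) K
  refine h.mono (neg_le_neg ?_)
  have e1 : B2 p N = ∅ := by
    rw [B2, Finset.filter_eq_empty_iff]
    intro c _
    omega
  have e2 : j3 p N s = ∅ := by
    rw [j3, Finset.filter_eq_empty_iff]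
    intro c _
    omega
  have e3 : (j1 p N s).card ≤ N + s - p := by
    have h1 : j1 p N s ⊆ Finset.range (N + s - p) := by
      intro c hc
      rw [j1, Finset.mem_filter, Finset.mem_range] at hc
      rw [Finset.mem_range]
      omega
    have h2 := Finset.card_le_card h1
    rwa [Finset.card_range] at h2
  rw [e1, e2, Finset.card_empty]
  push_cast
  norm_num
  exact e3

end Z23
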