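import Pool.Agent.Lib.Z23.Defs
import Pool.Agent.Lib.Z579.PF
import Pool.Agent.Lib.DIM3.RealId

/-!
# Z23, module RealId (about 300 lines): the real identity

PROOF (template: DIM3/RealId.lean, and the partial fractions in Z579/PF.lean).
(1) For `G ∈ ℚ[X]` with `G.natDegree + 2 ≤ 3 N`: as rational functions
`R(v) G(v) = ∑_{u < N} ∑_{i=1}^{3} Ac N u i G / (v - u)^i` for real `v ∉ {0, ..., N-1}`, where
`R(v) = 1/(∏ (v - w))^3`; and `∑_u Ac N u 1 G = 0` (behaviour `O(v^(-2))` at infinity).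
(2) `F(G) := ∑'_t R(N+s+t) G(N+s+t)` converges absolutely; for `i ≥ 2`
`∑'_t 1/(N+s+t-u)^i = ζ(i) - Hs i (N+s-1-u)`; the terms `i = 1` are summed together:
`∑_u Ac N u 1 G ∑_{t ≤ T} 1/(N+s+t-u) → -∑_u Ac N u 1 G * Hs 1 (N+s-1-u)` because `∑_u Ac = 0`
(the differences of harmonic numbers `H(T + const) - H(T)` tend to zero).
(3) So `F(G) = ∑_u ∑_i Ac N u i G * (zr i [i ≥ 2] - Hs i (N+s-1-u))
= FA G + zr 2 * FB G` with `zr 3 = z + b zr 2`: weight `i = 2`: `zr 2 - Hs 2`, weight `i = 3`: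
`z + b zr 2 - Hs 3`.
(4) In the determinant `det2` the columns `μA` of `F` are `FA + zr 2 * FB`, the columns `μB` are
`FB`; for all exponents `row i + j ≤ 3 K - 2 ≤ 3 N - 2`; subtracting `zr 2` times the `B` columns
(`j ↦ j`) from the `A` columns does not change the determinant (as in DIM3/RealId.lean).
-/

open Polynomial Finset Z579 DIM3

namespace Z23

/-- the linear factor of the pole `w` -/
private noncomputable def li (w : ℕ) : ℚ[X] := X + C (((-(w : ℤ) : ℤ)) : ℚ)

private noncomputable def QZ (N u i : ℕ) : ℚ[X] :=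
  li u ^ (3 - i) * (∏ w ∈ (Finset.range N).erase u, li w) ^ 3

private lemma monic_li (w : ℕ) : (li w).Monic := Polynomial.monic_X_add_C _

private lemma tay_li (u w : ℕ) : tay (-(u : ℤ)) (li w) = lin ((u : ℤ) - w) := by
  rw [li, tay_lin]
  congr 1
  ring

private lemma natDegree_prod_li (s : Finset ℕ) : (∏ w ∈ s, li w).natDegree = s.card := by
  rw [Polynomial.natDegree_prod_of_monic _ _ fun w _ => monic_li w]
  simp only [li, Polynomial.natDegree_X_add_C, Finset.sum_const, smul_eq_mul, mul_one]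

private lemma monic_prod_li (s : Finset ℕ) : (∏ w ∈ s, li w).Monic :=
  Polynomial.monic_prod_of_monic _ _ fun w _ => monic_li w

private lemma monic_QZ (N u i : ℕ) : (QZ N u i).Monic :=
  ((monic_li u).pow _).mul ((monic_prod_li _).pow 3)

private lemma natDegree_QZ {N u i : ℕ} (hu : u < N) (hi : i ≤ 3) :
    (QZ N u i).natDegree + i = 3 * N := by
  have h1 : ((∏ w ∈ (Finset.range N).erase u, li w) ^ 3).Monic := (monic_prod_li _).pow 3
  have h2 : ((li u) ^ (3 - i)).Monic := (monic_li u).pow _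
  rw [QZ, h2.natDegree_mul h1, (monic_prod_li _).natDegree_pow, natDegree_prod_li,
    (monic_li u).natDegree_pow, Finset.card_erase_of_mem (Finset.mem_range.2 hu),
    Finset.card_range]
  have h3 : (li u).natDegree = 1 := by rw [li, Polynomial.natDegree_X_add_C]
  rw [h3]
  omega

private lemma tay_G {N u : ℕ} (G : ℚ[X]) :
    tay (-(u : ℤ)) G = base N u * Polynomial.aeval (lin (u : ℤ)) G *
      (∏ w ∈ (Finset.range N).erase u, lin ((u : ℤ) - w)) ^ 3 := by
  have hne : PowerSeries.constantCoeff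
      (∏ w ∈ (Finset.range N).erase u, lin ((u : ℤ) - w)) ≠ 0 := by
    rw [map_prod, Finset.prod_ne_zero_iff]
    intro w hw
    rw [constantCoeff_lin]
    have h1 : w ≠ u := (Finset.mem_erase.1 hw).1
    have h2 : ((u : ℤ) - w) ≠ 0 := by omega
    exact_mod_cast h2
  have h4 : ((∏ w ∈ (Finset.range N).erase u, lin ((u : ℤ) - w))⁻¹) ^ 3 *
      (∏ w ∈ (Finset.range N).erase u, lin ((u : ℤ) - w)) ^ 3 = 1 := by
    rw [← mul_pow, PowerSeries.inv_mul_cancel _ hne, one_pow]
  rw [tay, neg_neg, base]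
  linear_combination (Polynomial.aeval (lin (u : ℤ)) G) * (-h4)

private lemma tay_QZ_self (N u i : ℕ) :
    tay (-(u : ℤ)) (QZ N u i) = PowerSeries.X ^ (3 - i) *
      (∏ w ∈ (Finset.range N).erase u, lin ((u : ℤ) - w)) ^ 3 := by
  rw [QZ, map_mul, map_pow, map_pow, map_prod]
  simp only [tay_li]
  congr 2
  rw [lin]; simp

private lemma tay_QZ_ne {N u v : ℕ} (hu : u < N) (huv : u ≠ v) (i : ℕ) :
    PowerSeries.X ^ 3 ∣ tay (-(u : ℤ)) (QZ N v i) := by
  rw [QZ, map_mul, map_pow, map_pow, map_prod]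
  simp only [tay_li]
  refine Dvd.dvd.mul_left ?_ _
  refine pow_dvd_pow_of_dvd ?_ 3
  refine dvd_trans ?_ (Finset.dvd_prod_of_mem _
    (Finset.mem_erase.2 ⟨huv, Finset.mem_range.2 hu⟩))
  rw [lin]; simp

/-- the partial fraction expansion, cleared of denominators -/
private theorem G_eq {N : ℕ} (G : ℚ[X]) (hdeg : G.natDegree + 1 ≤ 3 * N) :
    G = ∑ u ∈ Finset.range N, ∑ i ∈ Finset.Icc 1 3, C (Ac N u i G) * QZ N u i := by
  rw [← sub_eq_zero]
  set P : ℚ[X] := G -
    ∑ u ∈ Finset.range N, ∑ i ∈ Finset.Icc 1 3, C (Ac N u i G) * QZ N u i with hP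
  have hdvd : ∀ u ∈ Finset.range N, (li u) ^ 3 ∣ P := by
    intro u hu
    apply dvd_of_tay
    have hC : ∀ c : ℚ, tay (-(u : ℤ)) (C c) = PowerSeries.C c := by
      intro c; rw [tay, Polynomial.aeval_C]; rfl
    rw [hP, map_sub, tay_G (N := N), map_sum, ← Finset.add_sum_erase _ _ hu, ← sub_sub]
    refine dvd_sub ?_ ?_
    · rw [map_sum]
      have h1 : ∑ i ∈ Finset.Icc 1 3, tay (-(u : ℤ)) (C (Ac N u i G) * QZ N u i) =
          (∑ i ∈ Finset.Icc 1 3, PowerSeries.C (Ac N u i G) * PowerSeries.X ^ (3 - i)) *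
            (∏ w ∈ (Finset.range N).erase u, lin ((u : ℤ) - w)) ^ 3 := by
        rw [Finset.sum_mul]
        refine Finset.sum_congr rfl fun i _ => ?_
        rw [map_mul, hC, tay_QZ_self, mul_assoc]
      rw [h1, ← sub_mul]
      refine Dvd.dvd.mul_right ?_ _
      rw [PowerSeries.X_pow_dvd_iff]
      intro d hd
      rw [map_sub, map_sum, Finset.sum_eq_single (3 - d)]
      · rw [PowerSeries.coeff_C_mul, PowerSeries.coeff_X_pow, Ac_apply]
        have : 3 - (3 - d) = d := by omega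
        rw [this]
        simp
      · intro i hi hne
        rw [Finset.mem_Icc] at hi
        rw [PowerSeries.coeff_C_mul, PowerSeries.coeff_X_pow, if_neg, mul_zero]
        omega
      · intro h
        exfalso
        apply h
        rw [Finset.mem_Icc]
        omega
    · refine Finset.dvd_sum fun v hv => ?_
      rw [map_sum]
      refine Finset.dvd_sum fun i _ => ?_
      rw [map_mul]
      exact (tay_QZ_ne (Finset.mem_range.1 hu) (Finset.mem_erase.1 hv).1.symm i).mul_left _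
  have hprod : (∏ u ∈ Finset.range N, (li u) ^ 3) ∣ P := by
    apply Finset.prod_dvd_of_coprime _ hdvd
    intro u _ v _ huv
    refine IsCoprime.pow ?_
    have h1 := Polynomial.isCoprime_X_sub_C_of_isUnit_sub (a := ((u : ℚ))) (b := ((v : ℚ)))
      (IsUnit.mk0 _ (by
        intro h
        apply huv
        have : (u : ℚ) = v := by linarith
        exact_mod_cast this))
    have h2 : ∀ w : ℕ, li w = X - C (w : ℚ) := by
      intro w
      rw [li]
      push_cast
      rw [map_neg, sub_eq_add_neg]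
    show IsCoprime (li u) (li v)
    rw [h2, h2]
    exact h1
  refine Polynomial.eq_zero_of_dvd_of_natDegree_lt hprod ?_
  rw [Finset.prod_pow, (monic_prod_li _).natDegree_pow, natDegree_prod_li, Finset.card_range]
  have h1 : P.natDegree ≤ 3 * N - 1 := by
    rw [hP]
    refine (Polynomial.natDegree_sub_le _ _).trans (max_le ?_ ?_)
    · omega
    · refine Polynomial.natDegree_sum_le_of_forall_le _ _ fun u hu => ?_
      refine Polynomial.natDegree_sum_le_of_forall_le _ _ fun i hi => ?_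
      rw [Finset.mem_Icc] at hi
      refine (Polynomial.natDegree_C_mul_le _ _).trans ?_
      have := natDegree_QZ (Finset.mem_range.1 hu) hi.2
      omega
  omega

/-- the sum of the residues vanishes -/
private theorem sum_Ac_one {N : ℕ} (G : ℚ[X]) (hdeg : G.natDegree + 2 ≤ 3 * N) :
    ∑ u ∈ Finset.range N, Ac N u 1 G = 0 := by
  have h := congrArg (fun P => Polynomial.coeff P (3 * N - 1)) (G_eq (N := N) G (by omega))
  simp only [Polynomial.finsetSum_coeff, Polynomial.coeff_C_mul] at h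
  rw [Polynomial.coeff_eq_zero_of_natDegree_lt (by omega)] at h
  rw [h]
  refine Finset.sum_congr rfl fun u hu => ?_
  rw [Finset.sum_eq_single 1]
  · have h1 := natDegree_QZ (i := 1) (Finset.mem_range.1 hu) (by norm_num)
    have h2 : 3 * N - 1 = (QZ N u 1).natDegree := by omega
    rw [h2, (monic_QZ N u 1).coeff_natDegree, mul_one]
  · intro i hi hne
    rw [Finset.mem_Icc] at hi
    rw [Polynomial.coeff_eq_zero_of_natDegree_lt, mul_zero]
    have := natDegree_QZ (Finset.mem_range.1 hu) hi.2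
    omega
  · intro h
    exfalso
    exact h (Finset.mem_Icc.2 ⟨le_rfl, by norm_num⟩)

/-- partial fraction expansion on the real line -/
private theorem pf_real {N : ℕ} (G : ℚ[X]) (hdeg : G.natDegree + 1 ≤ 3 * N) (v : ℝ)
    (hv : ∀ u ∈ Finset.range N, v - (u : ℝ) ≠ 0) :
    Rr N v * Polynomial.aeval v G =
    ∑ u ∈ Finset.range N, ∑ i ∈ Finset.Icc 1 3, (Ac N u i G : ℝ) / (v - (u : ℝ)) ^ i := by
  have h := congrArg (fun P => Polynomial.aeval v P) (G_eq (N := N) G hdeg)
  have hX : ∀ w : ℕ, Polynomial.aeval v (li w) = v - (w : ℝ) := by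
    intro w
    rw [li, map_add, Polynomial.aeval_X, Polynomial.aeval_C]
    simp [sub_eq_add_neg]
  simp only [QZ, map_sum, map_mul, map_pow, map_prod, hX, Polynomial.aeval_C, eq_ratCast] at h
  have hD : (∏ w ∈ Finset.range N, (v - (w : ℝ))) ≠ 0 := Finset.prod_ne_zero_iff.2 hv
  rw [Rr, one_div_mul_eq_div, div_eq_iff (pow_ne_zero _ hD), h, Finset.sum_mul]
  refine Finset.sum_congr rfl fun u hu => ?_
  rw [Finset.sum_mul]
  refine Finset.sum_congr rfl fun i hi => ?_
  rw [Finset.mem_Icc] at hi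
  rw [div_mul_eq_mul_div, eq_div_iff (pow_ne_zero _ (hv u hu)), ← Finset.mul_prod_erase _ _ hu,
    mul_pow]
  have : (v - (u : ℝ)) ^ 3 = (v - (u : ℝ)) ^ (3 - i) * (v - (u : ℝ)) ^ i := by
    rw [← pow_add]; congr 1; omega
  rw [this]
  ring

/-- the real identity for one polynomial -/
private theorem hasSum_F (N s : ℕ) (G : ℚ[X]) (hdeg : G.natDegree + 2 ≤ 3 * N) :
    HasSum (fun t : ℕ => Rr N ((N : ℝ) + s + t) * Polynomial.aeval ((N : ℝ) + s + t) G)
      (∑ u ∈ Finset.range N, ∑ i ∈ Finset.Icc 1 3, (Ac N u i G : ℝ) *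
        (cst i - (Hs i (N + s - 1 - u) : ℝ))) := by
  have hterm : ∀ u ∈ Finset.range N, ∀ i ∈ Finset.Icc 1 3, HasSum
      (fun t : ℕ => (Ac N u i G : ℝ) *
        (1 / ((t : ℝ) + ((N + s - u : ℕ) : ℝ)) ^ i - (if i = 1 then 1 / ((t : ℝ) + 1) else 0)))
      ((Ac N u i G : ℝ) * (cst i - (Hs i (N + s - 1 - u) : ℝ))) := by
    intro u hu i hi
    rw [Finset.mem_Icc] at hi
    rw [Finset.mem_range] at hu
    have h1 := hasSum_ui (i := i) (k := N + s - u) hi.1 (by omega)
    have e : N + s - u - 1 = N + s - 1 - u := by omega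
    rw [e] at h1
    exact h1.mul_left _
  have hsum := hasSum_sum (s := Finset.range N) fun u hu =>
    hasSum_sum (s := Finset.Icc 1 3) fun i hi => hterm u hu i hi
  refine hsum.congr_fun ?_
  intro t
  have h1 := sum_Ac_one G hdeg
  have hv : ∀ u ∈ Finset.range N, ((N : ℝ) + s + t) - (u : ℝ) ≠ 0 := by
    intro u hu
    rw [Finset.mem_range] at hu
    have h2 : (u : ℝ) < N := by exact_mod_cast hu
    have h3 : (0 : ℝ) ≤ t := Nat.cast_nonneg t
    have h4 : (0 : ℝ) ≤ s := Nat.cast_nonneg s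
    linarith
  rw [pf_real G (by omega) _ hv]
  simp only [mul_sub, Finset.sum_sub_distrib]
  have h3 : ∑ u ∈ Finset.range N, ∑ i ∈ Finset.Icc 1 3, (Ac N u i G : ℝ) *
      (if i = 1 then 1 / ((t : ℝ) + 1) else 0) = 0 := by
    have h4 : ∀ u ∈ Finset.range N, ∑ i ∈ Finset.Icc 1 3, (Ac N u i G : ℝ) *
        (if i = 1 then 1 / ((t : ℝ) + 1) else 0) =
        (Ac N u 1 G : ℝ) * (1 / ((t : ℝ) + 1)) := by
      intro u _
      rw [Finset.sum_eq_single 1]
      · simp
      · intro i _ hi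
        simp [hi]
      · intro h
        exfalso
        apply h
        rw [Finset.mem_Icc]
        norm_num
    rw [Finset.sum_congr rfl h4, ← Finset.sum_mul]
    have h5 : ∑ u ∈ Finset.range N, (Ac N u 1 G : ℝ) = 0 := by exact_mod_cast h1
    rw [h5, zero_mul]
  rw [h3, sub_zero]
  refine Finset.sum_congr rfl fun u hu => Finset.sum_congr rfl fun i _ => ?_
  rw [Finset.mem_range] at hu
  have h4 : ((N + s - u : ℕ) : ℝ) = (N : ℝ) + s - u := by
    rw [Nat.cast_sub (by omega)]
    push_cast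
    ring
  rw [h4]
  have e : (t : ℝ) + ((N : ℝ) + s - u) = (N : ℝ) + s + t - u := by ring
  rw [e, mul_one_div]

/-- `FA + ζ(2) FB = ∑_t R(N+s+t) G(N+s+t)` -/
private theorem FA_addz {N s : ℕ} {z b : ℚ} (h : zr 3 = z + b * zr 2) (G : ℚ[X])
    (hdeg : G.natDegree + 2 ≤ 3 * N) :
    ((FA N s z G : ℚ) : ℝ) + zr 2 * ((FB N b G : ℚ) : ℝ) =
      ∑' t : ℕ, Rr N ((N : ℝ) + s + t) * Polynomial.aeval ((N : ℝ) + s + t) G := by
  rw [(hasSum_F N s G hdeg).tsum_eq, FA, FB, Lf_apply, Lf_apply]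
  push_cast
  rw [Finset.mul_sum, ← Finset.sum_add_distrib]
  refine Finset.sum_congr rfl fun u _ => ?_
  rw [Finset.mul_sum, ← Finset.sum_add_distrib]
  refine Finset.sum_congr rfl fun i hi => ?_
  rw [Finset.mem_Icc] at hi
  obtain ⟨h1, h2⟩ := hi
  interval_cases i
  · simp [wtA, wtB, cst]
    ring
  · simp [wtA, wtB, cst]
    ring
  · simp only [wtA, wtB, cst]
    simp [h]
    ring

private lemma row_ltz {K : ℕ} (i : Fin K ⊕ Fin K) : row i < 2 * K := by
  rcases i with i | i
  · have := i.2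
    change (i : ℕ) < 2 * K
    omega
  · have := i.2
    change K + (i : ℕ) < 2 * K
    omega

theorem realId : RealId := by
  intro N s K z b h hN hK
  set S : ℕ → ℝ := fun n => ∑' t : ℕ, Rr N ((N : ℝ) + s + t) * ((N : ℝ) + s + t) ^ n with hS
  set T : ℕ → ℝ := fun n => ((FB N b (X ^ n) : ℚ) : ℝ) with hT
  have hFA : ∀ n, n + 2 ≤ 3 * N → ((FA N s z (X ^ n) : ℚ) : ℝ) = S n - zr 2 * T n := by
    intro n hn
    have h1 := FA_addz (N := N) (s := s) h (X ^ n) (by rw [natDegree_X_pow]; exact hn)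
    have h2 : ∑' t : ℕ, Rr N ((N : ℝ) + s + t) * Polynomial.aeval ((N : ℝ) + s + t)
        (X ^ n : ℚ[X]) = S n := by
      rw [hS]
      refine tsum_congr fun t => ?_
      rw [map_pow, aeval_X]
    rw [h2] at h1
    rw [hT]
    linarith
  have hmat : (Matrix.of fun i c : Fin K ⊕ Fin K =>
      Sum.elim (fun j : Fin K => FA N s z (X ^ (row i + j)))
        (fun j : Fin K => FB N b (X ^ (row i + j))) c).map (Rat.castHom ℝ) =
      (Matrix.of fun i c : Fin K ⊕ Fin K =>
        Sum.elim (fun j : Fin K => S (row i + j)) (fun j : Fin K => T (row i + j)) c) *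
      Matrix.fromBlocks (1 : Matrix (Fin K) (Fin K) ℝ) 0
        ((-(zr 2)) • (1 : Matrix (Fin K) (Fin K) ℝ)) 1 := by
    ext i c
    rw [Matrix.map_apply, Matrix.mul_apply, Fintype.sum_sum_type]
    have hi := row_ltz i
    rcases c with j | j
    · have hj := j.2
      simp only [Matrix.of_apply, Sum.elim_inl, Sum.elim_inr, Matrix.fromBlocks_apply₁₁,
        Matrix.fromBlocks_apply₂₁, Matrix.smul_apply, Matrix.one_apply, smul_eq_mul, mul_ite,
        mul_one, mul_zero, Finset.sum_ite_eq', Finset.mem_univ, if_true, Rat.coe_castHom]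
      rw [hFA _ (by omega)]
      ring
    · simp only [Matrix.of_apply, Sum.elim_inl, Sum.elim_inr, Matrix.fromBlocks_apply₁₂,
        Matrix.fromBlocks_apply₂₂, Matrix.one_apply, mul_ite,
        mul_one, mul_zero, Finset.sum_ite_eq', Finset.mem_univ, if_true, Rat.coe_castHom,
        Matrix.zero_apply, Finset.sum_const_zero, zero_add]
      rw [hT]
  have hdet : ((hank2 (FA N s z) (FB N b) K : ℚ) : ℝ) =
      Matrix.det ((Matrix.of fun i c : Fin K ⊕ Fin K =>
        Sum.elim (fun j : Fin K => FA N s z (X ^ (row i + j)))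
        (fun j : Fin K => FB N b (X ^ (row i + j))) c).map (Rat.castHom ℝ)) := by
    rw [hank2, det2]
    exact RingHom.map_det (Rat.castHom ℝ) _
  rw [hdet, hmat, Matrix.det_mul, Matrix.det_fromBlocks_zero₁₂, Matrix.det_one, det2, mul_one,
    mul_one]

end Z23
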