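import Pool.Agent.Lib.Z23.Defs
import Pool.Agent.Lib.Z579.Local

/-!
# Z23, module TwoA (about 260 lines): the relation between the germs at two poles `c`, `c + p`

Notation of DIM3/Disc, Disc2: `PP` = pairs of power series = expansions at the two poles, `d = -p`;
`xx d` is the function `x = v - c` (expansions `X`, `p + X`), `xd d` the function `x - p`;
`il d e` is `1/(x + e)`; `IR p d` is the ring of integral functions.

PROOF (template: `two_rel_pair` in DIM3/TwoLoc.lean, this is shorter).  Put `d = -p`.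
`M := ∑_{j ∈ Ioo c (c+p)} il d (c - j)`, `Z := ∑_{j ∈ Ioo (c+p) (N+s)} il d (c - j)`; both in
`IR p d`, because no `j` in `(c, c+p)` or `(c+p, N+s)` is congruent to `c` (`N + s ≤ c + 2 p`).
`gA c = z X^2 + M.1 + Z.1 + (lin (-p))⁻¹` (the term `j = c + p`), `gA (c+p) = z X^2 + Z.2`.
As `X = (xx d).1 = (xd d).2`: with `φ := z • (xx d)^2 + M + Z ∈ IR`,
`gA c = φ.1 + (lin (-p))⁻¹` and, since `(xd)^2 - (xx)^2 = -p (xx + xd)`,
`gA (c+p) = φ.2 - p z ((xx + xd).2) - M.2`.
Symmetry `j ↦ 2 c + p - j`: `2 M = (xx + xd) * I` with `I = ∑_j il d (c-j) * il d (j-c-p) ∈ IR`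
(`1/(x-m) + 1/(x-(p-m)) = (2x - p)/((x-m)(x-p+m))`, `xx + xd = 2x - p`); `p` is odd, so
`J := (1/2) • I + (p z) • 1 ∈ IR` and `gA (c+p) = φ.2 - ((xx + xd) * J).2`.
`gB` at the first pole is `ψ.1`, at the second `ψ.2 - p (1 + b (xx + xd)).2` with
`ψ := xx + b • xx^2`  (`xd - xx = -p`).
There is `E ∈ IR` with `(1 + xd * (xx + xd) * J) * E = 1`: if `evP d B * J = evP d A` with
`p ∤ B.coeff 0` then `evP d B * (1 + xd (xx + xd) J) = evP d B'`,
`B' = B + (X + C d) (2 X + C d) A`, `B'.coeff 0 = B.coeff 0 + d^2 A.coeff 0` is prime to `p`;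
take `E = evP d B * pinv (evP d B')` and use `evP_mul_pinv`, `pinv_evP_mem`.
`V := (1 + b • (xx + xd)) * E`, `T := xd * V`, `U := ψ - p • (T * φ) - p • V`.
First component: `gB - p T gA = ψ - p T φ - p T (lin (-p))⁻¹` and `T.1 = lin (-p) * V.1`.
Second component: `gB - p T gA = ψ - p (1 + b (xx+xd)) - p T φ + p T (xx + xd) J`
`= ψ - p T φ - p V`, because `V (1 + xd (xx+xd) J) = 1 + b (xx + xd)`.
Last claim: `gA (c+p) = z X^2 + Z.2` and `IR_WA`.
-/

open Polynomial Finset Z579 DIM3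

namespace Z23

/-- the germ of `F` at the pole `u` -/
noncomputable def gA (N s : ℕ) (z : ℚ) (u : ℕ) : PowerSeries ℚ :=
  z • PowerSeries.X ^ 2 + ∑ j ∈ Finset.Ioo u (N + s), (lin ((u : ℤ) - j))⁻¹

/-- the germ of `λ_2 + b λ_3` -/
noncomputable def gB (b : ℚ) : PowerSeries ℚ := PowerSeries.X + b • PowerSeries.X ^ 2

/-- the inverse of `1 + (x + d) (2 x + d) J` -/
private lemma exists_inv {p : ℕ} [hp : Fact p.Prime] {d : ℤ} (hd : (p : ℤ) ∣ d) {J : PP}
    (hJ : J ∈ IR p d) : ∃ E ∈ IR p d, (1 + xd d * (xx d + xd d) * J) * E = 1 := by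
  obtain ⟨A, B, hB, hJ⟩ := hJ
  have hB' : ¬ (p : ℤ) ∣ (B + (X + Polynomial.C d) * (2 * X + Polynomial.C d) * A).coeff 0 := by
    have h1 : (B + (X + Polynomial.C d) * (2 * X + Polynomial.C d) * A).coeff 0 =
        B.coeff 0 + d * (d * A.coeff 0) := by
      rw [Polynomial.coeff_zero_eq_eval_zero, Polynomial.coeff_zero_eq_eval_zero,
        Polynomial.coeff_zero_eq_eval_zero]
      simp
      ring
    rw [h1]
    intro h
    exact hB ((dvd_add_left (hd.mul_right _)).1 h)
  have h2 : evP d (B + (X + Polynomial.C d) * (2 * X + Polynomial.C d) * A) =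
      evP d B * (1 + xd d * (xx d + xd d) * J) := by
    have h3 : (2 * X + Polynomial.C d : ℤ[X]) = X + (X + Polynomial.C d) := by ring
    have h5 : evP d (2 * X + Polynomial.C d) = xx d + xd d := by
      rw [h3, map_add, evP_X, evP_X_add_d]
    rw [map_add, map_mul, map_mul, evP_X_add_d, h5, ← hJ]
    ring
  refine ⟨evP d B * pinv (evP d (B + (X + Polynomial.C d) * (2 * X + Polynomial.C d) * A)),
    Subring.mul_mem _ (evP_mem d B) (pinv_evP_mem hd hB'), ?_⟩
  have h4 := evP_mul_pinv hd hB'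
  rw [h2] at h4 ⊢
  calc _ = evP d B * (1 + xd d * (xx d + xd d) * J) *
        pinv (evP d B * (1 + xd d * (xx d + xd d) * J)) := by ring
    _ = 1 := h4

private lemma VG_half {p : ℕ} [hp : Fact p.Prime] (hp2 : p ≠ 2) : VG p 0 (1 / 2 : ℚ) := by
  have h : ¬ (p : ℤ) ∣ 2 := by
    intro h
    have h1 : p ∣ 2 := by exact_mod_cast h
    exact hp2 ((Nat.prime_dvd_prime_iff_eq hp.out Nat.prime_two).1 h1)
  have := VG_inv_unit (p := p) h
  rw [one_div]
  exact_mod_cast this

theorem germ_rel {p N s c : ℕ} [hp : Fact p.Prime] (hp2 : p ≠ 2) (hc : c < p) (h1 : c + p < N)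
    (h2 : N + s ≤ c + 2 * p) {z b : ℚ} (hz : VG p 0 z) (hb : VG p 0 b) :
    ∃ U ∈ IR p (-(p : ℤ)), ∃ T ∈ IR p (-(p : ℤ)),
      ((gB b, gB b) : PP) = U + (p : ℚ) • (T * (gA N s z c, gA N s z (c + p))) ∧
      WA p 0 0 (gA N s z (c + p)) := by
  set d : ℤ := -(p : ℤ) with hd0
  have hd : (p : ℤ) ∣ d := by rw [hd0]; exact (dvd_refl _).neg_right
  have hpp : 0 < p := hp.out.pos
  have hdne : d ≠ 0 := by rw [hd0]; omega
  have hdp : -d = (p : ℤ) := by rw [hd0]; ring
  set Mi := Finset.Ioo c (c + p) with hMi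
  set Hi := Finset.Ioo (c + p) (N + s) with hHi
  have hMim : ∀ j ∈ Mi, ¬ (p : ℤ) ∣ (c : ℤ) - j := by
    intro j hj hdiv
    rw [hMi, Finset.mem_Ioo] at hj
    have h3 : (p : ℤ) ∣ (j : ℤ) - c := by
      have := hdiv.neg_right
      rwa [neg_sub] at this
    have h4 := Int.le_of_dvd (by omega) h3
    omega
  have hMim' : ∀ j ∈ Mi, ¬ (p : ℤ) ∣ (j : ℤ) - c - p := by
    intro j hj hdiv
    apply hMim j hj
    have h3 := dvd_add hdiv (dvd_refl (p : ℤ))
    rw [sub_add_cancel] at h3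
    have := h3.neg_right
    rwa [neg_sub] at this
  have hHim : ∀ j ∈ Hi, ¬ (p : ℤ) ∣ (c : ℤ) - j := by
    intro j hj hdiv
    rw [hHi, Finset.mem_Ioo] at hj
    have h3 : (p : ℤ) ∣ (j : ℤ) - c - p := by
      have := dvd_sub hdiv.neg_right (dvd_refl (p : ℤ))
      rwa [neg_sub] at this
    have h4 := Int.le_of_dvd (by omega) h3
    omega
  set M : PP := ∑ j ∈ Mi, il d ((c : ℤ) - j) with hM
  set Z : PP := ∑ j ∈ Hi, il d ((c : ℤ) - j) with hZ
  have hMm : M ∈ IR p d := Subring.sum_mem _ fun j hj => il_mem hd (hMim j hj)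
  have hZm : Z ∈ IR p d := Subring.sum_mem _ fun j hj => il_mem hd (hHim j hj)
  set I : PP := ∑ j ∈ Mi, il d ((c : ℤ) - j) * il d ((j : ℤ) - c - p) with hI
  have hIm : I ∈ IR p d := Subring.sum_mem _ fun j hj =>
    Subring.mul_mem _ (il_mem hd (hMim j hj)) (il_mem hd (hMim' j hj))
  have hrefl : ∀ j ∈ Mi, 2 * c + p - j ∈ Mi := by
    intro j hj
    rw [hMi, Finset.mem_Ioo] at hj ⊢
    omega
  have h2M : 2 * M = (xx d + xd d) * I := by
    have e1 : M = ∑ j ∈ Mi, il d ((j : ℤ) - c - p) := by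
      rw [hM]
      refine Finset.sum_nbij' (fun j => 2 * c + p - j) (fun j => 2 * c + p - j) hrefl hrefl
        ?_ ?_ ?_
      · intro j hj
        rw [hMi, Finset.mem_Ioo] at hj
        show 2 * c + p - (2 * c + p - j) = j
        omega
      · intro j hj
        rw [hMi, Finset.mem_Ioo] at hj
        show 2 * c + p - (2 * c + p - j) = j
        omega
      · intro j hj
        rw [hMi, Finset.mem_Ioo] at hj
        congr 1
        show (c : ℤ) - j = ((2 * c + p - j : ℕ) : ℤ) - c - p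
        omega
    calc 2 * M = M + M := by ring
      _ = ∑ j ∈ Mi, il d ((c : ℤ) - j) + ∑ j ∈ Mi, il d ((j : ℤ) - c - p) := by
          conv_lhs => rw [e1]
          rw [← e1]
      _ = ∑ j ∈ Mi, (il d ((c : ℤ) - j) + il d ((j : ℤ) - c - p)) := by
          rw [Finset.sum_add_distrib]
      _ = (xx d + xd d) * I := by
          rw [hI, Finset.mul_sum]
          refine Finset.sum_congr rfl fun j hj => ?_
          have f1 := il_mul hd (hMim j hj)
          have f2 := il_mul hd (hMim' j hj)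
          rw [lin_pair] at f1 f2
          have f3 : xx d + xd d = (xx d + (((c : ℤ) - j : ℤ) : ℚ) • (1 : PP)) +
              (xx d + (((j : ℤ) - c - p : ℤ) : ℚ) • (1 : PP)) := by
            rw [xd_eq]
            have : (d : ℚ) • (1 : PP) = (((c : ℤ) - j : ℤ) : ℚ) • (1 : PP) +
                (((j : ℤ) - c - p : ℤ) : ℚ) • (1 : PP) := by
              rw [← add_smul]
              congr 1
              rw [hd0]
              push_cast
              ring
            rw [this]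
            ring
          rw [f3]
          calc il d ((c : ℤ) - j) + il d ((j : ℤ) - c - p) =
              ((xx d + (((c : ℤ) - j : ℤ) : ℚ) • (1 : PP)) * il d ((c : ℤ) - j)) *
                il d ((j : ℤ) - c - p) +
              ((xx d + (((j : ℤ) - c - p : ℤ) : ℚ) • (1 : PP)) * il d ((j : ℤ) - c - p)) *
                il d ((c : ℤ) - j) := by
                rw [f1, f2]; ring
            _ = _ := by ring
  -- the germs
  have hf1 : gA N s z c = z • PowerSeries.X ^ 2 + M.1 + Z.1 + (lin d)⁻¹ := by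
    have hset : Finset.Ioo c (N + s) = insert (c + p) (Mi ∪ Hi) := by
      ext j
      rw [hMi, hHi, Finset.mem_insert, Finset.mem_union, Finset.mem_Ioo, Finset.mem_Ioo,
        Finset.mem_Ioo]
      omega
    have hn1 : c + p ∉ Mi ∪ Hi := by
      rw [hMi, hHi, Finset.mem_union, Finset.mem_Ioo, Finset.mem_Ioo]
      omega
    have hdis : Disjoint Mi Hi := by
      rw [Finset.disjoint_left]
      intro j g1 g2
      rw [hMi, Finset.mem_Ioo] at g1
      rw [hHi, Finset.mem_Ioo] at g2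
      omega
    rw [gA, hset, Finset.sum_insert hn1, Finset.sum_union hdis, hM, hZ, Prod.fst_sum,
      Prod.fst_sum]
    have h3 : (c : ℤ) - ((c + p : ℕ) : ℤ) = d := by rw [hd0]; push_cast; ring
    rw [h3]
    simp only [il]
    ring
  have hf2 : gA N s z (c + p) = z • PowerSeries.X ^ 2 + Z.2 := by
    rw [gA, hZ, Prod.snd_sum]
    congr 1
    refine Finset.sum_congr rfl fun j _ => ?_
    simp only [il]
    congr 2
    rw [hd0]
    push_cast
    ring
  have hWA : WA p 0 0 (gA N s z (c + p)) := by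
    have e1 : gA N s z (c + p) = (z • xd d ^ 2 + Z).2 := by
      rw [hf2]
      rfl
    rw [e1]
    exact (IR_WA hd (Subring.add_mem _ (smul_mem_IR d hz (Subring.pow_mem _ (xd_mem d) 2))
      hZm)).2
  have hpV : VG p 0 (p : ℚ) := by
    have := VG.int (p := p) (p : ℤ)
    exact_mod_cast this
  have hpz : VG p 0 ((p : ℚ) * z) := by
    have := hpV.mul hz
    simpa using this
  set J : PP := (1 / 2 : ℚ) • I + ((p : ℚ) * z) • (1 : PP) with hJ
  have hJm : J ∈ IR p d := Subring.add_mem _ (smul_mem_IR d (VG_half hp2) hIm)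
    (const_mem d hpz)
  obtain ⟨E, hEm, hEe⟩ := exists_inv hd hJm
  set V : PP := (1 + b • (xx d + xd d)) * E with hV
  have hVm : V ∈ IR p d := Subring.mul_mem _ (Subring.add_mem _ (Subring.one_mem _)
    (smul_mem_IR d hb (Subring.add_mem _ (xx_mem d) (xd_mem d)))) hEm
  have hVe : (1 + xd d * (xx d + xd d) * J) * V = 1 + b • (xx d + xd d) := by
    rw [hV]
    calc (1 + xd d * (xx d + xd d) * J) * ((1 + b • (xx d + xd d)) * E) =
        (1 + b • (xx d + xd d)) * ((1 + xd d * (xx d + xd d) * J) * E) := by ring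
      _ = _ := by rw [hEe, mul_one]
  set T : PP := xd d * V with hT
  have hTm : T ∈ IR p d := Subring.mul_mem _ (xd_mem d) hVm
  set φ : PP := z • xx d ^ 2 + M + Z with hφ
  have hφm : φ ∈ IR p d := Subring.add_mem _ (Subring.add_mem _
    (smul_mem_IR d hz (Subring.pow_mem _ (xx_mem d) 2)) hMm) hZm
  set ψ : PP := xx d + b • xx d ^ 2 with hψ
  have hψm : ψ ∈ IR p d := Subring.add_mem _ (xx_mem d)
    (smul_mem_IR d hb (Subring.pow_mem _ (xx_mem d) 2))
  set U : PP := ψ - (p : ℚ) • (T * φ) - (p : ℚ) • V with hU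
  have hUm : U ∈ IR p d := Subring.sub_mem _ (Subring.sub_mem _ hψm
    (smul_mem_IR d hpV (Subring.mul_mem _ hTm hφm))) (smul_mem_IR d hpV hVm)
  refine ⟨U, hUm, T, hTm, ?_, hWA⟩
  have hxx1 : (xx d).1 = PowerSeries.X := rfl
  have hxx2 : (xx d).2 = lin (p : ℤ) := by
    show lin (-d) = lin (p : ℤ)
    rw [hdp]
  have hxd1 : (xd d).1 = lin d := rfl
  have hxd2 : (xd d).2 = PowerSeries.X := rfl
  have hlinp : lin (p : ℤ) = PowerSeries.X + (p : ℚ) • (1 : PowerSeries ℚ) := by
    rw [lin, PowerSeries.smul_eq_C_mul, mul_one]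
    push_cast
    rfl
  ext1
  · -- first component
    have e1 : lin d * (lin d)⁻¹ = 1 := lin_mul_inv hdne
    have e2 : gA N s z c = φ.1 + (lin d)⁻¹ := by
      rw [hf1, hφ]
      rfl
    have e3 : U.1 = (PowerSeries.X + b • PowerSeries.X ^ 2) - (p : ℚ) • (T.1 * φ.1) -
        (p : ℚ) • V.1 := rfl
    have e4 : T.1 = lin d * V.1 := rfl
    show gB b = U.1 + (p : ℚ) • (T.1 * gA N s z c)
    have e5 : T.1 * gA N s z c = T.1 * φ.1 + V.1 := by
      rw [e2, mul_add]
      congr 1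
      rw [e4]
      linear_combination V.1 * e1
    rw [e5, e3, gB, smul_add]
    ring
  · -- second component
    have h2M' : 2 * M.2 = (lin (p : ℤ) + PowerSeries.X) * I.2 := by
      have := congrArg Prod.snd h2M
      rw [Prod.snd_mul, Prod.snd_mul, Prod.snd_add, hxx2, hxd2] at this
      exact this
    have hJ2 : J.2 = (1 / 2 : ℚ) • I.2 + ((p : ℚ) * z) • (1 : PowerSeries ℚ) := rfl
    have hMJ : M.2 + ((p : ℚ) * z) • (lin (p : ℤ) + PowerSeries.X) =
        (lin (p : ℤ) + PowerSeries.X) * J.2 := by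
      have h3 : M.2 = (1 / 2 : ℚ) • ((lin (p : ℤ) + PowerSeries.X) * I.2) := by
        rw [← h2M', two_mul, smul_add, ← add_smul]
        norm_num
      rw [h3, hJ2, mul_add, mul_smul_comm, mul_smul_comm, mul_one]
    have e2 : gA N s z (c + p) = φ.2 - (lin (p : ℤ) + PowerSeries.X) * J.2 := by
      have eφ : φ.2 = z • lin (p : ℤ) ^ 2 + M.2 + Z.2 := by
        rw [hφ, Prod.snd_add, Prod.snd_add, Prod.smul_snd, Prod.pow_snd, hxx2]
      rw [← hMJ, eφ, hf2, hlinp]
      simp only [Algebra.smul_def, map_mul]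
      ring
    have e3 : U.2 = (lin (p : ℤ) + b • lin (p : ℤ) ^ 2) - (p : ℚ) • (T.2 * φ.2) -
        (p : ℚ) • V.2 := by
      rw [hU, Prod.snd_sub, Prod.snd_sub, Prod.smul_snd, Prod.smul_snd, Prod.snd_mul, hψ,
        Prod.snd_add, Prod.smul_snd, Prod.pow_snd, hxx2]
    have e4 : T.2 = PowerSeries.X * V.2 := rfl
    have e5 : (1 + PowerSeries.X * (lin (p : ℤ) + PowerSeries.X) * J.2) * V.2 =
        1 + b • (lin (p : ℤ) + PowerSeries.X) := by
      have h3 := congrArg Prod.snd hVe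
      have h4 : ((1 + xd d * (xx d + xd d) * J) * V).2 =
          (1 + (xd d).2 * ((xx d).2 + (xd d).2) * J.2) * V.2 := rfl
      have h5 : (1 + b • (xx d + xd d) : PP).2 = 1 + b • ((xx d).2 + (xd d).2) := rfl
      rw [h4, h5, hxx2, hxd2] at h3
      exact h3
    show gB b = U.2 + (p : ℚ) • (T.2 * gA N s z (c + p))
    have e6 : T.2 * gA N s z (c + p) = T.2 * φ.2 + V.2 -
        (1 + b • (lin (p : ℤ) + PowerSeries.X)) := by
      rw [e2, e4]
      linear_combination (-1 : PowerSeries ℚ) * e5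
    rw [e6, e3, gB, hlinp]
    simp only [Algebra.smul_def]
    ring

end Z23
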