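import Pool.Agent.Lib.Z23.TwoA
import Pool.Agent.Lib.Z23.Cls

/-!
# Z23, module TwoRel (about 280 lines): the two-pole relation

PROOF (templates: `sum_Acoef_eq`, `base_u`, `base_ud`, `rho_mem`, `two_poles`, `coeff_gF` in
DIM3/TwoLoc.lean and DIM3/TwoLoc2.lean).  `d = -p`, `PP`, `Rs`, `IR` as in DIM3/Disc.
(1) `∑_{i=1}^{3} ω i * Ac N u i G = coeff 2 (base N u * aeval (lin u) G * f)` if
`coeff (i-1) f = ω i` for `i = 1, 2, 3`.
(2) `coeff (i-1) (gA N s z u) = wtA N s z u i` and `coeff (i-1) (gB b) = wtB b u i` for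
`1 ≤ i ≤ 3`: `coeff_lin_inv`: the coefficient of `x^(i-1)` in `1/(x - m)` is `-m^(-i)`; the sum over
`j ∈ Ioo u (N+s)`, `m = j - u ∈ [1, N+s-1-u]`, is `-Hs i (N+s-1-u)`.
(3) the poles of the class of `c` are `c` and `c + p` (`N ≤ c + 2p`); with
`rho := (∏ w ∈ ((range N).erase c).erase (c+p), il d (c - w))^3 ∈ IR` and the algebra map
`GV : ℚ[X] →ₐ PP`, `X ↦ (lin c, lin (c + p))` (`GV G ∈ IR` for `IPoly p G`; note
`lin (c - d) = lin (c + p)`, `lin_mem`), `base N c = rho.1 * ((lin d)⁻¹)^3`,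
`base N (c+p) = rho.2 * ((lin (-d))⁻¹)^3`, so the functional with germs `f1, f2` is
`Rs d 3 3 (rho * GV G * (f1, f2))`.
(4) with `U, T` of `germ_rel`: `LfC (wtB b) G = Rs d 3 3 (rho * GV G * U) +
p * Rs d 3 3 (rho * GV G * T * (gA c, gA (c+p)))`; the first term is integral (`Rs_int`).
(5) split `T = GV S + xx^3 * h'` with `S` an `IPoly` (polynomial in `X - C c`, degree `≤ 2`) and
`h' ∈ IR`: `IR_split` three times, `GV (X - C c) = xx d`.
(6) `Rs d 3 3 (xx^3 * k) ` with `k = rho * GV G * h' * (gA c, gA (c+p))`: the residue at the first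
pole vanishes (`X^3` divides), at the second pole it is `coeff 2 (k.2)` (`lin (-d) = lin p` cancels),
integral because `WA p 0 0` of all factors (`IR_WA`, last claim of `germ_rel`).  Hence
`LfC (wtB b) G - p * LfC (wtA) (S * G)` is integral.
-/

open Polynomial Finset Z579 DIM3

namespace Z23

set_option linter.unusedSectionVars false

private lemma sum_Ac_eq (N u : ℕ) (ω : ℕ → ℚ) (f : PowerSeries ℚ)
    (hf : ∀ i, 1 ≤ i → i ≤ 3 → PowerSeries.coeff (i - 1) f = ω i) (G : ℚ[X]) :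
    ∑ i ∈ Finset.Icc 1 3, ω i * Ac N u i G =
      PowerSeries.coeff 2 (base N u * Polynomial.aeval (lin (u : ℤ)) G * f) := by
  rw [PowerSeries.coeff_mul]
  refine Finset.sum_nbij' (fun i => (3 - i, i - 1)) (fun x => x.2 + 1) ?_ ?_ ?_ ?_ ?_
  · intro i hi
    rw [Finset.mem_Icc] at hi
    rw [Finset.HasAntidiagonal.mem_antidiagonal]
    show 3 - i + (i - 1) = 2
    omega
  · intro x hx
    rw [Finset.HasAntidiagonal.mem_antidiagonal] at hx
    rw [Finset.mem_Icc]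
    omega
  · intro i hi
    rw [Finset.mem_Icc] at hi
    show i - 1 + 1 = i
    omega
  · intro x hx
    rw [Finset.HasAntidiagonal.mem_antidiagonal] at hx
    ext
    · show 3 - (x.2 + 1) = x.1
      omega
    · show x.2 + 1 - 1 = x.2
      omega
  · intro i hi
    rw [Finset.mem_Icc] at hi
    rw [Ac_apply, hf i hi.1 hi.2, mul_comm]

private lemma coeff_gB' (b : ℚ) (u : ℕ) {i : ℕ} (h1 : 1 ≤ i) (h2 : i ≤ 3) :
    PowerSeries.coeff (i - 1) (gB b) = wtB b u i := by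
  rw [gB, map_add, PowerSeries.coeff_smul, PowerSeries.coeff_X, PowerSeries.coeff_X_pow, wtB]
  interval_cases i <;> norm_num

private lemma coeff_gA' (N s : ℕ) (z : ℚ) {u : ℕ} {i : ℕ} (h1 : 1 ≤ i) (h2 : i ≤ 3) :
    PowerSeries.coeff (i - 1) (gA N s z u) = wtA N s z u i := by
  rw [gA, map_add, PowerSeries.coeff_smul, PowerSeries.coeff_X_pow, wtA, map_sum, Hs, sub_eq_add_neg,
    ← Finset.sum_neg_distrib]
  congr 1
  · interval_cases i <;> norm_num
  · refine Finset.sum_nbij' (fun j => j - u - 1) (fun k => u + 1 + k) ?_ ?_ ?_ ?_ ?_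
    · intro j hj
      rw [Finset.mem_Ioo] at hj
      rw [Finset.mem_range]
      omega
    · intro k hk
      rw [Finset.mem_range] at hk
      rw [Finset.mem_Ioo]
      omega
    · intro j hj
      rw [Finset.mem_Ioo] at hj
      show u + 1 + (j - u - 1) = j
      omega
    · intro k hk
      show u + 1 + k - u - 1 = k
      omega
    · intro j hj
      rw [Finset.mem_Ioo] at hj
      rw [coeff_lin_inv (by omega)]
      obtain ⟨m, rfl⟩ : ∃ m, j = u + 1 + m := ⟨j - u - 1, by omega⟩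
      have e1 : u + 1 + m - u - 1 = m := by omega
      have e2 : (((u : ℤ) - ((u + 1 + m : ℕ) : ℤ) : ℤ) : ℚ) = -((m : ℚ) + 1) := by
        push_cast; ring
      obtain ⟨k, rfl⟩ : ∃ k, i = k + 1 := ⟨i - 1, by omega⟩
      show (-1) ^ (k + 1 - 1) * ((((u : ℤ) - ((u + 1 + m : ℕ) : ℤ) : ℤ) : ℚ)⁻¹) ^ (k + 1 - 1 + 1) =
        -(1 / (((u + 1 + m - u - 1 : ℕ) : ℚ) + 1) ^ (k + 1))
      rw [e1, e2, Nat.add_sub_cancel, inv_neg, neg_pow _ (k + 1), pow_succ (-1 : ℚ), one_div,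
        ← inv_pow]
      have e3 : ((-1 : ℚ) ^ k) * (-1) ^ k = 1 := by
        rw [← mul_pow]; norm_num
      linear_combination (-(((m : ℚ) + 1)⁻¹ ^ (k + 1))) * e3

section

variable {p : ℕ} [hp : Fact p.Prime]

/-- the regular part of `R` -/
private noncomputable def rhoP (p N c : ℕ) : PP :=
  (∏ w ∈ ((Finset.range N).erase c).erase (c + p), il (-(p : ℤ)) ((c : ℤ) - w)) ^ 3

private lemma base_c {N c : ℕ} (hp0 : 0 < p) (hcp : c + p < N) :
    base N c = (rhoP p N c).1 * ((lin (-(p : ℤ)))⁻¹) ^ 3 := by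
  have hmem : c + p ∈ (Finset.range N).erase c := by
    rw [Finset.mem_erase, Finset.mem_range]
    exact ⟨by omega, hcp⟩
  rw [base, PS_prod_inv, ← Finset.mul_prod_erase _ _ hmem, rhoP, Prod.pow_fst, Prod.fst_prod]
  have h1 : (c : ℤ) - ((c + p : ℕ) : ℤ) = -(p : ℤ) := by push_cast; ring
  rw [h1]
  simp only [il]
  ring

private lemma base_cp {N c : ℕ} (hp0 : 0 < p) (hcp : c + p < N) :
    base N (c + p) = (rhoP p N c).2 * ((lin (- -(p : ℤ)))⁻¹) ^ 3 := by
  have hmem : c ∈ (Finset.range N).erase (c + p) := by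
    rw [Finset.mem_erase, Finset.mem_range]
    exact ⟨by omega, by omega⟩
  rw [base, PS_prod_inv, ← Finset.mul_prod_erase _ _ hmem, rhoP, Prod.pow_snd, Prod.snd_prod,
    Finset.erase_right_comm]
  have h1 : ((c + p : ℕ) : ℤ) - (c : ℤ) = - -(p : ℤ) := by push_cast; ring
  rw [h1]
  simp only [il]
  have h4 : ∀ w : ℕ, ((c + p : ℕ) : ℤ) - (w : ℤ) = (c : ℤ) - w - -(p : ℤ) := fun w => by
    push_cast; ring
  simp only [h4]
  ring

private lemma neg_p_dvd : (p : ℤ) ∣ -(p : ℤ) := (dvd_refl _).neg_right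

private lemma rhoP_mem {N c : ℕ} (hc : c < p) (hN : N ≤ c + 2 * p) :
    rhoP p N c ∈ IR p (-(p : ℤ)) := by
  rw [rhoP]
  refine Subring.pow_mem _ (Subring.prod_mem _ fun w hw => ?_) _
  rw [Finset.mem_erase, Finset.mem_erase, Finset.mem_range] at hw
  refine il_mem neg_p_dvd ?_
  rintro ⟨k, hk⟩
  have hp0 : (0 : ℤ) < p := by exact_mod_cast hp.out.pos
  have h1 : -2 < k := by
    by_contra h
    push Not at h
    have h2 : (p : ℤ) * k ≤ p * (-2) := mul_le_mul_of_nonneg_left h hp0.le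
    omega
  have h2 : k < 1 := by
    by_contra h
    push Not at h
    have h2 : (p : ℤ) * 1 ≤ p * k := mul_le_mul_of_nonneg_left h hp0.le
    omega
  have h3 : k = -1 ∨ k = 0 := by omega
  rcases h3 with rfl | rfl
  · apply hw.1
    omega
  · apply hw.2.1
    omega

/-- expansions of a polynomial in `v` at the two poles `v = c`, `v = c + p` -/
private noncomputable def GV (p c : ℕ) : ℚ[X] →ₐ[ℚ] PP :=
  Polynomial.aeval ((lin (c : ℤ), lin ((c : ℤ) - -(p : ℤ))) : PP)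

private lemma GV_fst (c : ℕ) (G : ℚ[X]) :
    (GV p c G).1 = Polynomial.aeval (lin (c : ℤ)) G := by
  have h : (AlgHom.fst ℚ (PowerSeries ℚ) (PowerSeries ℚ)).comp (GV p c) =
      Polynomial.aeval (lin (c : ℤ)) := by
    apply Polynomial.algHom_ext
    simp [GV]
  exact congrArg (fun f => f G) h

private lemma GV_snd (c : ℕ) (G : ℚ[X]) :
    (GV p c G).2 = Polynomial.aeval (lin ((c + p : ℕ) : ℤ)) G := by
  have h : (AlgHom.snd ℚ (PowerSeries ℚ) (PowerSeries ℚ)).comp (GV p c) =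
      Polynomial.aeval (lin ((c + p : ℕ) : ℤ)) := by
    apply Polynomial.algHom_ext
    simp only [GV, AlgHom.comp_apply, Polynomial.aeval_X, AlgHom.snd_apply]
    congr 1
    push_cast
    ring
  exact congrArg (fun f => f G) h

private lemma GV_mem (c : ℕ) {G : ℚ[X]} (hG : IPoly p G) : GV p c G ∈ IR p (-(p : ℤ)) := by
  rw [GV, Polynomial.aeval_eq_sum_range]
  refine Subring.sum_mem _ fun i _ => ?_
  exact smul_mem_IR _ (hG i) (Subring.pow_mem _ (lin_mem _ (c : ℤ)) _)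

private lemma GV_xx (c : ℕ) : GV p c (X - Polynomial.C (c : ℚ)) = xx (-(p : ℤ)) := by
  rw [GV, map_sub, Polynomial.aeval_X, Polynomial.aeval_C, lin_pair,
    Algebra.algebraMap_eq_smul_one]
  have h1 : (((c : ℕ) : ℤ) : ℚ) = (c : ℚ) := Int.cast_natCast c
  rw [h1]
  ring

private lemma two_poles' {N c : ℕ} (hcp : c + p < N) (f1 f2 : PowerSeries ℚ) (G : ℚ[X]) :
    PowerSeries.coeff 2 (base N c * Polynomial.aeval (lin (c : ℤ)) G * f1) +
      PowerSeries.coeff 2 (base N (c + p) * Polynomial.aeval (lin ((c + p : ℕ) : ℤ)) G * f2) =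
    Rs (-(p : ℤ)) 3 3 (rhoP p N c * GV p c G * (f1, f2)) := by
  rw [Rs, PowerSeries.coeff_succ_X_mul, PowerSeries.coeff_succ_X_mul, base_c hp.out.pos hcp,
    base_cp hp.out.pos hcp]
  simp only [Prod.fst_mul, Prod.snd_mul, GV_fst, GV_snd]
  congr 2 <;> ring

private lemma LfC_two {N c : ℕ} (hc : c < p) (hcp : c + p < N) (hN : N ≤ c + 2 * p)
    (ω : ℕ → ℕ → ℚ) (f1 f2 : PowerSeries ℚ)
    (h1 : ∀ i, 1 ≤ i → i ≤ 3 → PowerSeries.coeff (i - 1) f1 = ω c i)
    (h2 : ∀ i, 1 ≤ i → i ≤ 3 → PowerSeries.coeff (i - 1) f2 = ω (c + p) i) (G : ℚ[X]) :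
    LfC p N c ω G = Rs (-(p : ℤ)) 3 3 (rhoP p N c * GV p c G * (f1, f2)) := by
  have hset : (Finset.range N).filter (fun u => u % p = c) = {c, c + p} := by
    ext u
    rw [Finset.mem_filter, Finset.mem_range, Finset.mem_insert, Finset.mem_singleton]
    constructor
    · rintro ⟨hu, hm⟩
      have h3 := Nat.div_add_mod u p
      rw [hm] at h3
      have h4 : u / p < 2 := by
        by_contra h
        push Not at h
        have h5 : p * 2 ≤ p * (u / p) := Nat.mul_le_mul_left p h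
        omega
      obtain ⟨k, hk⟩ : ∃ k, u / p = k := ⟨_, rfl⟩
      rw [hk] at h3 h4
      have h5 : k = 0 ∨ k = 1 := by omega
      rcases h5 with rfl | rfl
      · rw [mul_zero, zero_add] at h3
        left; exact h3.symm
      · rw [mul_one] at h3
        right; omega
    · rintro (rfl | rfl)
      · exact ⟨by omega, Nat.mod_eq_of_lt hc⟩
      · exact ⟨hcp, by rw [Nat.add_mod_right, Nat.mod_eq_of_lt hc]⟩
  have hne : c ∉ ({c + p} : Finset ℕ) := by
    rw [Finset.mem_singleton]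
    have := hp.out.pos
    omega
  have h3 : LfC p N c ω G = ∑ u ∈ (Finset.range N).filter (fun u => u % p = c),
      ∑ i ∈ Finset.Icc 1 3, ω u i * Ac N u i G := by
    simp [LfC, LinearMap.sum_apply]
  rw [h3, hset, Finset.sum_insert hne, Finset.sum_singleton, sum_Ac_eq N c (ω c) f1 h1,
    sum_Ac_eq N (c + p) (ω (c + p)) f2 h2, two_poles' hcp]

private lemma expand (c : ℕ) {h : PP} (hh : h ∈ IR p (-(p : ℤ))) (n : ℕ) :
    ∃ S : ℚ[X], IPoly p S ∧ ∃ h' ∈ IR p (-(p : ℤ)),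
      h = GV p c S + xx (-(p : ℤ)) ^ n * h' := by
  induction n with
  | zero => exact ⟨0, IPoly.zero, h, hh, by simp⟩
  | succ n ih =>
    obtain ⟨S, hS, h', hh', heq⟩ := ih
    obtain ⟨x, hx, h'', hh'', heq'⟩ := IR_split neg_p_dvd hh'
    refine ⟨S + Polynomial.C x * (X - Polynomial.C (c : ℚ)) ^ n, ?_, h'', hh'', ?_⟩
    · refine hS.add ((IPoly.C hx).mul (IPoly.pow ?_ n))
      have := IPoly.X_sub_C (p := p) (c : ℤ)
      rwa [Int.cast_natCast] at this
    · rw [heq, heq', map_add, map_mul, map_pow, GV_xx]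
      have h1 : GV p c (Polynomial.C x) = x • (1 : PP) := by
        rw [GV, Polynomial.aeval_C, Algebra.algebraMap_eq_smul_one]
      rw [h1]
      ring

private lemma Rs_xx_int {k : PP} (hk : WA p 0 0 k.2) :
    VG p 0 (Rs (-(p : ℤ)) 3 3 (xx (-(p : ℤ)) ^ 3 * k)) := by
  have hp0 : (- -(p : ℤ)) ≠ 0 := by
    rw [neg_neg]
    exact_mod_cast hp.out.ne_zero
  have h1 : (xx (-(p : ℤ)) ^ 3 * k).1 * ((lin (-(p : ℤ)))⁻¹) ^ 3 =
      PowerSeries.X ^ 3 * (k.1 * ((lin (-(p : ℤ)))⁻¹) ^ 3) := by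
    rw [Prod.fst_mul, Prod.pow_fst]
    have : (xx (-(p : ℤ))).1 = PowerSeries.X := rfl
    rw [this]
    ring
  have h2 : (xx (-(p : ℤ)) ^ 3 * k).2 * ((lin (- -(p : ℤ)))⁻¹) ^ 3 = k.2 := by
    rw [Prod.snd_mul, Prod.pow_snd]
    have h3 : (xx (-(p : ℤ))).2 = lin (- -(p : ℤ)) := rfl
    have e1 : lin (- -(p : ℤ)) * (lin (- -(p : ℤ)))⁻¹ = 1 := lin_mul_inv hp0
    have e2 : (lin (- -(p : ℤ)) * (lin (- -(p : ℤ)))⁻¹) ^ 3 = 1 := by rw [e1, one_pow]
    rw [h3]
    linear_combination k.2 * e2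
  rw [Rs, h1, h2, PowerSeries.coeff_succ_X_mul, PowerSeries.coeff_succ_X_mul,
    PowerSeries.coeff_X_pow_mul']
  rw [if_neg (by norm_num), zero_add]
  have h4 := hk 2
  simpa using h4

end

theorem twoRel : TwoRel := by
  intro p N s c z b hpp hp2 hc hcp hN hNs hz hb
  have : Fact p.Prime := ⟨hpp⟩
  obtain ⟨U, hU, T, hT, hrel, hWA⟩ := germ_rel (s := s) hp2 hc hcp hNs hz hb
  obtain ⟨S, hS, h', hh', hTS⟩ := expand c hT 3
  refine ⟨S, hS, fun G hG => ?_⟩
  have hd0 : (-(p : ℤ)) ≠ 0 := neg_ne_zero.2 (by exact_mod_cast hpp.ne_zero)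
  have hrho := rhoP_mem (p := p) hc hN
  have hGV := GV_mem (p := p) c hG
  rw [LfC_two hc hcp hN (wtB b) (gB b) (gB b) (fun i h1 h2 => coeff_gB' b c h1 h2)
      (fun i h1 h2 => coeff_gB' b (c + p) h1 h2) G,
    LfC_two hc hcp hN (wtA N s z) (gA N s z c) (gA N s z (c + p))
      (fun i h1 h2 => coeff_gA' N s z h1 h2)
      (fun i h1 h2 => coeff_gA' N s z h1 h2) (S * G)]
  set ff : PP := (gA N s z c, gA N s z (c + p)) with hff
  have h1 : rhoP p N c * GV p c G * (gB b, gB b) = rhoP p N c * GV p c G * U +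
      (p : ℚ) • (rhoP p N c * GV p c (S * G) * ff) +
      (p : ℚ) • (xx (-(p : ℤ)) ^ 3 * (rhoP p N c * GV p c G * h' * ff)) := by
    rw [hrel, hTS, map_mul]
    simp only [Algebra.smul_def]
    ring
  rw [h1, Rs_add, Rs_add, Rs_smul, Rs_smul]
  have e1 := Rs_int neg_p_dvd hd0 (Subring.mul_mem _ (Subring.mul_mem _ hrho hGV) hU) 3 3
  have e2 : VG p 0 (Rs (-(p : ℤ)) 3 3
      (xx (-(p : ℤ)) ^ 3 * (rhoP p N c * GV p c G * h' * ff))) := by
    refine Rs_xx_int ?_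
    have e4 := (IR_WA neg_p_dvd (Subring.mul_mem _ (Subring.mul_mem _ hrho hGV) hh')).2.mul hWA
    simpa using e4
  have e3 := (VG.int (p := p) (p : ℤ)).mul e2
  rw [add_zero, Int.cast_natCast] at e3
  have e4 := e1.add e3
  have e5 : ∀ x y w : ℚ, x + (p : ℚ) * y + p * w - p * y = x + p * w := fun x y w => by ring
  rw [e5]
  exact e4

end Z23
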